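import Pool.Agent.Work.MP_6f8877_nt.EP5

/-!
# Growth for eventually periodic arrays
-/

set_option autoImplicit false

open Finset Filter Topology

namespace Pool.Agent.Work.MP_6f8877_nt.EP

theorem rowf_congr {c c' : ℕ → ℂ} (h : ∀ j, 1 ≤ j → c j = c' j) : rowf c = rowf c' := by
  funext y
  unfold rowf
  congr 1
  exact tsum_congr fun j => by rw [h (j + 1) (by omega)]

theorem growth_array {ε : ℕ → ℕ → ℤ} (hε : ∀ n k, ε n k = 1 ∨ ε n k = -1) {k₀ M : ℕ}
    (hM : 1 ≤ M) (hcol : ∀ k j, k₀ ≤ k → 1 ≤ j → ε (k + M) j = ε k j)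
    (hrow : ∀ k, 1 ≤ k → ∃ T J, 1 ≤ T ∧ ∀ j, J ≤ j → ε k (j + T) = ε k j) :
    ∃ c : ℝ, 0 < c ∧ ∀ N : ℕ, ∃ m ≥ N, Real.exp (c * Real.sqrt m) ≤ |((aco ε m : ℤ) : ℝ)| := by
  by_contra hcon
  push Not at hcon
  set k₁ := k₀ + 1 with hk₁
  have hper : ∀ q k, k₁ ≤ k → rowf (fun j => (ε (k + M * q) j : ℂ)) =
      rowf (fun j => (ε k j : ℂ)) := by
    intro q
    induction q with
    | zero => intro k _; simp
    | succ q ih =>
      intro k hk
      rw [← ih k hk]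
      refine rowf_congr fun j hj => ?_
      have h1 := hcol (k + M * q) j (by omega) hj
      rw [mul_add, mul_one, ← add_assoc, h1]
  -- zero free rows
  have hzf : ∀ k, k₁ ≤ k → ∀ y : ℂ, ‖y‖ < 1 → rowf (fun j => (ε k j : ℂ)) y ≠ 0 := by
    intro k hk y hy h0
    have hy0 : 0 ≤ ‖y‖ := norm_nonneg y
    obtain ⟨c, hc, hg⟩ := growth hε (k₀ := k) (by omega) (ρ := (‖y‖ + 1) / 2) (by linarith)
      (by linarith) hM (fun n => ⟨y, by linarith, by rw [hper n k hk]; exact h0⟩)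
    obtain ⟨N, hN⟩ := hcon c hc
    obtain ⟨m, hm, hm2⟩ := hg N
    exact absurd hm2 (not_le.2 (hN m hm))
  have hc1 : ∀ k j, 1 ≤ j → ε k j = 1 ∨ ε k j = -1 := fun k j _ => hε k j
  -- uniform product formula
  have hpf : ∀ k, ∃ j₀ : ℕ, k₁ ≤ k → ∀ j, j₀ ≤ j → ∀ ω : ℂ, IsPrimitiveRoot ω (2 ^ j) →
      ∀ w : ℂ, ‖w‖ < 1 → ∏ b ∈ range (2 ^ j), rowf (fun j => (ε k j : ℂ)) (ω ^ b * w) =
        (1 - w ^ 2 ^ j)⁻¹ := by
    intro k
    by_cases hk : k₁ ≤ k
    · obtain ⟨T, J, hT, hTJ⟩ := hrow k (by omega)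
      obtain ⟨j₀, h⟩ := row_prod (hc1 k) hT hTJ (hzf k hk)
      exact ⟨j₀, fun _ => h⟩
    · exact ⟨0, fun h => absurd h hk⟩
  choose j₀ hj₀ using hpf
  set J := (Ico k₁ (k₁ + M)).sup j₀ with hJ
  have hPF : ∀ k, k₁ ≤ k → PF J (rowf (fun j => (ε k j : ℂ))) := by
    intro k hk
    set r := (k - k₁) % M with hr
    have hrM : r < M := Nat.mod_lt _ (by omega)
    have hkr : k = (k₁ + r) + M * ((k - k₁) / M) := by
      have := Nat.mod_add_div (k - k₁) M
      omega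
    rw [hkr, hper _ _ (by omega)]
    intro j hj ω hω w hw
    refine hj₀ (k₁ + r) (by omega) j (le_trans ?_ hj) ω hω w hw
    exact le_sup (f := j₀) (mem_Ico.2 ⟨by omega, by omega⟩)
  set E := cutn (fun i j => (ε i j : ℂ)) k₁ with hE
  have hElow : ∀ k, k < k₁ → ∀ y, rowf (E k) y = 1 := by
    intro k hk y
    have : E k = fun _ => 0 := by
      funext j
      simp [hE, cutn, hk]
    rw [this]
    simp [rowf]
  have hEhigh : ∀ k, k₁ ≤ k → E k = fun j => (ε k j : ℂ) := by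
    intro k hk
    funext j
    simp [hE, cutn, not_lt.2 hk]
  have hArr : Arr E k₁ M J := by
    refine ⟨cutn_norm (eC_norm hε) k₁, fun k y hy => ?_, hElow, fun k hk => ?_, fun k hk => ?_,
      by omega, hM⟩
    · rcases lt_or_ge k k₁ with hk | hk
      · rw [hElow k hk]
        exact one_ne_zero
      · rw [hEhigh k hk]
        exact hzf k hk y hy
    · rw [hEhigh k hk]
      exact hPF k hk
    · rw [hEhigh k hk, hEhigh (k + M) (by omega)]
      have := hper 1 k hk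
      rwa [mul_one] at this
  have hup : Up (GF (fun i j => (ε i j : ℂ))) := up_of_coeff hε fun c hc => hcon c hc
  have hlow : ∀ k, 1 ≤ k → LowP (fun z => rowf ((fun i j => (ε i j : ℂ)) k) (z ^ k)) := by
    intro k hk
    obtain ⟨T, J, hT, hTJ⟩ := hrow k hk
    exact LowP.row (hc1 k) hT hTJ hk
  exact hArr.contra (Up.cutn (eC_norm hε) hlow hup k₀)

end Pool.Agent.Work.MP_6f8877_nt.EP
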