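import Pool.Agent.Work.MP_6f8877_nt.Rows3

/-!
# Conclusions
-/

set_option autoImplicit false

open Filter Topology Metric

namespace Pool.Agent.Work.MP_6f8877_nt

theorem period_mul {f : ℕ → ℤ} {T : ℕ} (h : ∀ k, 1 ≤ k → f (k + T) = f k) (n : ℕ) :
    ∀ k, 1 ≤ k → f (k + T * n) = f k := by
  induction n with
  | zero => simp
  | succ n ih =>
    intro k hk
    rw [mul_add, mul_one, ← add_assoc, h _ (by omega), ih k hk]

/-- A common period of finitely many columns. -/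
theorem common_period {ε : ℕ → ℕ → ℤ}
    (h : ∀ j, 1 ≤ j → ∃ T, 1 ≤ T ∧ ∀ k, 1 ≤ k → ε (k + T) j = ε k j) (J : ℕ) :
    ∃ T, 1 ≤ T ∧ ∀ j, 1 ≤ j → j ≤ J → ∀ k, 1 ≤ k → ε (k + T) j = ε k j := by
  induction J with
  | zero => exact ⟨1, le_rfl, fun j h1 h2 => by omega⟩
  | succ J ih =>
    obtain ⟨T, hT, ih⟩ := ih
    obtain ⟨T', hT', h'⟩ := h (J + 1) (by omega)
    refine ⟨T * T', Nat.mul_pos hT hT', fun j h1 h2 k hk => ?_⟩
    rcases Nat.lt_or_ge J j with hj | hj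
    · have : j = J + 1 := by omega
      subst this
      rw [mul_comm]
      exact period_mul (f := fun k => ε k (J + 1)) h' T k hk
    · exact period_mul (f := fun k => ε k j) (ih j h1 hj) T' k hk

/-- Growth for sign choices with periodic columns. -/
theorem growth_columns {ε : ℕ → ℕ → ℤ} (hε : ∀ n k, ε n k = 1 ∨ ε n k = -1)
    (h : ∀ j, 1 ≤ j → ∃ T, 1 ≤ T ∧ ∀ k, 1 ≤ k → ε (k + T) j = ε k j)
    (hz : ∃ k : ℕ, 1 ≤ k ∧ ∃ y : ℂ, ‖y‖ < 1 ∧ rowf (fun j => (ε k j : ℂ)) y = 0) :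
    ∃ c : ℝ, 0 < c ∧ ∀ N : ℕ, ∃ m ≥ N, Real.exp (c * Real.sqrt m) ≤ |((aco ε m : ℤ) : ℝ)| := by
  obtain ⟨k₀, hk₀, y, hy, hy0⟩ := hz
  have hρ1 : (‖y‖ + 1) / 2 < 1 := by linarith
  have hρ2 : ‖y‖ < (‖y‖ + 1) / 2 := by linarith
  have hρ0 : 0 < (‖y‖ + 1) / 2 := by have := norm_nonneg y; linarith
  obtain ⟨J, hJ⟩ := open_row (fun j => eC_norm hε k₀ j) hρ2 hρ1 hy0
  obtain ⟨T, hT, hper⟩ := common_period h J
  refine growth hε hk₀ hρ0 hρ1 hT fun n => ?_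
  refine hJ _ (fun j => eC_norm hε _ j) fun j h1 h2 => ?_
  have := period_mul (f := fun k => ε k j) (hper j h1 h2) n k₀ hk₀
  exact congrArg (fun t : ℤ => (t : ℂ)) this

/-- No sign choice with periodic columns is valid. -/
theorem no_columns {ε : ℕ → ℕ → ℤ} (hε : ∀ n k, ε n k = 1 ∨ ε n k = -1)
    (h : ∀ j, 1 ≤ j → ∃ T, 1 ≤ T ∧ ∀ k, 1 ≤ k → ε (k + T) j = ε k j) :
    ∃ m, 2 ≤ |aco ε m| := by
  by_contra hcon
  push Not at hcon
  have hv : ∀ m, |aco ε m| ≤ 1 := fun m => by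
    have := hcon m
    omega
  obtain ⟨k, hk1, _, y, hy, hy0⟩ := zero_in_disc hε hv
  have hy1 : ‖y‖ < 1 := hy.trans_le (pow_le_one₀ (by norm_num) (by norm_num))
  obtain ⟨c, hc, hN⟩ := growth_columns hε h ⟨k, hk1, y, hy1, hy0⟩
  obtain ⟨m, hm, hm2⟩ := hN 1
  have h1 : |((aco ε m : ℤ) : ℝ)| ≤ 1 := by exact_mod_cast hv m
  have h2 : (0 : ℝ) < Real.sqrt m := Real.sqrt_pos.2 (by exact_mod_cast hm)
  have h3 : 1 < Real.exp (c * Real.sqrt m) := Real.one_lt_exp_iff.2 (mul_pos hc h2)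
  linarith

/-- In a valid sign choice one of the first 42 rows recurs rarely. -/
theorem nonrecurrent {ε : ℕ → ℕ → ℤ} (hε : ∀ n k, ε n k = 1 ∨ ε n k = -1)
    (hv : ∀ m : ℕ, |aco ε m| ≤ 1) :
    ∃ k₀ : ℕ, 1 ≤ k₀ ∧ k₀ ≤ 42 ∧ ∃ (J : ℕ) (C : ℝ), ∀ K : ℕ, 2 ≤ K → ∀ S : Finset ℕ,
      S ⊆ Finset.Icc 1 K → (∀ k ∈ S, ∀ j, 1 ≤ j → j ≤ J → ε k j = ε k₀ j) →
        (S.card : ℝ) ≤ C * Real.log K := by
  obtain ⟨k₀, hk1, hk2, y, hy, hy0⟩ := zero_in_disc hε hv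
  have hy1 : ‖y‖ < 1 := hy.trans_le (pow_le_one₀ (by norm_num) (by norm_num))
  have hρ1 : (‖y‖ + 1) / 2 < 1 := by linarith
  have hρ2 : ‖y‖ < (‖y‖ + 1) / 2 := by linarith
  have hρ0 : 0 < (‖y‖ + 1) / 2 := by have := norm_nonneg y; linarith
  obtain ⟨J, hJ⟩ := open_row (fun j => eC_norm hε k₀ j) hρ2 hρ1 hy0
  set l := -Real.log ((‖y‖ + 1) / 2) with hl
  have hl0 : 0 < l := by
    have := Real.log_neg hρ0 hρ1
    rw [hl]; linarith
  refine ⟨k₀, hk1, hk2, J, 2 / l * (Real.log (1 + 2 / l) / Real.log 2 + 1), fun K hK S hS h => ?_⟩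
  have h1 := rare hε hv hρ0 hρ1 (by omega : 1 ≤ K) hS (fun k hk =>
    hJ _ (fun j => eC_norm hε _ j) fun j h1 h2 => by rw [h k hk j h1 h2])
  rw [← hl] at h1
  refine h1.trans ?_
  rw [mul_assoc]
  refine mul_le_mul_of_nonneg_left ?_ (by positivity)
  have hK2 : (2 : ℝ) ≤ K := by exact_mod_cast hK
  have hlog2 : 0 < Real.log 2 := Real.log_pos (by norm_num)
  have h2 : Real.log (1 + 2 * K / l) ≤ Real.log (1 + 2 / l) + Real.log K := by
    rw [← Real.log_mul (by positivity) (by positivity)]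
    refine Real.log_le_log (by positivity) ?_
    have : (1 + 2 / l) * (K : ℝ) = K + 2 * K / l := by ring
    rw [this]
    linarith
  have h3 : Real.log (1 + 2 / l) ≤ Real.log (1 + 2 / l) / Real.log 2 * Real.log K := by
    have h4 : Real.log 2 ≤ Real.log K := Real.log_le_log (by norm_num) hK2
    have h5 : 0 ≤ Real.log (1 + 2 / l) := Real.log_nonneg (by
      have : 0 < 2 / l := by positivity
      linarith)
    rw [div_mul_eq_mul_div, le_div_iff₀ hlog2]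
    exact mul_le_mul_of_nonneg_left h4 h5
  calc Real.log (1 + 2 * K / l) ≤ Real.log (1 + 2 / l) + Real.log K := h2
    _ ≤ Real.log (1 + 2 / l) / Real.log 2 * Real.log K + Real.log K := by linarith
    _ = _ := by ring

end Pool.Agent.Work.MP_6f8877_nt
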