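import Mathlib

set_option autoImplicit false

open Complex Metric Filter Topology
open scoped Finset

namespace Pool.Agent.Work.MP_6f8877_nt

/-- `f` is the sum of the power series `A` on the open disc of radius `R`. -/
def Rep (f : ℂ → ℂ) (A : PowerSeries ℂ) (R : ℝ) : Prop :=
  ∀ z : ℂ, ‖z‖ < R → HasSum (fun n => PowerSeries.coeff n A * z ^ n) (f z)

theorem Rep.mono {f : ℂ → ℂ} {A : PowerSeries ℂ} {R R' : ℝ} (h : Rep f A R) (hR : R' ≤ R) :
    Rep f A R' := fun z hz => h z (hz.trans_le hR)

theorem Rep.summable_norm {f : ℂ → ℂ} {A : PowerSeries ℂ} {R r : ℝ} (h : Rep f A R)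
    (hr0 : 0 ≤ r) (hr : r < R) : Summable (fun n => ‖PowerSeries.coeff n A‖ * r ^ n) := by
  obtain ⟨s, hs1, hs2⟩ := exists_between hr
  have hs0 : 0 < s := hr0.trans_lt hs1
  have hsum := (h (s : ℂ) (by rw [Complex.norm_real, Real.norm_of_nonneg hs0.le]; exact hs2)).summable
  have ht := hsum.tendsto_atTop_zero
  have hb : ∃ C, ∀ n, ‖PowerSeries.coeff n A * (s : ℂ) ^ n‖ ≤ C := by
    have := ht.norm.bddAbove_range
    obtain ⟨C, hC⟩ := this
    exact ⟨C, fun n => hC ⟨n, rfl⟩⟩
  obtain ⟨C, hC⟩ := hb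
  have hgeo : Summable (fun n : ℕ => C * (r / s) ^ n) :=
    (summable_geometric_of_lt_one (by positivity) ((div_lt_one hs0).2 hs1)).mul_left C
  refine Summable.of_nonneg_of_le (fun n => by positivity) (fun n => ?_) hgeo
  have h1 := hC n
  rw [norm_mul, norm_pow, Complex.norm_real, Real.norm_of_nonneg hs0.le] at h1
  calc ‖PowerSeries.coeff n A‖ * r ^ n
      = (‖PowerSeries.coeff n A‖ * s ^ n) * (r / s) ^ n := by
        rw [div_pow, mul_assoc, mul_div_cancel₀]; positivity
    _ ≤ C * (r / s) ^ n := by gcongr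

theorem Rep.summable_norm' {f : ℂ → ℂ} {A : PowerSeries ℂ} {R : ℝ} (h : Rep f A R)
    {z : ℂ} (hz : ‖z‖ < R) : Summable (fun n => ‖PowerSeries.coeff n A * z ^ n‖) := by
  simpa [norm_mul, norm_pow] using h.summable_norm (norm_nonneg z) hz

theorem Rep.mul {f g : ℂ → ℂ} {A B : PowerSeries ℂ} {R : ℝ} (hf : Rep f A R) (hg : Rep g B R) :
    Rep (fun z => f z * g z) (A * B) R := by
  intro z hz
  have h1 := hf.summable_norm' hz
  have h2 := hg.summable_norm' hz
  have h3 := tsum_mul_tsum_eq_tsum_sum_antidiagonal_of_summable_norm h1 h2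
  have h4 := summable_norm_sum_mul_antidiagonal_of_summable_norm h1 h2
  have h5 : (fun n => ∑ kl ∈ Finset.HasAntidiagonal.antidiagonal n,
      (PowerSeries.coeff kl.1 A * z ^ kl.1) * (PowerSeries.coeff kl.2 B * z ^ kl.2))
      = fun n => PowerSeries.coeff n (A * B) * z ^ n := by
    funext n
    rw [PowerSeries.coeff_mul, Finset.sum_mul]
    refine Finset.sum_congr rfl (fun p hp => ?_)
    rw [← Finset.HasAntidiagonal.mem_antidiagonal.1 hp, pow_add]; ring
  have h6 : Summable (fun n => ‖PowerSeries.coeff n (A * B) * z ^ n‖) := by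
    have h7 : (fun n => ‖PowerSeries.coeff n (A * B) * z ^ n‖) = fun n =>
        ‖∑ kl ∈ Finset.HasAntidiagonal.antidiagonal n,
        (PowerSeries.coeff kl.1) A * z ^ kl.1 * ((PowerSeries.coeff kl.2) B * z ^ kl.2)‖ := by
      funext n
      rw [← congrFun h5 n]
    rw [h7]; exact h4
  rw [h5] at h3
  rw [(hf z hz).tsum_eq, (hg z hz).tsum_eq] at h3
  show HasSum _ (f z * g z)
  rw [h3]
  exact h6.of_norm.hasSum

theorem Rep.one (R : ℝ) : Rep (fun _ => 1) 1 R := by
  intro z _
  have : (fun n => PowerSeries.coeff n (1 : PowerSeries ℂ) * z ^ n)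
      = fun n => if n = 0 then 1 else 0 := by
    funext n
    rw [PowerSeries.coeff_one]
    split_ifs with h <;> simp [h]
  rw [this]
  exact hasSum_ite_eq 0 1

theorem Rep.pow {f : ℂ → ℂ} {A : PowerSeries ℂ} {R : ℝ} (hf : Rep f A R) (k : ℕ) :
    Rep (fun z => f z ^ k) (A ^ k) R := by
  induction k with
  | zero => simpa using Rep.one R
  | succ k ih => simpa [pow_succ] using ih.mul hf

theorem Rep.hasFPowerSeriesAt {f : ℂ → ℂ} {A : PowerSeries ℂ} {R : ℝ} (hR : 0 < R)
    (hf : Rep f A R) :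
    HasFPowerSeriesOnBall f (FormalMultilinearSeries.ofScalars ℂ (fun n => PowerSeries.coeff n A)) 0
      (ENNReal.ofReal R) := by
  refine ⟨?_, by simpa using hR, ?_⟩
  · refine ENNReal.le_of_forall_nnreal_lt (fun r hr => ?_)
    apply FormalMultilinearSeries.le_radius_of_summable_norm
    have hr' : (r : ℝ) < R := by
      have := hr
      rw [ENNReal.lt_ofReal_iff_toReal_lt (by simp)] at this
      simpa using this
    have := hf.summable_norm r.2 hr'
    refine Summable.of_nonneg_of_le (fun n => by positivity) (fun n => ?_) this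
    rw [FormalMultilinearSeries.ofScalars_norm]
    exact le_rfl
  · intro y hy
    have hy' : ‖y‖ < R := by
      have := hy
      rw [Metric.mem_eball, edist_zero_right, enorm_eq_nnnorm] at this
      have h2 : ((‖y‖₊ : ENNReal)) < ENNReal.ofReal R := this
      rw [ENNReal.lt_ofReal_iff_toReal_lt (by simp)] at h2
      simpa using h2
    have := hf y hy'
    simpa [FormalMultilinearSeries.ofScalars_apply_eq, zero_add, mul_comm] using this

theorem Rep.unique {f : ℂ → ℂ} {A B : PowerSeries ℂ} {R : ℝ} (hR : 0 < R)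
    (hA : Rep f A R) (hB : Rep f B R) : A = B := by
  have h1 := (hA.hasFPowerSeriesAt hR).hasFPowerSeriesAt
  have h2 := (hB.hasFPowerSeriesAt hR).hasFPowerSeriesAt
  have h3 := h1.eq_formalMultilinearSeries h2
  have h4 := (FormalMultilinearSeries.ofScalars_series_injective (𝕜 := ℂ) (E := ℂ)) h3
  ext n
  exact congrFun h4 n

theorem Rep.congr {f g : ℂ → ℂ} {A : PowerSeries ℂ} {R : ℝ} (hf : Rep f A R)
    (h : ∀ z, ‖z‖ < R → f z = g z) : Rep g A R := by
  intro z hz
  rw [← h z hz]
  exact hf z hz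

theorem Rep.differentiableOn {f : ℂ → ℂ} {A : PowerSeries ℂ} {R : ℝ} (hR : 0 < R)
    (hf : Rep f A R) : DifferentiableOn ℂ f (ball 0 R) := by
  have := (hf.hasFPowerSeriesAt hR).differentiableOn
  rwa [Metric.eball_ofReal] at this

theorem exists_rep {f : ℂ → ℂ} {R : ℝ} (hf : DifferentiableOn ℂ f (ball 0 R)) :
    ∃ A : PowerSeries ℂ, Rep f A R := by
  refine ⟨PowerSeries.mk (fun n => (n.factorial : ℂ)⁻¹ * iteratedDeriv n f 0), fun z hz => ?_⟩
  have := Complex.hasSum_taylorSeries_on_ball hf (z := z) (by simpa using hz)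
  simp only [sub_zero, smul_eq_mul] at this
  have h2 : (fun n => PowerSeries.coeff n (PowerSeries.mk
      (fun n => (n.factorial : ℂ)⁻¹ * iteratedDeriv n f 0)) * z ^ n)
      = (fun n : ℕ => (n.factorial : ℂ)⁻¹ * (z ^ n * iteratedDeriv n f 0)) := by
    funext n
    rw [PowerSeries.coeff_mk]; ring
  rw [h2]
  exact this

theorem Rep.apply_zero {f : ℂ → ℂ} {A : PowerSeries ℂ} {R : ℝ} (hR : 0 < R)
    (hf : Rep f A R) : f 0 = PowerSeries.coeff 0 A := by
  have h1 := hf 0 (by simpa using hR)
  have h2 : HasSum (fun n => PowerSeries.coeff n A * (0 : ℂ) ^ n) (PowerSeries.coeff 0 A) := by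
    have := hasSum_single (f := fun n => PowerSeries.coeff n A * (0 : ℂ) ^ n) 0
      (fun b hb => by simp [hb])
    simpa using this
  exact h1.unique h2

/-- A zero-free function on a disc has an analytic fourth root. -/
theorem exists_root {F : ℂ → ℂ} {A : PowerSeries ℂ} {R : ℝ} (hR : 0 < R) (hF : Rep F A R)
    (hA : PowerSeries.coeff 0 A = 1) (h0 : ∀ z, ‖z‖ < R → F z ≠ 0) :
    ∃ (H : ℂ → ℂ) (B : PowerSeries ℂ), Rep H B R ∧ (∀ z, ‖z‖ < R → H z ^ 4 = F z) ∧ B ^ 4 = A ∧
      PowerSeries.coeff 0 B = 1 := by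
  have hFd := hF.differentiableOn hR
  have hopen : IsOpen (ball (0 : ℂ) R) := isOpen_ball
  have hF' : DifferentiableOn ℂ (fun z => deriv F z / F z) (ball 0 R) :=
    (hFd.deriv hopen).div hFd (fun z hz => h0 z (by simpa using hz))
  obtain ⟨L, hL0, hL⟩ := (DifferentiableOn.isExactOn_ball hF').with_val_at 0 0
  -- F * exp (-L) is constant
  have hconst : ∀ z ∈ ball (0 : ℂ) R, F z * Complex.exp (-L z) = 1 := by
    intro z hz
    have hderiv : ∀ w ∈ ball (0 : ℂ) R,
        HasDerivAt (fun z => F z * Complex.exp (-L z)) 0 w := by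
      intro w hw
      have h1 : HasDerivAt F (deriv F w) w := (hFd.differentiableAt (hopen.mem_nhds hw)).hasDerivAt
      have h2 := (hL w hw).neg.cexp
      have h3 := h1.mul h2
      have hne := h0 w (by simpa using hw)
      have h4 : deriv F w * Complex.exp (-L w) + F w * (Complex.exp (-L w) * -(deriv F w / F w))
          = 0 := by
        field_simp
        ring
      have h5 := h3.congr_deriv h4
      exact h5
    have h := (convex_ball (0 : ℂ) R).is_const_of_fderivWithin_eq_zero (𝕜 := ℂ)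
      (f := fun z => F z * Complex.exp (-L z))
      (fun w hw => (hderiv w hw).differentiableAt.differentiableWithinAt)
      (fun w hw => by
        rw [fderivWithin_of_isOpen hopen hw]
        rw [(hderiv w hw).hasFDerivAt.fderiv]
        ext
        simp) hz (mem_ball_self hR)
    have h' : F z * Complex.exp (-L z) = F 0 * Complex.exp (-L 0) := h
    rw [h', hL0, hF.apply_zero hR, hA]
    simp
  have hFexp : ∀ z ∈ ball (0 : ℂ) R, F z = Complex.exp (L z) := by
    intro z hz
    have := hconst z hz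
    rw [Complex.exp_neg] at this
    have hne := Complex.exp_ne_zero (L z)
    field_simp at this
    exact this
  let H : ℂ → ℂ := fun z => Complex.exp (L z / 4)
  have hHd : DifferentiableOn ℂ H (ball 0 R) := by
    intro w hw
    exact ((hL w hw).differentiableAt.div_const 4).cexp.differentiableWithinAt
  obtain ⟨B, hB⟩ := exists_rep hHd
  have h4 : ∀ z, ‖z‖ < R → H z ^ 4 = F z := by
    intro z hz
    rw [hFexp z (by simpa using hz)]
    show Complex.exp (L z / 4) ^ 4 = _
    rw [← Complex.exp_nat_mul]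
    congr 1
    push_cast
    ring
  refine ⟨H, B, hB, h4, ?_, ?_⟩
  · exact Rep.unique hR ((hB.pow 4).congr h4) hF
  · rw [← hB.apply_zero hR]
    show Complex.exp (L 0 / 4) = 1
    rw [hL0]; simp

end Pool.Agent.Work.MP_6f8877_nt
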