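import Mathlib
import Pool.Agent.Work.MP_6f8877_nt.PS

set_option autoImplicit false

open Complex Metric Filter Topology Real

namespace Pool.Agent.Work.MP_6f8877_nt

theorem polyParseval (a : ℕ → ℂ) (N : ℕ) (r : ℝ) :
    Real.circleAverage (fun z => ‖∑ n ∈ Finset.range N, a n * z ^ n‖ ^ 2) 0 r
      = ∑ n ∈ Finset.range N, ‖a n‖ ^ 2 * (r ^ 2) ^ n := by
  rw [Real.circleAverage_eq_circleAverage_zero_one]
  let p : Polynomial ℂ := ∑ n ∈ Finset.range N, Polynomial.monomial n (a n * (r : ℂ) ^ n)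
  have hc : ∀ i, p.coeff i = if i < N then a i * (r : ℂ) ^ i else 0 := by
    intro i
    simp only [p, Polynomial.finsetSum_coeff, Polynomial.coeff_monomial]
    rw [Finset.sum_ite_eq']
    simp
  have h1 := Polynomial.sum_sq_norm_coeff_eq_circleAverage p
  have h2 : (fun z : ℂ => ‖p.eval z‖ ^ 2)
      = fun z : ℂ => ‖∑ n ∈ Finset.range N, a n * ((r : ℂ) * z + 0) ^ n‖ ^ 2 := by
    funext z
    simp only [p, Polynomial.eval_finsetSum, Polynomial.eval_monomial, add_zero]
    congr 2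
    refine Finset.sum_congr rfl (fun n _ => ?_)
    rw [mul_pow]; ring
  rw [h2] at h1
  rw [← h1]
  have h3 : p.support ⊆ Finset.range N := by
    intro i hi
    rw [Polynomial.mem_support_iff, hc] at hi
    by_contra h
    rw [Finset.mem_range] at h
    simp [h] at hi
  rw [Finset.sum_subset h3]
  · refine Finset.sum_congr rfl (fun n hn => ?_)
    rw [hc, if_pos (Finset.mem_range.1 hn), norm_mul, norm_pow, Complex.norm_real, mul_pow,
      Real.norm_eq_abs, ← pow_mul, mul_comm n 2, pow_mul, sq_abs]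
  · intro i _ hi
    rw [Polynomial.notMem_support_iff.1 hi]; simp

theorem Rep.parseval {f : ℂ → ℂ} {A : PowerSeries ℂ} {R r : ℝ} (h : Rep f A R)
    (hr0 : 0 ≤ r) (hr : r < R) :
    HasSum (fun n => ‖PowerSeries.coeff n A‖ ^ 2 * (r ^ 2) ^ n)
      (Real.circleAverage (fun z => ‖f z‖ ^ 2) 0 r) := by
  rw [hasSum_iff_tendsto_nat_of_nonneg (fun n => by positivity)]
  have hfun : (fun N => ∑ n ∈ Finset.range N, ‖PowerSeries.coeff n A‖ ^ 2 * (r ^ 2) ^ n)
      = fun N => Real.circleAverage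
        (fun z => ‖∑ n ∈ Finset.range N, PowerSeries.coeff n A * z ^ n‖ ^ 2) 0 r := by
    funext N
    rw [polyParseval]
  rw [hfun]
  unfold Real.circleAverage
  refine Tendsto.const_smul ?_ _
  have hs := h.summable_norm hr0 hr
  set M := ∑' n, ‖PowerSeries.coeff n A‖ * r ^ n with hM
  have hzn : ∀ θ : ℝ, ‖circleMap 0 r θ‖ = r := by
    intro θ; simp [abs_of_nonneg hr0]
  refine intervalIntegral.tendsto_integral_filter_of_dominated_convergence (fun _ => M ^ 2)
    ?_ ?_ ?_ ?_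
  · refine Eventually.of_forall (fun N => ?_)
    refine Continuous.aestronglyMeasurable ?_
    fun_prop
  · refine Eventually.of_forall (fun N => Eventually.of_forall (fun θ _ => ?_))
    rw [Real.norm_of_nonneg (by positivity)]
    refine pow_le_pow_left₀ (norm_nonneg _) ?_ 2
    calc ‖∑ n ∈ Finset.range N, PowerSeries.coeff n A * circleMap 0 r θ ^ n‖
        ≤ ∑ n ∈ Finset.range N, ‖PowerSeries.coeff n A * circleMap 0 r θ ^ n‖ := norm_sum_le _ _
      _ = ∑ n ∈ Finset.range N, ‖PowerSeries.coeff n A‖ * r ^ n := by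
          refine Finset.sum_congr rfl (fun n _ => ?_)
          rw [norm_mul, norm_pow, hzn]
      _ ≤ M := hs.sum_le_tsum _ (fun n _ => by positivity)
  · exact intervalIntegrable_const
  · refine Eventually.of_forall (fun θ _ => ?_)
    have := (h (circleMap 0 r θ) (by rw [hzn]; exact hr)).tendsto_sum_nat
    exact (this.norm).pow 2

theorem sq_circleAverage_le {u : ℂ → ℝ} {r : ℝ} (hu : ContinuousOn u (sphere 0 |r|)) :
    Real.circleAverage u 0 r ^ 2 ≤ Real.circleAverage (fun z => u z ^ 2) 0 r := by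
  set m := Real.circleAverage u 0 r with hm
  have h1 : CircleIntegrable u 0 r := hu.circleIntegrable'
  have h2 : CircleIntegrable (fun z => u z ^ 2) 0 r := (hu.pow 2).circleIntegrable'
  have h3 : 0 ≤ Real.circleAverage (fun z => (u z - m) ^ 2) 0 r :=
    Real.circleAverage_nonneg_of_nonneg (fun z _ => by positivity)
  have h4 : (fun z => (u z - m) ^ 2) = fun z => (u z ^ 2 - (2 * m) * u z) + m ^ 2 := by
    funext z; ring
  have h5 : CircleIntegrable (fun z => (2 * m) * u z) 0 r := (continuousOn_const.mul hu).circleIntegrable'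
  have h6 : Real.circleAverage (fun z => (2 * m) * u z) 0 r = 2 * m * m := by
    have := Real.circleAverage_fun_smul (a := 2 * m) (f := u) (c := 0) (R := r)
    simpa [smul_eq_mul] using this
  have h7 : CircleIntegrable (fun z => u z ^ 2 - 2 * m * u z) 0 r := h2.sub h5
  rw [h4, Real.circleAverage_fun_add h7 (circleIntegrable_const _ _ _),
    Real.circleAverage_fun_sub h2 h5, Real.circleAverage_const, h6] at h3
  nlinarith

/-- The key inequality: if `H ^ 4 = F` then the Bessel sums of `H` are controlled by the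
`L²` norm of `F`. -/
theorem bessel_root {F H : ℂ → ℂ} {A B : PowerSeries ℂ} {R : ℝ} (hF : Rep F A R)
    (hH : Rep H B R) (h4 : ∀ z, ‖z‖ < R → H z ^ 4 = F z) {r : ℝ} (hr0 : 0 ≤ r) (hr : r < R)
    (N : ℕ) :
    (∑ n ∈ Finset.range N, ‖PowerSeries.coeff n B‖ ^ 2 * (r ^ 2) ^ n) ^ 4
      ≤ ∑' n, ‖PowerSeries.coeff n A‖ ^ 2 * (r ^ 2) ^ n := by
  have hR : 0 < R := hr0.trans_lt hr
  have hp1 := hF.parseval hr0 hr
  have hp2 := hH.parseval hr0 hr
  have hHc : ContinuousOn H (sphere 0 |r|) := by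
    refine (hH.differentiableOn hR).continuousOn.mono ?_
    intro z hz
    rw [mem_sphere_zero_iff_norm, abs_of_nonneg hr0] at hz
    rw [mem_ball_zero_iff, hz]; exact hr
  have h1 : (∑ n ∈ Finset.range N, ‖PowerSeries.coeff n B‖ ^ 2 * (r ^ 2) ^ n)
      ≤ Real.circleAverage (fun z => ‖H z‖ ^ 2) 0 r := by
    rw [← hp2.tsum_eq]
    exact hp2.summable.sum_le_tsum _ (fun n _ => by positivity)
  have h2 := sq_circleAverage_le (u := fun z => ‖H z‖ ^ 2) (r := r) (hHc.norm.pow 2)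
  have h3 := sq_circleAverage_le (u := fun z => (‖H z‖ ^ 2) ^ 2) (r := r) ((hHc.norm.pow 2).pow 2)
  have h5 : Real.circleAverage (fun z => ((‖H z‖ ^ 2) ^ 2) ^ 2) 0 r
      = Real.circleAverage (fun z => ‖F z‖ ^ 2) 0 r := by
    refine Real.circleAverage_congr_sphere (fun z hz => ?_)
    rw [mem_sphere_zero_iff_norm, abs_of_nonneg hr0] at hz
    show ((‖H z‖ ^ 2) ^ 2) ^ 2 = ‖F z‖ ^ 2
    rw [← h4 z (by rw [hz]; exact hr), norm_pow]
    ring
  rw [hp1.tsum_eq, ← h5]
  have h0 : 0 ≤ ∑ n ∈ Finset.range N, ‖PowerSeries.coeff n B‖ ^ 2 * (r ^ 2) ^ n :=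
    Finset.sum_nonneg (fun n _ => by positivity)
  calc (∑ n ∈ Finset.range N, ‖PowerSeries.coeff n B‖ ^ 2 * (r ^ 2) ^ n) ^ 4
      ≤ (Real.circleAverage (fun z => ‖H z‖ ^ 2) 0 r) ^ 4 := by gcongr
    _ = ((Real.circleAverage (fun z => ‖H z‖ ^ 2) 0 r) ^ 2) ^ 2 := by ring
    _ ≤ (Real.circleAverage (fun z => (‖H z‖ ^ 2) ^ 2) 0 r) ^ 2 := by gcongr
    _ ≤ _ := h3

end Pool.Agent.Work.MP_6f8877_nt
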