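import Pool.Agent.Work.MP_6f8877_nt.Check

set_option autoImplicit false
set_option maxRecDepth 100000

namespace Pool.Agent.Work.MP_6f8877_nt.SP

theorem leaf0 : test [true, true] = true := by
  decide +kernel

theorem leaf3 : test [true, false, true, false, false, true] = true := by
  decide +kernel

theorem leaf4 : test [true, false, true, false, false, false, true, true, true, true] = true :=
    by
  decide +kernel

theorem leaf5 : test [true, false, true, false, false, false, true, true, true, false, true,
    true] = true := by
  decide +kernel

theorem leaf10 : test [true, false, true, false, false, false, true, true, true, false, true,
    false, false, true, true, true, false, true, false, true, false, true] = true := by
  decide +kernel

theorem leaf15 : test [true, false, true, false, false, false, true, true, true, false, true,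
    false, false, true, true, true, false, true, false, true, false, false, false, true, false,
    true, false, true, false, true, true] = true := by
  decide +kernel

theorem leaf17 : test [true, false, true, false, false, false, true, true, true, false, true,
    false, false, true, true, true, false, true, false, true, false, false, false, true, false,
    true, false, true, false, true, false, true, false] = true := by
  decide +kernel

theorem leaf20 : test [true, false, true, false, false, false, true, true, true, false, true,
    false, false, true, true, true, false, true, false, true, false, false, false, true, false,
    true, false, false] = true := by
  decide +kernel

theorem leaf21 : test [true, false, true, false, false, false, true, true, true, false, true,
    false, false, true, true, true, false, true, false, true, false, false, false, true, false,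
    false] = true := by
  decide +kernel

theorem leaf23 : test [true, false, true, false, false, false, true, true, true, false, true,
    false, false, true, true, true, false, true, false, false] = true := by
  decide +kernel

theorem leaf29 : test [true, false, true, false, false, false, true, true, false] = true := by
  decide +kernel

theorem leaf30 : test [true, false, true, false, false, false, true, false] = true := by
  decide +kernel

theorem leaf32 : test [true, false, false] = true := by
  decide +kernel

theorem leaf33 : test [false] = true := by
  decide +kernel

end Pool.Agent.Work.MP_6f8877_nt.SP
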