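import Pool.Agent.Work.MP_6f8877_nt.Check
import Pool.Agent.Work.MP_6f8877_nt.Run0

set_option autoImplicit false
set_option maxRecDepth 100000

namespace Pool.Agent.Work.MP_6f8877_nt.SP

theorem leaf1 : test [true, false, true, true] = true := by
  decide +kernel

theorem leaf2 : test [true, false, true, false, true] = true := by
  decide +kernel

theorem leaf6 : test [true, false, true, false, false, false, true, true, true, false, true,
    false, true] = true := by
  decide +kernel

theorem leaf7 : test [true, false, true, false, false, false, true, true, true, false, true,
    false, false, true, true, true, true] = true := by
  decide +kernel

theorem leaf8 : test [true, false, true, false, false, false, true, true, true, false, true,
    false, false, true, true, true, false, true, true] = true := by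
  decide +kernel

theorem leaf9 : test [true, false, true, false, false, false, true, true, true, false, true,
    false, false, true, true, true, false, true, false, true, true] = true := by
  decide +kernel

theorem leaf11 : test [true, false, true, false, false, false, true, true, true, false, true,
    false, false, true, true, true, false, true, false, true, false, false, true] = true := by
  decide +kernel

theorem leaf12 : test [true, false, true, false, false, false, true, true, true, false, true,
    false, false, true, true, true, false, true, false, true, false, false, false, true, true] =
    true := by
  decide +kernel

theorem leaf13 : test [true, false, true, false, false, false, true, true, true, false, true,
    false, false, true, true, true, false, true, false, true, false, false, false, true, false,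
    true, true] = true := by
  decide +kernel

theorem leaf14 : test [true, false, true, false, false, false, true, true, true, false, true,
    false, false, true, true, true, false, true, false, true, false, false, false, true, false,
    true, false, true, true] = true := by
  decide +kernel

theorem leaf16 : test [true, false, true, false, false, false, true, true, true, false, true,
    false, false, true, true, true, false, true, false, true, false, false, false, true, false,
    true, false, true, false, true, false, true, true] = true := by
  decide +kernel

theorem leaf18 : test [true, false, true, false, false, false, true, true, true, false, true,
    false, false, true, true, true, false, true, false, true, false, false, false, true, false,
    true, false, true, false, true, false, false] = true := by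
  decide +kernel

theorem leaf19 : test [true, false, true, false, false, false, true, true, true, false, true,
    false, false, true, true, true, false, true, false, true, false, false, false, true, false,
    true, false, true, false, false] = true := by
  decide +kernel

theorem leaf22 : test [true, false, true, false, false, false, true, true, true, false, true,
    false, false, true, true, true, false, true, false, true, false, false, false, false] = true
    := by
  decide +kernel

theorem leaf24 : test [true, false, true, false, false, false, true, true, true, false, true,
    false, false, true, true, true, false, false] = true := by
  decide +kernel

theorem leaf25 : test [true, false, true, false, false, false, true, true, true, false, true,
    false, false, true, true, false] = true := by
  decide +kernel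

theorem leaf26 : test [true, false, true, false, false, false, true, true, true, false, true,
    false, false, true, false] = true := by
  decide +kernel

theorem leaf27 : test [true, false, true, false, false, false, true, true, true, false, true,
    false, false, false] = true := by
  decide +kernel

theorem leaf28 : test [true, false, true, false, false, false, true, true, true, false, false] =
    true := by
  decide +kernel

theorem leaf31 : test [true, false, true, false, false, false, false] = true := by
  decide +kernel

end Pool.Agent.Work.MP_6f8877_nt.SP
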