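import Mathlib

set_option autoImplicit false

open PowerSeries PowerSeries.WithPiTopology

namespace Pool.Agent.Work.MP_6f8877_nt

/-- the parities of the partition numbers `p(0), …, p(200)`, as bits. -/
def PAR : ℕ := 1000974576385917674038483395832604159311176690318334829752571

/-- the pentagonal numbers up to `200`, as bits. -/
def PEN : ℕ := 196255210247854419665740340106894935317896910926564593831

theorem genFun_mul_pentagonal :
    (Nat.Partition.genFun (fun _ _ => (1 : ZMod 2))) * pentagonalSeries (ZMod 2) = 1 := by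
  let _ : TopologicalSpace (ZMod 2) := ⊥
  have _ : DiscreteTopology (ZMod 2) := ⟨rfl⟩
  have h1 := Nat.Partition.hasProd_genFun (fun _ _ => (1 : ZMod 2))
  have h2 := hasProd_one_sub_X_pow (ZMod 2)
  have h3 := h1.mul h2
  have h4 : (fun i : ℕ => ((1 : PowerSeries (ZMod 2)) + ∑' j : ℕ, (1 : ZMod 2) •
      (X : PowerSeries (ZMod 2)) ^ ((i + 1) * (j + 1))) * (1 - X ^ (i + 1))) = fun _ => 1 := by
    funext i
    have h5 : (1 : PowerSeries (ZMod 2)) + ∑' j : ℕ, (1 : ZMod 2) •
      (X : PowerSeries (ZMod 2)) ^ ((i + 1) * (j + 1)) = ∑' j : ℕ, (X ^ (i + 1)) ^ j := by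
      have hs : Summable (fun j : ℕ => ((X : PowerSeries (ZMod 2)) ^ (i + 1)) ^ j) :=
        summable_pow_of_constantCoeff_eq_zero (by simp)
      rw [tsum_eq_zero_add' ((summable_nat_add_iff 1).2 hs)]
      simp [pow_mul]
    rw [h5]
    exact tsum_pow_mul_one_sub_of_constantCoeff_eq_zero (by simp)
  have h6 : HasProd (fun _ : ℕ => (1 : PowerSeries (ZMod 2)))
      ((Nat.Partition.genFun (fun _ _ => (1 : ZMod 2))) * pentagonalSeries (ZMod 2)) := by
    rw [← h4]; exact h3
  exact (h6.unique hasProd_one)

theorem pen_check : ∀ j < 201, (Nat.testBit PEN j = true ↔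
    ∃ i ∈ Finset.range 26, pentagonal ((i : ℤ) - 12) = j) := by
  decide +kernel

def bit (P : ℕ) (n : ℕ) : ZMod 2 := if Nat.testBit P n then 1 else 0

theorem coeff_pen (j : ℕ) (hj : j < 201) :
    (pentagonalSeries (ZMod 2)).coeff j = bit PEN j := by
  unfold bit
  split_ifs with h
  · obtain ⟨i, _, hi⟩ := (pen_check j hj).1 h
    rw [← hi, coeff_pentagonalSeries_pentagonal]
    rcases Int.units_eq_one_or (Int.negOnePow ((i : ℤ) - 12)) with h | h <;> rw [h] <;> decide
  · apply coeff_pentagonalSeries_eq_zero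
    rintro ⟨k, hk⟩
    apply h
    rw [pen_check j hj]
    have hk2 : k * (3 * k - 1) / 2 ≤ 200 := by
      rw [pentagonal_def] at hk
      omega
    have hk3 : k * (3 * k - 1) ≤ 401 := by omega
    have hk4 : -12 ≤ k := by
      by_contra hlt
      push Not at hlt
      nlinarith
    have hk5 : k < 14 := by
      by_contra hlt
      push Not at hlt
      nlinarith
    refine ⟨(k + 12).toNat, Finset.mem_range.2 (by omega), ?_⟩
    rw [← hk]
    congr 1
    omega

theorem conv_check : ∀ n < 201, ∑ i ∈ Finset.range (n + 1), bit PAR i * bit PEN (n - i)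
    = if n = 0 then 1 else 0 := by
  decide +kernel

theorem coeff_genFun_bit (n : ℕ) (hn : n < 201) :
    (Nat.Partition.genFun (fun _ _ => (1 : ZMod 2))).coeff n = bit PAR n := by
  induction n using Nat.strong_induction_on with
  | _ n ih =>
    have h1 := congrArg (PowerSeries.coeff n) genFun_mul_pentagonal
    rw [coeff_mul, coeff_one, Finset.Nat.sum_antidiagonal_eq_sum_range_succ_mk] at h1
    simp only at h1
    rw [Finset.sum_range_succ] at h1
    have h2 := conv_check n hn
    rw [Finset.sum_range_succ] at h2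
    have h3 : ∑ i ∈ Finset.range n, (PowerSeries.coeff i) (Nat.Partition.genFun fun _ _ => (1 : ZMod 2))
        * (PowerSeries.coeff (n - i)) (pentagonalSeries (ZMod 2))
        = ∑ i ∈ Finset.range n, bit PAR i * bit PEN (n - i) := by
      refine Finset.sum_congr rfl (fun i hi => ?_)
      rw [Finset.mem_range] at hi
      rw [ih i hi (by omega), coeff_pen (n - i) (by omega)]
    rw [h3, ← h2] at h1
    have h4 := add_left_cancel h1
    rw [Nat.sub_self] at h4
    have h5 : bit PEN 0 = 1 := by decide
    rw [h5, coeff_pen 0 (by norm_num), h5, mul_one, mul_one] at h4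
    exact h4

/-- The coefficients are congruent to the parity bits mod `2`. -/
theorem coeff_parity (ε : ℕ → ℕ → ℤ) (hε : ∀ n k, ε n k = 1 ∨ ε n k = -1) (n : ℕ)
    (hn : n < 201) :
    (((∑ p : Nat.Partition n, ∏ i ∈ p.parts.toFinset, ε i (p.parts.count i) : ℤ)) : ZMod 2)
      = bit PAR n := by
  rw [← coeff_genFun_bit n hn, Nat.Partition.coeff_genFun]
  push_cast
  refine Finset.sum_congr rfl (fun p _ => ?_)
  rw [Finsupp.prod, Finset.prod_const_one]
  refine Finset.prod_eq_one (fun i _ => ?_)
  rcases hε i (p.parts.count i) with h | h <;> rw [h] <;> decide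

end Pool.Agent.Work.MP_6f8877_nt
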