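/-!
A depth first search over all sign patterns `a 2, a 3, …` (with `a 0 = 1`, `a 1 = -1` and
`a n ≠ 0` exactly when `p n` is odd).  Along a branch the first coefficients `g i` and `η i` of the
scaled square root and fourth root of `∑ 8 ^ n * a n * X ^ n` are stored in packed form (base
`2 ^ 352`), so that each new coefficient is read off with a few operations on natural numbers.
A branch is closed when the weighted sum of squares of the `η i` exceeds the analytic bound.
-/

set_option autoImplicit false

namespace Pool.Agent.Work.MP_6f8877_nt.SP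

def BB : Nat := 2 ^ 352
def HB : Nat := 2 ^ 351

/-- twice the next coefficient, modulo the base -/
def tt (EB U : Nat) : Nat := Nat.mod (Nat.add EB (Nat.sub BB (Nat.mod U BB))) BB

/-- the absolute value of the next coefficient -/
def dm (t : Nat) : Nat := Nat.div (cond (Nat.ble t HB) t (Nat.sub BB t)) 2

def newU (W Bn t m U G EN : Nat) : Nat :=
  Nat.div (Nat.mod (Nat.add (Nat.add U (Nat.mul (Nat.mul 2 m)
    (cond (Nat.ble t HB) G (Nat.sub W G)))) (Nat.add (Nat.mul (Nat.mul m m) Bn) EN)) W) BB

def newG (W Bn t m G : Nat) : Nat :=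
  Nat.mod (Nat.add G (cond (Nat.ble t HB) (Nat.mul m Bn) (Nat.sub W (Nat.mul m Bn))))
    (Nat.div W BB)

def newQ (n m Q : Nat) : Nat :=
  Nat.add (Nat.mul Q 1000000) (Nat.mul (Nat.mul 10000 (Nat.mul m m)) (Nat.pow 15129 n))

def stepH2 (go : Nat → Nat → Nat → Nat → Nat → Bool) (n W Bn U' G' V H gN t m Q' : Nat) : Bool :=
  cond (Nat.ble (Nat.add (Nat.mul 20779 (Nat.pow 1000000 n)) 1) Q') true
    (go U' G' (newU W Bn t m V H gN) (newG W Bn t m H) Q')

def stepH1 (go : Nat → Nat → Nat → Nat → Nat → Bool) (n W Bn U' G' V H Q gN t m : Nat) : Bool :=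
  stepH2 go n W Bn U' G' V H gN t m (newQ n m Q)

def stepH0 (go : Nat → Nat → Nat → Nat → Nat → Bool) (n W Bn U' G' V H Q gN t : Nat) : Bool :=
  stepH1 go n W Bn U' G' V H Q gN t (dm t)

/-- decode the next coefficient of the second square root, test it, and continue -/
def stepH (go : Nat → Nat → Nat → Nat → Nat → Bool) (n W Bn U' G' V H Q gB gN : Nat) : Bool :=
  stepH0 go n W Bn U' G' V H Q gN (tt gB V)

def stepG1 (go : Nat → Nat → Nat → Nat → Nat → Bool) (n W Bn U G V H Q EN t m : Nat) : Bool :=
  stepH go n W Bn (newU W Bn t m U G EN) (newG W Bn t m G) V H Q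
    (cond (Nat.ble t HB) m (Nat.sub BB m)) (cond (Nat.ble t HB) (Nat.sub W m) m)

def stepG0 (go : Nat → Nat → Nat → Nat → Nat → Bool) (n W Bn U G V H Q EN t : Nat) : Bool :=
  stepG1 go n W Bn U G V H Q EN t (dm t)

def stepG' (go : Nat → Nat → Nat → Nat → Nat → Bool) (n W U G V H Q EB EN : Nat) : Bool :=
  stepG0 go n W (Nat.mod (Nat.pow 2 (Nat.mul 352 n)) W) U G V H Q EN (tt EB U)

/-- decode the next coefficient of the first square root and continue -/
def stepG (go : Nat → Nat → Nat → Nat → Nat → Bool) (n r U G V H Q EB EN : Nat) : Bool :=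
  stepG' go n (Nat.pow 2 (Nat.mul 352 r)) U G V H Q EB EN

def tryP (go : Nat → Nat → Nat → Nat → Nat → Bool) (n r U G V H Q : Nat) : Bool :=
  stepG go n r U G V H Q (Nat.pow 8 n) (Nat.sub (Nat.pow 2 (Nat.mul 352 r)) (Nat.pow 8 n))

def tryM (go : Nat → Nat → Nat → Nat → Nat → Bool) (n r U G V H Q : Nat) : Bool :=
  stepG go n r U G V H Q (Nat.sub BB (Nat.pow 8 n)) (Nat.pow 8 n)

/-- Depth first search; an entry of the list is `(n, 114 - n, is p(n) odd?)`; the list `pre`
prescribes the first free signs (`true` for `+`). -/
noncomputable def dfs (l : List (Nat × Nat × Bool)) :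
    List Bool → Nat → Nat → Nat → Nat → Nat → Bool :=
  List.rec (motive := fun _ => List Bool → Nat → Nat → Nat → Nat → Nat → Bool)
    (fun _ _ _ _ _ _ => false)
    (fun x _ ih pre U G V H Q =>
      cond x.2.2
        (List.rec (motive := fun _ => Bool)
          (and (tryP (ih List.nil) x.1 x.2.1 U G V H Q) (tryM (ih List.nil) x.1 x.2.1 U G V H Q))
          (fun b pre' _ => cond b (tryP (ih pre') x.1 x.2.1 U G V H Q)
            (tryM (ih pre') x.1 x.2.1 U G V H Q)) pre)
        (stepG (ih pre) x.1 x.2.1 U G V H Q 0 0)) l

def mainList : List (Nat × Nat × Bool) :=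
  [(2, 112, false), (3, 111, true), (4, 110, true), (5, 109, true), (6, 108, true),
   (7, 107, true), (8, 106, false), (9, 105, false), (10, 104, false), (11, 103, false),
   (12, 102, true), (13, 101, true), (14, 100, true), (15, 99, false), (16, 98, true),
   (17, 97, true), (18, 96, true), (19, 95, false), (20, 94, true), (21, 93, false),
   (22, 92, false), (23, 91, true), (24, 90, true), (25, 89, false), (26, 88, false),
   (27, 87, false), (28, 86, false), (29, 85, true), (30, 84, false), (31, 83, false),
   (32, 82, true), (33, 81, true), (34, 80, false), (35, 79, true), (36, 78, true),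
   (37, 77, true), (38, 76, true), (39, 75, true), (40, 74, false), (41, 73, true),
   (42, 72, false), (43, 71, true), (44, 70, true), (45, 69, false), (46, 68, false),
   (47, 67, false), (48, 66, true), (49, 65, true), (50, 64, false), (51, 63, true),
   (52, 62, true), (53, 61, true), (54, 60, true), (55, 59, false), (56, 58, true),
   (57, 57, false), (58, 56, false), (59, 55, false), (60, 54, true), (61, 53, true),
   (62, 52, false), (63, 51, true), (64, 50, false), (65, 49, false), (66, 48, false),
   (67, 47, true), (68, 46, true), (69, 45, true), (70, 44, false), (71, 43, true),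
   (72, 42, true), (73, 41, true), (74, 40, false), (75, 39, false), (76, 38, true),
   (77, 37, true), (78, 36, false), (79, 35, false), (80, 34, false), (81, 33, true),
   (82, 32, true), (83, 31, true), (84, 30, false), (85, 29, true), (86, 28, false),
   (87, 27, true), (88, 26, true), (89, 25, true), (90, 24, true), (91, 23, true),
   (92, 22, true), (93, 21, true), (94, 20, false), (95, 19, true), (96, 18, false),
   (97, 17, false), (98, 16, false), (99, 15, true), (100, 14, false), (101, 13, false),
   (102, 12, true), (103, 11, false), (104, 10, true), (105, 9, true), (106, 8, false),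
   (107, 7, true), (108, 6, false), (109, 5, false), (110, 4, false), (111, 3, true),
   (112, 2, false), (113, 1, false)]

/-- the search below a given choice of the first free signs -/
noncomputable def test (pre : List Bool) : Bool :=
  dfs mainList pre 16 (Nat.sub (Nat.add (Nat.pow 2 (Nat.mul 352 112)) 1) (Nat.mul 4 BB)) 4
    (Nat.sub (Nat.add (Nat.pow 2 (Nat.mul 352 112)) 1) (Nat.mul 2 BB)) 10605160000

end Pool.Agent.Work.MP_6f8877_nt.SP
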