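import Mathlib
import Pool.Agent.Work.MP_6f8877_nt.Check

set_option autoImplicit false
set_option exponentiation.threshold 50000

namespace Pool.Agent.Work.MP_6f8877_nt.SP

/-! ### Packed prefixes of an integer square root -/

/-- base as an integer -/
noncomputable def Bz : ℤ := 2 ^ 352

theorem BB_cast : ((BB : ℕ) : ℤ) = Bz := by unfold BB Bz; push_cast

/-- packed prefix -/
noncomputable def pk (s : ℕ → ℤ) (n : ℕ) : ℤ := ∑ i ∈ Finset.range n, s i * Bz ^ i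

theorem pk_succ (s : ℕ → ℤ) (n : ℕ) : pk s (n + 1) = pk s n + s n * Bz ^ n := by
  unfold pk; rw [Finset.sum_range_succ]

def conv (s f : ℕ → ℤ) : Prop :=
  ∀ n, ∑ p ∈ Finset.HasAntidiagonal.antidiagonal n, s p.1 * s p.2 = f n

/-- the quotient `(P_n² - F_n) / B^n` exists and is congruent to `f_n - 2 s_n` modulo `B`. -/
theorem exists_quot {s f : ℕ → ℤ} (hc : conv s f) (h0 : s 0 = 1) {n : ℕ} (hn : 1 ≤ n) :
    ∃ Y k : ℤ, Bz ^ n * Y = pk s n ^ 2 - pk f n ∧ Y = f n - 2 * s n + k * Bz := by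
  obtain ⟨n, rfl⟩ := Nat.exists_eq_succ_of_ne_zero (Nat.one_le_iff_ne_zero.1 hn)
  let p : Polynomial ℤ := ∑ i ∈ Finset.range (n + 1), Polynomial.monomial i (s i)
  let q : Polynomial ℤ := ∑ i ∈ Finset.range (n + 1), Polynomial.monomial i (f i)
  have hpc : ∀ j, p.coeff j = if j < n + 1 then s j else 0 := by
    intro j
    simp only [p, Polynomial.finsetSum_coeff, Polynomial.coeff_monomial]
    rw [Finset.sum_ite_eq']
    simp
  have hqc : ∀ j, q.coeff j = if j < n + 1 then f j else 0 := by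
    intro j
    simp only [q, Polynomial.finsetSum_coeff, Polynomial.coeff_monomial]
    rw [Finset.sum_ite_eq']
    simp
  have hpe : p.eval Bz = pk s (n + 1) := by
    simp only [p, Polynomial.eval_finsetSum, Polynomial.eval_monomial, pk]
  have hqe : q.eval Bz = pk f (n + 1) := by
    simp only [q, Polynomial.eval_finsetSum, Polynomial.eval_monomial, pk]
  have hdvd : (Polynomial.X : Polynomial ℤ) ^ (n + 1) ∣ p ^ 2 - q := by
    rw [Polynomial.X_pow_dvd_iff]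
    intro j hj
    rw [Polynomial.coeff_sub, hqc, if_pos hj, pow_two, Polynomial.coeff_mul, ← hc j, sub_eq_zero]
    refine Finset.sum_congr rfl (fun x hx => ?_)
    have := Finset.HasAntidiagonal.mem_antidiagonal.1 hx
    rw [hpc, hpc, if_pos (by omega), if_pos (by omega)]
  obtain ⟨y, hy⟩ := hdvd
  have hy0 : y.coeff 0 = f (n + 1) - 2 * s (n + 1) := by
    have h1 : (p ^ 2 - q).coeff (n + 1) = y.coeff 0 := by
      rw [hy, Polynomial.coeff_X_pow_mul']
      simp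
    rw [← h1, Polynomial.coeff_sub, hqc, if_neg (by omega), pow_two, Polynomial.coeff_mul,
      ← hc (n + 1), Finset.Nat.sum_antidiagonal_eq_sum_range_succ_mk,
      Finset.Nat.sum_antidiagonal_eq_sum_range_succ_mk]
    simp only
    rw [Finset.sum_range_succ, Finset.sum_range_succ', Finset.sum_range_succ (n := n + 1),
      Finset.sum_range_succ' (n := n)]
    simp only [hpc]
    have h2 : ∑ x ∈ Finset.range n, ((if x + 1 < n + 1 then s (x + 1) else 0) *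
        if n + 1 - (x + 1) < n + 1 then s (n + 1 - (x + 1)) else 0)
        = ∑ x ∈ Finset.range n, s (x + 1) * s (n + 1 - (x + 1)) := by
      refine Finset.sum_congr rfl (fun x hx => ?_)
      rw [Finset.mem_range] at hx
      rw [if_pos (by omega), if_pos (by omega)]
    rw [h2]
    simp [h0]
    ring
  refine ⟨y.eval Bz, (y.eval Bz - y.coeff 0) / Bz, ?_, ?_⟩
  · rw [← hpe, ← hqe]
    have := congrArg (Polynomial.eval Bz) hy
    simpa using this.symm
  · have h3 : Bz ∣ y.eval Bz - y.coeff 0 := by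
      have := Polynomial.sub_dvd_eval_sub Bz 0 y
      rw [sub_zero, ← Polynomial.coeff_zero_eq_eval_zero] at this
      exact this
    rw [Int.ediv_mul_cancel h3, hy0]
    ring

theorem Bz_pos : 0 < Bz := by unfold Bz; positivity

/-- the quotient recursion -/
theorem quot_succ {s f : ℕ → ℤ} {n : ℕ} {Y Y' : ℤ} (h : Bz ^ n * Y = pk s n ^ 2 - pk f n)
    (h' : Bz ^ (n + 1) * Y' = pk s (n + 1) ^ 2 - pk f (n + 1)) :
    Bz * Y' = Y + 2 * s n * pk s n + s n ^ 2 * Bz ^ n - f n := by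
  have hB : Bz ^ n ≠ 0 := pow_ne_zero _ Bz_pos.ne'
  apply mul_left_cancel₀ hB
  rw [pk_succ, pk_succ] at h'
  calc Bz ^ n * (Bz * Y') = Bz ^ (n + 1) * Y' := by ring
    _ = _ := h'
    _ = (pk s n ^ 2 - pk f n) + Bz ^ n * (2 * s n * pk s n + s n ^ 2 * Bz ^ n - f n) := by ring
    _ = _ := by rw [← h]; ring

/-! ### Decoding -/

theorem decode {e : ℤ} {t : ℕ} (ht : t < BB) {k : ℤ} (hk : (t : ℤ) = 2 * e + k * Bz)
    (he : |e| < 2 ^ 350) :
    ((Nat.ble t HB = true ∧ (t : ℤ) = 2 * e ∧ 0 ≤ e) ∨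
      (Nat.ble t HB = false ∧ (t : ℤ) = 2 * e + Bz ∧ e < 0)) := by
  have hBz : Bz = 4 * 2 ^ 350 := by unfold Bz; norm_num
  have hHB : (HB : ℤ) = 2 * 2 ^ 350 := by unfold HB; norm_num
  have ht' : (t : ℤ) < Bz := by rw [← BB_cast]; exact_mod_cast ht
  have ht0 : (0 : ℤ) ≤ t := Int.natCast_nonneg t
  rw [abs_lt] at he
  obtain ⟨he1, he2⟩ := he
  set A : ℤ := 2 ^ 350 with hA
  have hA0 : 0 < A := by positivity
  rcases le_or_gt 0 e with h | h
  · left
    have hk0 : k = 0 := by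
      have h1 : k * Bz < 1 * Bz := by linarith
      have h2 : (-1) * Bz < k * Bz := by nlinarith
      have h3 := lt_of_mul_lt_mul_right h1 Bz_pos.le
      have h4 := lt_of_mul_lt_mul_right h2 Bz_pos.le
      omega
    rw [hk0, zero_mul, add_zero] at hk
    refine ⟨?_, hk, h⟩
    rw [Nat.ble_eq]
    have : (t : ℤ) ≤ HB := by rw [hHB, hk]; linarith
    exact_mod_cast this
  · right
    have hk0 : k = 1 := by
      have h1 : k * Bz < 2 * Bz := by nlinarith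
      have h2 : 0 * Bz < k * Bz := by nlinarith
      have h3 := lt_of_mul_lt_mul_right h1 Bz_pos.le
      have h4 := lt_of_mul_lt_mul_right h2 Bz_pos.le
      omega
    rw [hk0, one_mul] at hk
    refine ⟨?_, hk, h⟩
    rw [Bool.eq_false_iff, Ne, Nat.ble_eq, not_le]
    have : (HB : ℤ) < t := by rw [hHB, hk, hBz]; linarith
    exact_mod_cast this

/-- `x` represents the integer `Y` modulo `M`. -/
def RepZ (x : ℕ) (Y M : ℤ) : Prop := ∃ k : ℤ, (x : ℤ) = Y + k * M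

theorem RepZ.mod {x : ℕ} {Y : ℤ} {M : ℕ} (h : RepZ x Y M) : RepZ (x % M) Y M := by
  obtain ⟨k, hk⟩ := h
  refine ⟨k - (x / M : ℕ), ?_⟩
  have := Nat.div_add_mod x M
  have h2 : (M : ℤ) * ((x / M : ℕ) : ℤ) + ((x % M : ℕ) : ℤ) = x := by exact_mod_cast this
  linear_combination hk + h2

theorem RepZ.div {x : ℕ} {Y : ℤ} {B : ℕ} {r : ℕ} (hB : 0 < B)
    (h : RepZ x (B * Y) ((B : ℤ) ^ (r + 1))) :
    RepZ (x % B ^ (r + 1) / B) Y ((B : ℤ) ^ r) := by
  have h' : RepZ x (B * Y) ((B ^ (r + 1) : ℕ) : ℤ) := by push_cast; exact h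
  obtain ⟨k, hk⟩ := h'.mod
  refine ⟨k, ?_⟩
  push_cast at hk ⊢
  have h3 : ((x : ℤ) % (B : ℤ) ^ (r + 1)) = B * (Y + k * (B : ℤ) ^ r) := by
    rw [hk]; ring
  rw [h3, Int.mul_ediv_cancel_left _ (by exact_mod_cast hB.ne')]


theorem BB_cast_pow (n : ℕ) : ((Nat.pow 2 (Nat.mul 352 n) : ℕ) : ℤ) = Bz ^ n := by
  rw [Nat.pow_eq, Nat.mul_eq, Nat.cast_pow, pow_mul, Bz, Nat.cast_ofNat]

theorem stepG_eq (go : Nat → Nat → Nat → Nat → Nat → Bool) (n r U G V H Q EB EN : Nat) :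
    stepG go n r U G V H Q EB EN =
      stepH go n (Nat.pow 2 (Nat.mul 352 r))
        (Nat.mod (Nat.pow 2 (Nat.mul 352 n)) (Nat.pow 2 (Nat.mul 352 r)))
        (newU (Nat.pow 2 (Nat.mul 352 r))
          (Nat.mod (Nat.pow 2 (Nat.mul 352 n)) (Nat.pow 2 (Nat.mul 352 r)))
          (tt EB U) (dm (tt EB U)) U G EN)
        (newG (Nat.pow 2 (Nat.mul 352 r))
          (Nat.mod (Nat.pow 2 (Nat.mul 352 n)) (Nat.pow 2 (Nat.mul 352 r)))
          (tt EB U) (dm (tt EB U)) G) V H Q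
        (cond (Nat.ble (tt EB U) HB) (dm (tt EB U)) (Nat.sub BB (dm (tt EB U))))
        (cond (Nat.ble (tt EB U) HB) (Nat.sub (Nat.pow 2 (Nat.mul 352 r)) (dm (tt EB U)))
          (dm (tt EB U))) := rfl

theorem stepH_eq (go : Nat → Nat → Nat → Nat → Nat → Bool) (n W Bn U' G' V H Q gB gN : Nat) :
    stepH go n W Bn U' G' V H Q gB gN =
      cond (Nat.ble (Nat.add (Nat.mul 20779 (Nat.pow 1000000 n)) 1) (newQ n (dm (tt gB V)) Q)) true
        (go U' G' (newU W Bn (tt gB V) (dm (tt gB V)) V H gN)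
          (newG W Bn (tt gB V) (dm (tt gB V)) H) (newQ n (dm (tt gB V)) Q)) := rfl

theorem step {s f : ℕ → ℤ} (hc : conv s f) (h0 : s 0 = 1) {n r : ℕ} (hn : 1 ≤ n)
    {U G W Bn : ℕ} (hW : W = BB ^ (r + 1)) (hBn : RepZ Bn (Bz ^ n) (Bz ^ (r + 1)))
    (hmBn : ∀ m : ℕ, m ≤ BB → m * Bn ≤ W)
    (hU : ∃ Y, Bz ^ n * Y = pk s n ^ 2 - pk f n ∧ RepZ U Y (Bz ^ (r + 1)))
    (hG : G ≤ W) (hG' : RepZ G (pk s n) (Bz ^ (r + 1))) (hs : |s n| < 2 ^ 350) {EB EN : ℕ}
    (hEB : RepZ EB (f n) Bz) (hEN : RepZ EN (-f n) (Bz ^ (r + 1))) :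
    ((Nat.ble (tt EB U) HB = true ∧ (dm (tt EB U) : ℤ) = s n) ∨
      (Nat.ble (tt EB U) HB = false ∧ (dm (tt EB U) : ℤ) = -s n)) ∧
    (∃ Y', Bz ^ (n + 1) * Y' = pk s (n + 1) ^ 2 - pk f (n + 1) ∧
      RepZ (newU W Bn (tt EB U) (dm (tt EB U)) U G EN) Y' (Bz ^ r)) ∧
    newG W Bn (tt EB U) (dm (tt EB U)) G ≤ BB ^ r ∧
    RepZ (newG W Bn (tt EB U) (dm (tt EB U)) G) (pk s (n + 1)) (Bz ^ r) := by
  have hBpos := Bz_pos
  have hWz : (W : ℤ) = Bz ^ (r + 1) := by rw [hW, Nat.cast_pow, BB_cast]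
  obtain ⟨Y, hY, k1, hk1⟩ := hU
  obtain ⟨Y0, k0, hY0, hk0⟩ := exists_quot hc h0 hn
  have hYY : Y = Y0 := by
    have hB : Bz ^ n ≠ 0 := pow_ne_zero _ Bz_pos.ne'
    apply mul_left_cancel₀ hB
    rw [hY, hY0]
  subst hYY
  obtain ⟨k2, hk2⟩ := hG'
  obtain ⟨k3, hk3⟩ := hEB
  obtain ⟨k4, hk4⟩ := hEN
  obtain ⟨k7, hk7⟩ := hBn
  obtain ⟨Y', k5, hY', _⟩ := exists_quot hc h0 (n := n + 1) (by omega)
  have hrec := quot_succ hY hY'
  have hBBpos : 0 < BB := by unfold BB; positivity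
  -- the decoded value
  have ht1 : tt EB U < BB := Nat.mod_lt _ hBBpos
  have ht2 : ∃ k : ℤ, (tt EB U : ℤ) = 2 * s n + k * Bz := by
    have h1 : U % BB < BB := Nat.mod_lt _ hBBpos
    have h2 := Nat.div_add_mod (EB + (BB - U % BB)) BB
    have h3 := Nat.div_add_mod U BB
    have h4 : tt EB U = (EB + (BB - U % BB)) % BB := rfl
    have h2' : (BB : ℤ) * (((EB + (BB - U % BB)) / BB : ℕ) : ℤ) + ((tt EB U : ℕ) : ℤ)
        = EB + (BB - ((U % BB : ℕ) : ℤ)) := by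
      rw [h4]
      have : (((EB + (BB - U % BB) : ℕ)) : ℤ) = EB + (BB - ((U % BB : ℕ) : ℤ)) := by
        rw [Nat.cast_add, Nat.cast_sub h1.le]
      rw [← this]
      exact_mod_cast h2
    have h3' : (BB : ℤ) * ((U / BB : ℕ) : ℤ) + ((U % BB : ℕ) : ℤ) = U := by exact_mod_cast h3
    rw [BB_cast] at h2' h3'
    refine ⟨k3 - k0 - k1 * Bz ^ r + 1 + ((U / BB : ℕ) : ℤ)
      - (((EB + (BB - U % BB)) / BB : ℕ) : ℤ), ?_⟩
    have e1 : Bz ^ (r + 1) = Bz * Bz ^ r := by ring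
    rw [e1] at hk1
    linear_combination h2' - h3' + hk3 - hk1 - hk0
  obtain ⟨k6, hk6⟩ := ht2
  have hdec := decode ht1 hk6 hs
  have hcases : (Nat.ble (tt EB U) HB = true ∧ (dm (tt EB U) : ℤ) = s n) ∨
      (Nat.ble (tt EB U) HB = false ∧ (dm (tt EB U) : ℤ) = -s n) := by
    rcases hdec with ⟨h1, h2, h3⟩ | ⟨h1, h2, h3⟩
    · left
      refine ⟨h1, ?_⟩
      unfold dm
      rw [h1]
      show (((tt EB U) / 2 : ℕ) : ℤ) = s n
      omega
    · right
      refine ⟨h1, ?_⟩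
      unfold dm
      rw [h1]
      show (((BB - tt EB U) / 2 : ℕ) : ℤ) = -s n
      have h5 : ((BB - tt EB U : ℕ) : ℤ) = Bz - (tt EB U : ℤ) := by
        rw [Nat.cast_sub ht1.le, BB_cast]
      omega
  set m := dm (tt EB U) with hm
  refine ⟨hcases, ⟨Y', hY', ?_⟩, ?_⟩
  · -- new U
    have hX : RepZ ((U + 2 * m * cond (Nat.ble (tt EB U) HB) G (W - G))
        + (m * m * Bn + EN)) ((BB : ℤ) * Y') ((BB : ℤ) ^ (r + 1)) := by
      rw [BB_cast]
      rcases hcases with ⟨h1, h2⟩ | ⟨h1, h2⟩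
      · rw [h1]
        refine ⟨k1 + 2 * s n * k2 + s n ^ 2 * k7 + k4, ?_⟩
        simp only [cond_true]
        rw [Nat.cast_add, Nat.cast_add, Nat.cast_add, Nat.cast_mul, Nat.cast_mul, Nat.cast_mul,
          Nat.cast_mul, hk7, h2, hk1, hk2, hk4, hrec]
        push_cast
        ring
      · rw [h1]
        refine ⟨k1 + 2 * s n * k2 - 2 * s n + s n ^ 2 * k7 + k4, ?_⟩
        simp only [cond_false]
        rw [Nat.cast_add, Nat.cast_add, Nat.cast_add, Nat.cast_mul, Nat.cast_mul, Nat.cast_mul,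
          Nat.cast_mul, Nat.cast_sub hG, hk7, h2, hk1, hk2, hk4, hrec, hWz]
        push_cast
        ring
    have hd := RepZ.div hBBpos hX
    rw [BB_cast] at hd
    have he : newU W Bn (tt EB U) m U G EN
        = ((U + 2 * m * cond (Nat.ble (tt EB U) HB) G (W - G))
        + (m * m * Bn + EN)) % BB ^ (r + 1) / BB := by
      rw [← hW]; rfl
    rw [he]
    exact hd
  · have hpk : pk s (n + 1) = pk s n + s n * Bz ^ n := pk_succ s n
    have hdiv : W / BB = BB ^ r := by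
      rw [hW, pow_succ, Nat.mul_div_cancel _ hBBpos]
    have he : newG W Bn (tt EB U) m G = (G + cond (Nat.ble (tt EB U) HB) (m * Bn) (W - m * Bn))
        % BB ^ r := by
      rw [← hdiv]; rfl
    rw [he]
    refine ⟨(Nat.mod_lt _ (by positivity)).le, ?_⟩
    have hmB : m ≤ BB := by
      have h5 : Bz = 4 * 2 ^ 350 := by unfold Bz; norm_num
      have h7 := abs_lt.1 hs
      have h8 : (m : ℤ) ≤ ((BB : ℕ) : ℤ) := by
        rw [BB_cast, h5]
        rcases hcases with ⟨_, h2⟩ | ⟨_, h2⟩ <;> rw [h2] <;> linarith [h7.1, h7.2]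
      exact_mod_cast h8
    have hX : RepZ (G + cond (Nat.ble (tt EB U) HB) (m * Bn) (W - m * Bn))
        (pk s (n + 1)) ((BB ^ r : ℕ) : ℤ) := by
      have e1 : Bz ^ (r + 1) = Bz * Bz ^ r := by ring
      rw [Nat.cast_pow, BB_cast]
      rcases hcases with ⟨h1, h2⟩ | ⟨h1, h2⟩
      · rw [h1]
        refine ⟨k2 * Bz + s n * k7 * Bz, ?_⟩
        simp only [cond_true]
        rw [Nat.cast_add, Nat.cast_mul, hk7, h2, hk2, hpk, e1]
        ring
      · rw [h1]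
        refine ⟨k2 * Bz + Bz + s n * k7 * Bz, ?_⟩
        simp only [cond_false]
        rw [Nat.cast_add, Nat.cast_sub (hmBn m hmB), Nat.cast_mul, hWz, hk7, h2, hk2, hpk, e1]
        ring
    have := hX.mod
    rw [Nat.cast_pow, BB_cast] at this
    exact this

/-- the reduced power of the base -/
theorem Bn_spec (n r : ℕ) :
    RepZ (Nat.mod (Nat.pow 2 (Nat.mul 352 n)) (Nat.pow 2 (Nat.mul 352 (r + 1)))) (Bz ^ n)
      (Bz ^ (r + 1)) ∧
    ∀ m : ℕ, m ≤ BB → m * Nat.mod (Nat.pow 2 (Nat.mul 352 n)) (Nat.pow 2 (Nat.mul 352 (r + 1)))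
      ≤ Nat.pow 2 (Nat.mul 352 (r + 1)) := by
  have e : ∀ k, Nat.pow 2 (Nat.mul 352 k) = BB ^ k := by
    intro k; rw [Nat.pow_eq, Nat.mul_eq]; unfold BB; rw [← pow_mul]
  rw [e, e]
  have hBBpos : 0 < BB := by unfold BB; positivity
  constructor
  · have h1 : RepZ (BB ^ n) (Bz ^ n) ((BB ^ (r + 1) : ℕ) : ℤ) :=
      ⟨0, by rw [Nat.cast_pow, BB_cast]; ring⟩
    have := h1.mod
    rw [Nat.cast_pow, BB_cast] at this
    exact this
  · intro m hm
    show m * (BB ^ n % BB ^ (r + 1)) ≤ BB ^ (r + 1)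
    rcases Nat.lt_or_ge n (r + 1) with h | h
    · rw [Nat.mod_eq_of_lt (Nat.pow_lt_pow_right (by unfold BB; norm_num) h)]
      calc m * BB ^ n ≤ BB * BB ^ n := Nat.mul_le_mul_right _ hm
        _ = BB ^ (n + 1) := by ring
        _ ≤ BB ^ (r + 1) := Nat.pow_le_pow_right hBBpos (by omega)
    · have : BB ^ (r + 1) ∣ BB ^ n := pow_dvd_pow _ h
      rw [Nat.mod_eq_zero_of_dvd this]
      simp

end Pool.Agent.Work.MP_6f8877_nt.SP
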