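import Mathlib
import Pool.Agent.Work.MP_6f8877_nt.Sound
import Pool.Agent.Work.MP_6f8877_nt.Parity

set_option autoImplicit false
set_option exponentiation.threshold 50000

namespace Pool.Agent.Work.MP_6f8877_nt.SP

/-- the weighted partial sums of squares, scaled to integers -/
def SQ (η : ℕ → ℤ) : ℕ → ℤ
  | 0 => 0
  | n + 1 => SQ η n * 1000000 + 10000 * η n ^ 2 * 15129 ^ n

/-- All that the search needs to know about the true path. -/
structure Valid (a g η : ℕ → ℤ) : Prop where
  cg : conv g (fun n => 8 ^ n * a n)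
  cη : conv η g
  a0 : a 0 = 1
  a1 : a 1 = -1
  g0 : g 0 = 1
  η0 : η 0 = 1
  az : ∀ n, n < 114 → Nat.testBit PAR n = false → a n = 0
  ao : ∀ n, n < 114 → Nat.testBit PAR n = true → a n = 1 ∨ a n = -1
  bg : ∀ n, n < 114 → |g n| < 2 ^ 350
  bη : ∀ n, n < 114 → |η n| < 2 ^ 350
  sq : ∀ n, n < 114 → SQ η (n + 1) ≤ 20779 * 1000000 ^ n

structure Inv (a g η : ℕ → ℤ) (n r U G V H Q : ℕ) : Prop where
  hU : ∃ Y, Bz ^ n * Y = pk g n ^ 2 - pk (fun n => 8 ^ n * a n) n ∧ RepZ U Y (Bz ^ r)
  hG : G ≤ BB ^ r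
  hG' : RepZ G (pk g n) (Bz ^ r)
  hV : ∃ Y, Bz ^ n * Y = pk η n ^ 2 - pk g n ∧ RepZ V Y (Bz ^ r)
  hH : H ≤ BB ^ r
  hH' : RepZ H (pk η n) (Bz ^ r)
  hQ : (Q : ℤ) = SQ η n

theorem le_of_abs {e : ℤ} {m r : ℕ} (he : |e| < 2 ^ 350) (hm : (m : ℤ) = e ∨ (m : ℤ) = -e) :
    m ≤ Nat.pow 2 (Nat.mul 352 (r + 1)) := by
  have h1 : (m : ℤ) ≤ ((Nat.pow 2 (Nat.mul 352 (r + 1)) : ℕ) : ℤ) := by
    rw [BB_cast_pow]
    have h5 : Bz = 4 * 2 ^ 350 := by unfold Bz; norm_num
    have h6 : Bz ≤ Bz ^ (r + 1) := by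
      calc Bz = Bz ^ 1 := (pow_one _).symm
        _ ≤ Bz ^ (r + 1) := pow_le_pow_right₀ (by have := Bz_pos; omega) (by omega)
    have h7 := abs_lt.1 he
    rcases hm with h | h <;> rw [h] <;> linarith [h7.1, h7.2]
  exact_mod_cast h1

theorem branch {a g η : ℕ → ℤ} (hv : Valid a g η) {n r : ℕ} (hn : 1 ≤ n)
    (hnr : n + (r + 1) = 114) {U G V H Q : ℕ} (hI : Inv a g η n (r + 1) U G V H Q)
    {EB EN : ℕ} (hEB : RepZ EB (8 ^ n * a n) Bz) (hEN : RepZ EN (-(8 ^ n * a n)) (Bz ^ (r + 1)))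
    {go : Nat → Nat → Nat → Nat → Nat → Bool}
    (h : stepG go n (r + 1) U G V H Q EB EN = true) :
    ∃ U' G' V' H' Q', Inv a g η (n + 1) r U' G' V' H' Q' ∧ go U' G' V' H' Q' = true := by
  have hbg := hv.bg n (by omega)
  have hbη := hv.bη n (by omega)
  rw [stepG_eq, stepH_eq] at h
  obtain ⟨hBn1, hBn2⟩ := Bn_spec n r
  have hWz : ((Nat.pow 2 (Nat.mul 352 (r + 1)) : ℕ) : ℤ) = Bz ^ (r + 1) := BB_cast_pow _
  have hW : Nat.pow 2 (Nat.mul 352 (r + 1)) = BB ^ (r + 1) := by
    rw [Nat.pow_eq, Nat.mul_eq]; unfold BB; rw [← pow_mul]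
  set W := Nat.pow 2 (Nat.mul 352 (r + 1)) with hWdef
  set Bn := Nat.mod (Nat.pow 2 (Nat.mul 352 n)) W with hBndef
  obtain ⟨hc, hU', hG1, hG1'⟩ := step hv.cg hv.g0 hn hW hBn1 hBn2 hI.hU (by rw [hW]; exact hI.hG)
    hI.hG' hbg hEB hEN
  set t := tt EB U with ht
  set m := dm t with hm
  have hgB : RepZ (cond (Nat.ble t HB) m (Nat.sub BB m)) (g n) Bz := by
    rcases hc with ⟨h1, h2⟩ | ⟨h1, h2⟩
    · rw [h1]; exact ⟨0, by simp only [cond_true]; rw [h2]; ring⟩
    · rw [h1]
      refine ⟨1, ?_⟩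
      have hle : m ≤ BB := by
        have := le_of_abs (r := 0) hbg (Or.inr h2)
        simpa [BB] using this
      simp only [cond_false]
      rw [Nat.sub_eq, Nat.cast_sub hle, BB_cast, h2]; ring
  have hgN : RepZ (cond (Nat.ble t HB) (Nat.sub W m) m) (-g n) (Bz ^ (r + 1)) := by
    rcases hc with ⟨h1, h2⟩ | ⟨h1, h2⟩
    · rw [h1]
      refine ⟨1, ?_⟩
      have hle : m ≤ W := le_of_abs (r := r) hbg (Or.inl h2)
      simp only [cond_true]
      rw [Nat.sub_eq, Nat.cast_sub hle, hWz, h2]; ring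
    · rw [h1]
      exact ⟨0, by simp only [cond_false]; rw [h2]; ring⟩
  obtain ⟨hc2, hV', hH1, hH1'⟩ := step hv.cη hv.η0 hn hW hBn1 hBn2 hI.hV (by rw [hW]; exact hI.hH)
    hI.hH' hbη hgB hgN
  set gB := cond (Nat.ble t HB) m (Nat.sub BB m) with hgBdef
  set gN := cond (Nat.ble t HB) (Nat.sub W m) m with hgNdef
  have hQ' : ((newQ n (dm (tt gB V)) Q : ℕ) : ℤ) = SQ η (n + 1) := by
    have h1 : newQ n (dm (tt gB V)) Q = Q * 1000000
        + 10000 * (dm (tt gB V) * dm (tt gB V)) * 15129 ^ n := rfl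
    rw [h1]
    have h2 : (dm (tt gB V) : ℤ) * (dm (tt gB V) : ℤ) = η n ^ 2 := by
      rcases hc2 with ⟨_, h2⟩ | ⟨_, h2⟩ <;> rw [h2] <;> ring
    push_cast
    rw [h2, hI.hQ]
    rfl
  have hnot : Nat.ble (Nat.add (Nat.mul 20779 (Nat.pow 1000000 n)) 1)
      (newQ n (dm (tt gB V)) Q) = false := by
    rw [Bool.eq_false_iff, Ne, Nat.ble_eq, not_le]
    have h1 := hv.sq n (by omega)
    rw [← hQ'] at h1
    have h2 : newQ n (dm (tt gB V)) Q ≤ 20779 * 1000000 ^ n := by exact_mod_cast h1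
    show _ < 20779 * 1000000 ^ n + 1
    omega
  rw [hnot] at h
  exact ⟨_, _, _, _, _, ⟨hU', hG1, hG1', hV', hH1, hH1', hQ'⟩, h⟩

def lok : List (Nat × Nat × Bool) → Nat → Bool
  | [], _ => true
  | x :: l, n => (x.1 == n) && (n + x.2.1 == 114) && (Nat.ble 1 x.2.1)
      && (x.2.2 == Nat.testBit PAR n) && lok l (n + 1)

theorem lok_main : lok mainList 2 = true := by decide +kernel

/-- the true path starts with the prescribed signs -/
def Pre (a : ℕ → ℤ) : List (Nat × Nat × Bool) → List Bool → Prop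
  | _, [] => True
  | [], _ :: _ => True
  | x :: l, b :: p => if x.2.2 then ((b = true ↔ a x.1 = 1) ∧ Pre a l p) else Pre a l (b :: p)

theorem pre_nil (a : ℕ → ℤ) (l : List (Nat × Nat × Bool)) : Pre a l [] := by
  cases l <;> trivial

theorem Pre.ext {a : ℕ → ℤ} {l : List (Nat × Nat × Bool)} {pre : List Bool} (h : Pre a l pre) :
    Pre a l (pre ++ [true]) ∨ Pre a l (pre ++ [false]) := by
  induction l generalizing pre with
  | nil => left; cases pre <;> trivial
  | cons x l ih =>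
    cases pre with
    | nil =>
      by_cases hx : x.2.2 = true
      · by_cases ha : a x.1 = 1
        · left
          show Pre a (x :: l) [true]
          simp only [Pre, hx, if_true]
          exact ⟨by simp [ha], trivial⟩
        · right
          show Pre a (x :: l) [false]
          simp only [Pre, hx, if_true]
          exact ⟨by simp [ha], trivial⟩
      · rcases ih (pre_nil a l) with h1 | h1
        · left
          show Pre a (x :: l) [true]
          simp only [Pre, hx]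
          simpa using h1
        · right
          show Pre a (x :: l) [false]
          simp only [Pre, hx]
          simpa using h1
    | cons b pre =>
      by_cases hx : x.2.2 = true
      · simp only [Pre, hx, if_true] at h
        rcases ih h.2 with h1 | h1
        · left
          simp only [List.cons_append, Pre, hx, if_true]
          exact ⟨h.1, h1⟩
        · right
          simp only [List.cons_append, Pre, hx, if_true]
          exact ⟨h.1, h1⟩
      · simp only [Pre, hx] at h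
        rcases ih h with h1 | h1
        · left
          simp only [List.cons_append, Pre, hx]
          exact h1
        · right
          simp only [List.cons_append, Pre, hx]
          exact h1

theorem dfs_cons (x : Nat × Nat × Bool) (l : List (Nat × Nat × Bool)) (pre : List Bool)
    (U G V H Q : ℕ) : dfs (x :: l) pre U G V H Q =
      cond x.2.2
        (List.rec (motive := fun _ => Bool)
          (and (tryP (dfs l List.nil) x.1 x.2.1 U G V H Q) (tryM (dfs l List.nil) x.1 x.2.1 U G V H Q))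
          (fun b pre' _ => cond b (tryP (dfs l pre') x.1 x.2.1 U G V H Q)
            (tryM (dfs l pre') x.1 x.2.1 U G V H Q)) pre)
        (stepG (dfs l pre) x.1 x.2.1 U G V H Q 0 0) := rfl

theorem dfs_sound {a g η : ℕ → ℤ} (hv : Valid a g η) (l : List (Nat × Nat × Bool)) :
    ∀ (n : ℕ), lok l n = true → 2 ≤ n → ∀ (pre : List Bool), Pre a l pre →
    ∀ U G V H Q : ℕ, Inv a g η n (114 - n) U G V H Q → dfs l pre U G V H Q = true → False := by
  induction l with
  | nil =>
    intro n _ _ pre _ U G V H Q _ h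
    exact Bool.false_ne_true h
  | cons x l ih =>
    intro n hl hn pre hpre U G V H Q hI h
    simp only [lok, Bool.and_eq_true, beq_iff_eq, Nat.ble_eq] at hl
    obtain ⟨⟨⟨⟨hx1, hx2⟩, hx3⟩, hx4⟩, hl'⟩ := hl
    obtain ⟨r, hr⟩ : ∃ r, x.2.1 = r + 1 := ⟨x.2.1 - 1, by omega⟩
    rw [hr] at hx2
    have hr2 : 114 - n = r + 1 := by omega
    have hr3 : 114 - (n + 1) = r := by omega
    rw [hr2] at hI
    have ih' := ih (n + 1) hl' (by omega)
    rw [hr3] at ih'
    rw [dfs_cons, hx1, hr] at h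
    -- the three kinds of branches
    have key0 : a n = 0 → ∀ p, Pre a l p → stepG (dfs l p) n (r + 1) U G V H Q 0 0 = true → False := by
      intro ha p hp hs
      obtain ⟨U', G', V', H', Q', hI', h'⟩ := branch hv (by omega) hx2 hI (EB := 0) (EN := 0)
        ⟨0, by simp [ha]⟩ ⟨0, by simp [ha]⟩ hs
      exact ih' p hp _ _ _ _ _ hI' h'
    have h8 : ∀ k, k < 114 → (8 : ℕ) ^ k ≤ BB := by
      intro k hk
      have : (8 : ℕ) ^ k = 2 ^ (3 * k) := by rw [pow_mul]; norm_num
      rw [this]; unfold BB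
      exact Nat.pow_le_pow_right (by norm_num) (by omega)
    have hBr : BB ≤ Nat.pow 2 (Nat.mul 352 (r + 1)) := by
      unfold BB
      exact Nat.pow_le_pow_right (by norm_num) (by rw [Nat.mul_eq]; omega)
    have keyP : a n = 1 → ∀ p, Pre a l p → tryP (dfs l p) n (r + 1) U G V H Q = true → False := by
      intro ha p hp hs
      obtain ⟨U', G', V', H', Q', hI', h'⟩ := branch hv (by omega) hx2 hI
        (EB := Nat.pow 8 n) (EN := Nat.sub (Nat.pow 2 (Nat.mul 352 (r + 1))) (Nat.pow 8 n))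
        ⟨0, by rw [ha, Nat.pow_eq]; push_cast; ring⟩
        ⟨1, by
          have h9 : Nat.pow 8 n ≤ Nat.pow 2 (Nat.mul 352 (r + 1)) := (h8 n (by omega)).trans hBr
          rw [Nat.sub_eq, Nat.cast_sub h9, BB_cast_pow, ha, Nat.pow_eq]
          push_cast; ring⟩ hs
      exact ih' p hp _ _ _ _ _ hI' h'
    have keyM : a n = -1 → ∀ p, Pre a l p → tryM (dfs l p) n (r + 1) U G V H Q = true → False := by
      intro ha p hp hs
      obtain ⟨U', G', V', H', Q', hI', h'⟩ := branch hv (by omega) hx2 hI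
        (EB := Nat.sub BB (Nat.pow 8 n)) (EN := Nat.pow 8 n)
        ⟨1, by
          have h9 : Nat.pow 8 n ≤ BB := h8 n (by omega)
          rw [Nat.sub_eq, Nat.cast_sub h9, BB_cast, ha, Nat.pow_eq]
          push_cast; ring⟩
        ⟨0, by rw [ha, Nat.pow_eq]; push_cast; ring⟩ hs
      exact ih' p hp _ _ _ _ _ hI' h'
    cases hb : x.2.2 with
    | false =>
      rw [hb] at h hx4
      rw [cond_false] at h
      have ha := hv.az n (by omega) hx4.symm
      have hp : Pre a l pre := by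
        cases pre with
        | nil => exact pre_nil a l
        | cons b pre =>
          simp only [Pre, hb] at hpre
          simpa using hpre
      exact key0 ha pre hp h
    | true =>
      rw [hb] at h hx4
      rw [cond_true] at h
      have ha := hv.ao n (by omega) hx4.symm
      cases pre with
      | nil =>
        have h' := (Bool.and_eq_true _ _).mp h
        rcases ha with ha | ha
        · exact keyP ha _ (pre_nil a l) h'.1
        · exact keyM ha _ (pre_nil a l) h'.2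
      | cons b pre =>
        simp only [Pre, hb, if_true] at hpre
        obtain ⟨hp1, hp2⟩ := hpre
        rw [hx1] at hp1
        cases b with
        | true =>
          exact keyP (hp1.1 rfl) _ hp2 ((cond_true _ _).symm.trans h)
        | false =>
          rcases ha with ha | ha
          · exact absurd (hp1.2 ha) Bool.false_ne_true
          · exact keyM ha _ hp2 ((cond_false _ _).symm.trans h)

theorem init_inv {a g η : ℕ → ℤ} (hv : Valid a g η) {W : ℕ} (hW : W = BB ^ 112)
    (hle4 : 4 * BB ≤ W) :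
    Inv a g η 2 112 16 (Nat.sub (Nat.add W 1) (Nat.mul 4 BB)) 4
      (Nat.sub (Nat.add W 1) (Nat.mul 2 BB)) 10605160000 := by
  have hg1 : g 1 = -4 := by
    have := hv.cg 1
    rw [Finset.Nat.sum_antidiagonal_eq_sum_range_succ_mk] at this
    simp only [Finset.sum_range_succ, Finset.sum_range_zero, hv.g0, hv.a1] at this
    norm_num at this
    linarith
  have hη1 : η 1 = -2 := by
    have := hv.cη 1
    rw [Finset.Nat.sum_antidiagonal_eq_sum_range_succ_mk] at this
    simp only [Finset.sum_range_succ, Finset.sum_range_zero, hv.η0, hg1] at this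
    norm_num at this
    linarith
  have hpf : pk (fun n => 8 ^ n * a n) 2 = 1 - 8 * Bz := by
    simp [pk, Finset.sum_range_succ, hv.a0, hv.a1]; ring
  have hpg : pk g 2 = 1 - 4 * Bz := by
    simp [pk, Finset.sum_range_succ, hv.g0, hg1]; ring
  have hpη : pk η 2 = 1 - 2 * Bz := by
    simp [pk, Finset.sum_range_succ, hv.η0, hη1]; ring
  have hWz : (W : ℤ) = Bz ^ 112 := by rw [hW, Nat.cast_pow, BB_cast]
  have hBB : 0 < BB := by unfold BB; positivity
  refine ⟨⟨16, ?_, ⟨0, by simp⟩⟩, ?_, ⟨1, ?_⟩, ⟨4, ?_, ⟨0, by simp⟩⟩, ?_, ⟨1, ?_⟩, ?_⟩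
  · rw [hpf, hpg]; ring
  · rw [← hW, Nat.sub_eq, Nat.add_eq, Nat.mul_eq]
    omega
  · rw [← hWz, Nat.sub_eq, Nat.add_eq, Nat.mul_eq, Nat.cast_sub (by omega), hpg]
    push_cast
    rw [BB_cast]; ring
  · rw [hpη, hpg]; ring
  · rw [← hW, Nat.sub_eq, Nat.add_eq, Nat.mul_eq]
    omega
  · rw [← hWz, Nat.sub_eq, Nat.add_eq, Nat.mul_eq, Nat.cast_sub (by omega), hpη]
    push_cast
    rw [BB_cast]; ring
  · simp [SQ, hv.η0, hη1]

theorem four_BB_le : 4 * BB ≤ Nat.pow 2 (Nat.mul 352 112) := by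
  unfold BB
  rw [Nat.pow_eq, Nat.mul_eq]
  calc 4 * 2 ^ 352 = 2 ^ 354 := by norm_num
    _ ≤ 2 ^ (352 * 112) := Nat.pow_le_pow_right (by norm_num) (by norm_num)

theorem pow_eq_BB (r : ℕ) : Nat.pow 2 (Nat.mul 352 r) = BB ^ r := by
  rw [Nat.pow_eq, Nat.mul_eq]; unfold BB; rw [← pow_mul]

theorem test_sound {a g η : ℕ → ℤ} (hv : Valid a g η) {pre : List Bool}
    (hpre : Pre a mainList pre) (h : test pre = true) : False :=
  dfs_sound hv mainList 2 lok_main le_rfl pre hpre _ _ _ _ _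
    (init_inv hv (pow_eq_BB 112) four_BB_le) h

end Pool.Agent.Work.MP_6f8877_nt.SP
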