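import Mathlib
import Pool.Agent.Work.MP_6f8877_nt.Sound2
import Pool.Agent.Work.MP_6f8877_nt.Run0
import Pool.Agent.Work.MP_6f8877_nt.Run1

set_option autoImplicit false

namespace Pool.Agent.Work.MP_6f8877_nt.SP

/-- The search tree is exhausted: no sequence has all the required properties. -/
theorem no_valid {a g η : ℕ → ℤ} (hv : Valid a g η) : False := by
  have h0 : Pre a mainList [] := pre_nil a mainList
  rcases h0.ext with h | h
  ·
    rcases h.ext with h | h
    ·
      exact test_sound hv h leaf0
    ·
      rcases h.ext with h | h
      ·
        rcases h.ext with h | h
        ·
          exact test_sound hv h leaf1
        ·
          rcases h.ext with h | h
          ·
            exact test_sound hv h leaf2
          ·
            rcases h.ext with h | h
            ·
              exact test_sound hv h leaf3
            ·
              rcases h.ext with h | h
              ·
                rcases h.ext with h | h
                ·
                  rcases h.ext with h | h
                  ·
                    rcases h.ext with h | h
                    ·
                      exact test_sound hv h leaf4
                    ·
                      rcases h.ext with h | h
                      ·
                        rcases h.ext with h | h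
                        ·
                          exact test_sound hv h leaf5
                        ·
                          rcases h.ext with h | h
                          ·
                            exact test_sound hv h leaf6
                          ·
                            rcases h.ext with h | h
                            ·
                              rcases h.ext with h | h
                              ·
                                rcases h.ext with h | h
                                ·
                                  rcases h.ext with h | h
                                  ·
                                    exact test_sound hv h leaf7
                                  ·
                                    rcases h.ext with h | h
                                    ·
                                      rcases h.ext with h | h
                                      ·
                                        exact test_sound hv h leaf8
                                      ·
                                        rcases h.ext with h | h
                                        ·
                                          rcases h.ext with h | h
                                          ·
                                            exact test_sound hv h leaf9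
                                          ·
                                            rcases h.ext with h | h
                                            ·
                                              exact test_sound hv h leaf10
                                            ·
                                              rcases h.ext with h | h
                                              ·
                                                exact test_sound hv h leaf11
                                              ·
                                                rcases h.ext with h | h
                                                ·
                                                  rcases h.ext with h | h
                                                  ·
                                                    exact test_sound hv h leaf12
                                                  ·
                                                    rcases h.ext with h | h
                                                    ·
                                                      rcases h.ext with h | h
                                                      ·
                                                        exact test_sound hv h leaf13
                                                      ·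
                                                        rcases h.ext with h | h
                                                        ·
                                                          rcases h.ext with h | h
                                                          ·
                                                            exact test_sound hv h leaf14
                                                          ·
                                                            rcases h.ext with h | h
                                                            ·
                                                              rcases h.ext with h | h
                                                              ·
                                                                exact test_sound hv h leaf15
                                                              ·
                                                                rcases h.ext with h | h
                                                                ·
                                                                  rcases h.ext with h | h
                                                                  ·
                                                                    exact test_sound hv h leaf16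
                                                                  ·
                                                                    exact test_sound hv h leaf17
                                                                ·
                                                                  exact test_sound hv h leaf18
                                                            ·
                                                              exact test_sound hv h leaf19
                                                        ·
                                                          exact test_sound hv h leaf20
                                                    ·
                                                      exact test_sound hv h leaf21
                                                ·
                                                  exact test_sound hv h leaf22
                                        ·
                                          exact test_sound hv h leaf23
                                    ·
                                      exact test_sound hv h leaf24
                                ·
                                  exact test_sound hv h leaf25
                              ·
                                exact test_sound hv h leaf26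
                            ·
                              exact test_sound hv h leaf27
                      ·
                        exact test_sound hv h leaf28
                  ·
                    exact test_sound hv h leaf29
                ·
                  exact test_sound hv h leaf30
              ·
                exact test_sound hv h leaf31
      ·
        exact test_sound hv h leaf32
  ·
    exact test_sound hv h leaf33

end Pool.Agent.Work.MP_6f8877_nt.SP
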