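import Mathlib

set_option autoImplicit false

open PowerSeries

namespace Pool.Agent.Work.MP_6f8877_nt

/-- A square root with constant term `1` of an integer series whose higher coefficients are
divisible by `2 d` (`d` even) has integer coefficients, the higher ones divisible by `d`. -/
theorem sqrt_integral {S : PowerSeries ℂ} {f : ℕ → ℤ} {d : ℤ} (hd : 2 ∣ d)
    (h2 : S ^ 2 = PowerSeries.mk (fun n => (f n : ℂ)))
    (h0 : PowerSeries.coeff 0 S = 1) (hf : ∀ n, n ≠ 0 → 2 * d ∣ f n) :
    ∃ g : ℕ → ℤ, g 0 = 1 ∧ (∀ n, PowerSeries.coeff n S = g n) ∧ (∀ n, n ≠ 0 → d ∣ g n) := by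
  have key : ∀ n, ∃ m : ℤ, PowerSeries.coeff n S = m ∧ (n ≠ 0 → d ∣ m) ∧ (n = 0 → m = 1) := by
    intro n
    induction n using Nat.strong_induction_on with
    | _ n ih =>
      rcases Nat.eq_zero_or_pos n with rfl | hn
      · exact ⟨1, by simpa using h0, fun h => absurd rfl h, fun _ => rfl⟩
      · obtain ⟨n, rfl⟩ := Nat.exists_eq_succ_of_ne_zero hn.ne'
        choose! G hG using ih
        have h1 := congrArg (PowerSeries.coeff (n + 1)) h2
        rw [pow_two, coeff_mul, coeff_mk, Finset.Nat.sum_antidiagonal_eq_sum_range_succ_mk] at h1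
        simp only at h1
        rw [Finset.sum_range_succ, Finset.sum_range_succ', Nat.sub_self, Nat.sub_zero, h0, one_mul,
          mul_one] at h1
        have h3 : ∑ k ∈ Finset.range n, (PowerSeries.coeff (k + 1) S) *
            (PowerSeries.coeff (n + 1 - (k + 1)) S)
            = ((∑ k ∈ Finset.range n, G (k + 1) * G (n - k) : ℤ) : ℂ) := by
          push_cast
          refine Finset.sum_congr rfl (fun k hk => ?_)
          rw [Finset.mem_range] at hk
          rw [(hG (k + 1) (by omega)).1, (hG (n - k) (by omega)).1]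
        rw [h3] at h1
        have hdd : 2 * d ∣ ∑ k ∈ Finset.range n, G (k + 1) * G (n - k) := by
          refine Finset.dvd_sum (fun k hk => ?_)
          rw [Finset.mem_range] at hk
          have ha := (hG (k + 1) (by omega)).2.1 (by omega)
          have hb := (hG (n - k) (by omega)).2.1 (by omega)
          exact mul_dvd_mul (hd.trans ha) hb
        have hfd := hf (n + 1) (by omega)
        obtain ⟨c, hc⟩ := dvd_sub hfd hdd
        refine ⟨d * c, ?_, fun _ => dvd_mul_right _ _, fun h => by omega⟩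
        have h4 : ((f (n + 1) - ∑ k ∈ Finset.range n, G (k + 1) * G (n - k) : ℤ) : ℂ)
            = ((2 * d * c : ℤ) : ℂ) := by rw [hc]
        rw [Int.cast_sub] at h4
        have h5 : (2 : ℂ) * PowerSeries.coeff (n + 1) S = ((2 * d * c : ℤ) : ℂ) := by
          rw [← h4, ← h1]; ring
        have h6 : ((2 * d * c : ℤ) : ℂ) = 2 * ((d * c : ℤ) : ℂ) := by push_cast; ring
        rw [h6] at h5
        exact mul_left_cancel₀ two_ne_zero h5
  choose g hg using key
  exact ⟨g, (hg 0).2.2 rfl, fun n => (hg n).1, fun n => (hg n).2.1⟩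

theorem sq_eq_sq_of_coeff_zero {S T : PowerSeries ℂ} (h : S ^ 2 = T ^ 2)
    (hS : PowerSeries.coeff 0 S = 1) (hT : PowerSeries.coeff 0 T = 1) : S = T := by
  rcases sq_eq_sq_iff_eq_or_eq_neg.1 h with h | h
  · exact h
  · exfalso
    have := congrArg (PowerSeries.coeff 0) h
    rw [map_neg, hS, hT] at this
    norm_num at this

/-- The scaled fourth root has integer coefficients. -/
theorem root_integral {B : PowerSeries ℂ} {a : ℕ → ℤ}
    (h4 : B ^ 4 = PowerSeries.mk (fun n => (a n : ℂ))) (h0 : PowerSeries.coeff 0 B = 1) :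
    ∃ g η : ℕ → ℤ, g 0 = 1 ∧ η 0 = 1 ∧
      (∀ n, ∑ p ∈ Finset.HasAntidiagonal.antidiagonal n, g p.1 * g p.2 = 8 ^ n * a n) ∧
      (∀ n, ∑ p ∈ Finset.HasAntidiagonal.antidiagonal n, η p.1 * η p.2 = g n) ∧
      (∀ n, (8 : ℂ) ^ n * PowerSeries.coeff n B = η n) := by
  set B' : PowerSeries ℂ := PowerSeries.rescale 8 B with hB'
  have hcB : ∀ n, PowerSeries.coeff n B' = (8 : ℂ) ^ n * PowerSeries.coeff n B := by
    intro n; rw [hB', PowerSeries.coeff_rescale]
  have h1 : (B' ^ 2) ^ 2 = PowerSeries.mk (fun n => ((8 ^ n * a n : ℤ) : ℂ)) := by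
    have : (B' ^ 2) ^ 2 = PowerSeries.rescale 8 (B ^ 4) := by
      rw [map_pow, ← hB']; ring
    rw [this, h4]
    ext n
    rw [PowerSeries.coeff_rescale, coeff_mk, coeff_mk]
    push_cast; ring
  have h02 : PowerSeries.coeff 0 (B' ^ 2) = 1 := by
    rw [PowerSeries.coeff_zero_eq_constantCoeff_apply, map_pow,
      ← PowerSeries.coeff_zero_eq_constantCoeff_apply, hcB, h0]
    norm_num
  have h03 : PowerSeries.coeff 0 B' = 1 := by rw [hcB, h0]; norm_num
  obtain ⟨g, hg0, hg, hgd⟩ := sqrt_integral (d := 4) (by norm_num) h1 h02 (by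
    intro n hn
    obtain ⟨n, rfl⟩ := Nat.exists_eq_succ_of_ne_zero hn
    exact ⟨8 ^ n * a n.succ, by rw [pow_succ]; ring⟩)
  have h5 : B' ^ 2 = PowerSeries.mk (fun n => (g n : ℂ)) := by
    ext n; rw [hg, coeff_mk]
  obtain ⟨η, hη0, hη, _⟩ := sqrt_integral (d := 2) (by norm_num) h5 h03 (by
    intro n hn
    exact hgd n hn)
  refine ⟨g, η, hg0, hη0, ?_, ?_, ?_⟩
  · intro n
    have := congrArg (PowerSeries.coeff n) h1
    rw [pow_two (B' ^ 2), coeff_mul, coeff_mk] at this
    have h6 : ((∑ p ∈ Finset.HasAntidiagonal.antidiagonal n, g p.1 * g p.2 : ℤ) : ℂ)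
        = ((8 ^ n * a n : ℤ) : ℂ) := by
      rw [← this]; push_cast
      exact Finset.sum_congr rfl (fun p _ => by rw [hg, hg])
    exact_mod_cast h6
  · intro n
    have := congrArg (PowerSeries.coeff n) h5
    rw [pow_two, coeff_mul, coeff_mk] at this
    have h6 : ((∑ p ∈ Finset.HasAntidiagonal.antidiagonal n, η p.1 * η p.2 : ℤ) : ℂ)
        = ((g n : ℤ) : ℂ) := by
      rw [← this]; push_cast
      exact Finset.sum_congr rfl (fun p _ => by rw [hη, hη])
    exact_mod_cast h6
  · intro n; rw [← hcB, hη]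

end Pool.Agent.Work.MP_6f8877_nt
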