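import Mathlib
import Pool.Agent.Work.MP_6f8877_nt.PS
import Pool.Agent.Work.MP_6f8877_nt.L2
import Pool.Agent.Work.MP_6f8877_nt.Seq
import Pool.Agent.Work.MP_6f8877_nt.NoValid

set_option autoImplicit false
set_option exponentiation.threshold 50000

open Metric Filter Topology

namespace Pool.Agent.Work.MP_6f8877_nt

open SP

/-- upper bounds for the squares of the coefficients -/
noncomputable def cc (n : ℕ) : ℝ := if n < 201 then (if Nat.testBit PAR n then 1 else 0) else 1

def Snum : ℕ → ℕ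
  | 0 => 0
  | n + 1 => Snum n * 15625 + (if Nat.testBit PAR n then 15129 ^ n else 0)

theorem Snum_eq (n : ℕ) : ((Snum n : ℕ) : ℝ) * 15625
    = 15625 ^ n * ∑ i ∈ Finset.range n, (if Nat.testBit PAR i then (1 : ℝ) else 0) * (15129 / 15625) ^ i := by
  induction n with
  | zero => simp [Snum]
  | succ n ih =>
    rw [Finset.sum_range_succ, Snum, Nat.cast_add, add_mul, Nat.cast_mul, mul_assoc]
    have : ((Snum n : ℕ) : ℝ) * (((15625 : ℕ) : ℝ) * 15625) = (((Snum n : ℕ) : ℝ) * 15625) * 15625 := by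
      push_cast; ring
    rw [this, ih, mul_add]
    have h2 : (((if Nat.testBit PAR n then 15129 ^ n else 0 : ℕ)) : ℝ) * 15625
        = 15625 ^ (n + 1) * ((if Nat.testBit PAR n then (1 : ℝ) else 0) * (15129 / 15625) ^ n) := by
      split_ifs
      · push_cast
        rw [div_pow, pow_succ]
        field_simp
      · simp
    rw [h2]
    ring

theorem num_check : 10 ^ 16 * (496 * Snum 201 + 15129 ^ 201) ≤ 496 * 20779 ^ 4 * 15625 ^ 200 := by
  decide +kernel

theorem cc_sum : ∑' n, cc n * (15129 / 15625 : ℝ) ^ n ≤ (20779 / 10000) ^ 4 := by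
  have hρ : (15129 / 15625 : ℝ) < 1 := by norm_num
  have hsum : Summable (fun n => cc n * (15129 / 15625 : ℝ) ^ n) := by
    refine Summable.of_nonneg_of_le (fun n => ?_) (fun n => ?_)
      (summable_geometric_of_lt_one (by norm_num) hρ)
    · unfold cc; split_ifs <;> positivity
    · unfold cc; split_ifs <;> simp; positivity
  rw [← hsum.sum_add_tsum_nat_add 201]
  have h1 : ∑' i, cc (i + 201) * (15129 / 15625 : ℝ) ^ (i + 201) = (15129 / 15625) ^ 201 / (496 / 15625) := by
    have : (fun i => cc (i + 201) * (15129 / 15625 : ℝ) ^ (i + 201))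
        = fun i => (15129 / 15625 : ℝ) ^ 201 * (15129 / 15625 : ℝ) ^ i := by
      funext i
      rw [cc, if_neg (by omega), pow_add]; ring
    rw [this, tsum_mul_left, tsum_geometric_of_lt_one (by norm_num) hρ]
    norm_num
  have h2 : ∑ i ∈ Finset.range 201, cc i * (15129 / 15625 : ℝ) ^ i
      = ∑ i ∈ Finset.range 201, (if Nat.testBit PAR i then (1 : ℝ) else 0) * (15129 / 15625) ^ i := by
    refine Finset.sum_congr rfl (fun i hi => ?_)
    rw [cc, if_pos (Finset.mem_range.1 hi)]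
  rw [h1, h2]
  have h3 := Snum_eq 201
  have h4 : (10 ^ 16 * (496 * (Snum 201 : ℝ) + 15129 ^ 201) : ℝ) ≤ 496 * 20779 ^ 4 * 15625 ^ 200 := by
    exact_mod_cast num_check
  set S : ℝ := ∑ i ∈ Finset.range 201, (if Nat.testBit PAR i then (1 : ℝ) else 0) * (15129 / 15625) ^ i
    with hS
  have h5 : (Snum 201 : ℝ) = 15625 ^ 200 * S := by
    have : (15625 : ℝ) ^ 201 = 15625 ^ 200 * 15625 := by rw [pow_succ]
    rw [this] at h3
    have h6 : (Snum 201 : ℝ) * 15625 = (15625 ^ 200 * S) * 15625 := by rw [h3]; ring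
    exact mul_right_cancel₀ (by norm_num) h6
  rw [h5] at h4
  have hP : (0 : ℝ) < 15625 ^ 200 := by positivity
  have h7 : (15129 / 15625 : ℝ) ^ 201 / (496 / 15625) = 15129 ^ 201 / (496 * 15625 ^ 200) := by
    rw [div_pow, pow_succ (15625 : ℝ) 200]
    field_simp
  rw [h7]
  have h8 : S + 15129 ^ 201 / (496 * 15625 ^ 200) = (496 * (15625 ^ 200 * S) + 15129 ^ 201) / (496 * 15625 ^ 200) := by
    field_simp
  rw [h8, div_le_iff₀ (by positivity)]
  have h9 : ((20779 : ℝ) / 10000) ^ 4 * (496 * 15625 ^ 200) = (496 * 20779 ^ 4 * 15625 ^ 200) / 10 ^ 16 := by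
    rw [div_pow]
    have : (10000 : ℝ) ^ 4 = 10 ^ 16 := by norm_num
    rw [this]; ring
  rw [h9, le_div_iff₀ (by positivity)]
  linarith

/-- the basic inequality on the boundary circle -/
theorem sq_bound {a : ℕ → ℤ} (hb : ∀ n, |a n| ≤ 1)
    (hpar : ∀ n, n < 201 → Nat.testBit PAR n = false → a n = 0)
    {F H : ℂ → ℂ} {B : PowerSeries ℂ} (hF : Rep F (PowerSeries.mk (fun n => (a n : ℂ))) (123 / 125))
    (hH : Rep H B (123 / 125)) (h4 : ∀ z, ‖z‖ < 123 / 125 → H z ^ 4 = F z) (N : ℕ) :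
    ∑ n ∈ Finset.range N, ‖PowerSeries.coeff n B‖ ^ 2 * (15129 / 15625 : ℝ) ^ n ≤ 20779 / 10000 := by
  have hac : ∀ n, ‖(a n : ℂ)‖ ^ 2 ≤ cc n := by
    intro n
    have h1 : ‖(a n : ℂ)‖ = |(a n : ℝ)| := by
      rw [← Complex.ofReal_intCast, Complex.norm_real, Real.norm_eq_abs]
    have h2 : |(a n : ℝ)| ≤ 1 := by exact_mod_cast hb n
    unfold cc
    split_ifs with h3 h5
    · rw [h1]; exact pow_le_one₀ (abs_nonneg _) h2
    · rw [hpar n h3 (by simpa using h5)]; simp
    · rw [h1]; exact pow_le_one₀ (abs_nonneg _) h2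
  have hρ : (15129 / 15625 : ℝ) < 1 := by norm_num
  have hccn : ∀ n, 0 ≤ cc n := fun n => by unfold cc; split_ifs <;> norm_num
  have hccs : Summable (fun n => cc n * (15129 / 15625 : ℝ) ^ n) := by
    refine Summable.of_nonneg_of_le (fun n => ?_) (fun n => ?_)
      (summable_geometric_of_lt_one (by norm_num) hρ)
    · unfold cc; split_ifs <;> positivity
    · unfold cc; split_ifs <;> simp; positivity
  have key : ∀ r ∈ Set.Ico (0 : ℝ) (123 / 125),
      (∑ n ∈ Finset.range N, ‖PowerSeries.coeff n B‖ ^ 2 * (r ^ 2) ^ n) ^ 4 ≤ (20779 / 10000) ^ 4 := by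
    intro r hr
    refine (bessel_root hF hH h4 hr.1 hr.2 N).trans (le_trans ?_ cc_sum)
    have hr2 : r ^ 2 ≤ 15129 / 15625 := by nlinarith [hr.1, hr.2]
    have hle : ∀ n, ‖PowerSeries.coeff n (PowerSeries.mk (fun n => (a n : ℂ)))‖ ^ 2 * (r ^ 2) ^ n
        ≤ cc n * (15129 / 15625 : ℝ) ^ n := by
      intro n
      rw [PowerSeries.coeff_mk]
      exact mul_le_mul (hac n) (pow_le_pow_left₀ (by positivity) hr2 n) (by positivity) (hccn n)
    exact Summable.tsum_le_tsum hle (Summable.of_nonneg_of_le (fun n => by positivity) hle hccs) hccs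
  have hcont : Continuous (fun r : ℝ =>
      (∑ n ∈ Finset.range N, ‖PowerSeries.coeff n B‖ ^ 2 * (r ^ 2) ^ n) ^ 4) := by fun_prop
  have hclosed : IsClosed {r : ℝ | (∑ n ∈ Finset.range N, ‖PowerSeries.coeff n B‖ ^ 2 * (r ^ 2) ^ n) ^ 4
      ≤ (20779 / 10000) ^ 4} := isClosed_le hcont continuous_const
  have hsub : Set.Ico (0 : ℝ) (123 / 125) ⊆ {r : ℝ | (∑ n ∈ Finset.range N,
      ‖PowerSeries.coeff n B‖ ^ 2 * (r ^ 2) ^ n) ^ 4 ≤ (20779 / 10000) ^ 4} := key
  have hcl := hclosed.closure_subset_iff.2 hsub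
  rw [closure_Ico (by norm_num)] at hcl
  have hfin := hcl (Set.right_mem_Icc.2 (by norm_num : (0 : ℝ) ≤ 123 / 125))
  simp only [Set.mem_ofPred_eq] at hfin
  have h49 : ((123 : ℝ) / 125) ^ 2 = 15129 / 15625 := by norm_num
  rw [h49] at hfin
  exact le_of_pow_le_pow_left₀ (by norm_num) (by norm_num) hfin

theorem SQ_eq (η : ℕ → ℤ) (n : ℕ) : ((SQ η n : ℤ) : ℝ) * 1000000
    = 1000000 ^ n * (10000 * ∑ i ∈ Finset.range n, (η i : ℝ) ^ 2 * (15129 / 1000000) ^ i) := by
  induction n with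
  | zero => simp [SQ]
  | succ n ih =>
    rw [Finset.sum_range_succ, SQ, Int.cast_add, add_mul]
    have : (((SQ η n * 1000000 : ℤ)) : ℝ) * 1000000 = ((SQ η n : ℤ) : ℝ) * 1000000 * 1000000 := by
      push_cast; ring
    rw [this, ih, mul_add 10000, mul_add (1000000 ^ (n + 1))]
    have h2 : (((10000 * η n ^ 2 * 15129 ^ n : ℤ)) : ℝ) * 1000000
        = 1000000 ^ (n + 1) * (10000 * ((η n : ℝ) ^ 2 * (15129 / 1000000) ^ n)) := by
      push_cast
      rw [div_pow]
      field_simp
      ring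
    rw [h2]
    ring

theorem core' {a : ℕ → ℤ} (h0 : a 0 = 1) (h1 : a 1 = -1) (hb : ∀ n, |a n| ≤ 1)
    (hpar : ∀ n < 201, ((a n : ℤ) : ZMod 2) = bit PAR n)
    (hne : ∀ z : ℂ, ‖z‖ < 123 / 125 → ∑' n, (a n : ℂ) * z ^ n ≠ 0) : False := by
  have haz : ∀ n, n < 201 → Nat.testBit PAR n = false → a n = 0 := by
    intro n hn hbit
    have h2 := hpar n hn
    rw [bit, if_neg (by simp [hbit]), ZMod.intCast_zmod_eq_zero_iff_dvd] at h2
    have h3 := abs_le.1 (hb n)
    omega
  have hao : ∀ n, n < 201 → Nat.testBit PAR n = true → a n = 1 ∨ a n = -1 := by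
    intro n hn hbit
    have h2 := hpar n hn
    rw [bit, if_pos hbit] at h2
    have h3 := abs_le.1 (hb n)
    have h4 : a n ≠ 0 := by
      intro h; rw [h] at h2; simp at h2
    omega
  set F : ℂ → ℂ := fun z => ∑' n, (a n : ℂ) * z ^ n with hFdef
  have hF : Rep F (PowerSeries.mk (fun n => (a n : ℂ))) (123 / 125) := by
    intro z hz
    have hz1 : ‖z‖ < 1 := hz.trans (by norm_num)
    have hs : Summable (fun n => (a n : ℂ) * z ^ n) := by
      refine Summable.of_norm_bounded (summable_geometric_of_lt_one (norm_nonneg z) hz1) (fun n => ?_)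
      rw [norm_mul, norm_pow]
      refine mul_le_of_le_one_left (by positivity) ?_
      rw [← Complex.ofReal_intCast, Complex.norm_real, Real.norm_eq_abs]
      exact_mod_cast hb n
    simp only [PowerSeries.coeff_mk]
    exact hs.hasSum
  have hA0 : PowerSeries.coeff 0 (PowerSeries.mk (fun n => (a n : ℂ))) = 1 := by
    rw [PowerSeries.coeff_mk, h0]; simp
  obtain ⟨H, B, hH, h4, hB4, hB0⟩ := exists_root (by norm_num : (0 : ℝ) < 123 / 125) hF hA0 hne
  obtain ⟨g, η, hg0, hη0, hcg, hcη, hBη⟩ := root_integral hB4 hB0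
  have hnorm : ∀ n, ‖PowerSeries.coeff n B‖ ^ 2 * (15129 / 15625 : ℝ) ^ n
      = (η n : ℝ) ^ 2 * (15129 / 1000000) ^ n := by
    intro n
    have h5 := congrArg norm (hBη n)
    rw [norm_mul, norm_pow, ← Complex.ofReal_intCast (η n), Complex.norm_real, Real.norm_eq_abs] at h5
    have h6 : ‖(8 : ℂ)‖ = 8 := by simp
    rw [h6] at h5
    have h7 : (η n : ℝ) ^ 2 = (8 ^ n * ‖PowerSeries.coeff n B‖) ^ 2 := by rw [h5, sq_abs]
    rw [h7]
    have h8 : (15129 / 15625 : ℝ) = (8 ^ 2) * (15129 / 1000000) := by norm_num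
    rw [h8, mul_pow, ← pow_mul, mul_comm 2 n, pow_mul]
    ring
  have hbound : ∀ N, ∑ n ∈ Finset.range N, (η n : ℝ) ^ 2 * (15129 / 1000000) ^ n ≤ 20779 / 10000 := by
    intro N
    have := sq_bound hb haz hF hH h4 N
    simpa only [hnorm] using this
  -- the individual bounds
  set x : ℕ → ℝ := fun n => |(η n : ℝ)| * (123 / 1000) ^ n with hx
  have hxsq : ∀ n, x n ^ 2 = (η n : ℝ) ^ 2 * (15129 / 1000000) ^ n := by
    intro n
    simp only [hx, mul_pow, sq_abs]
    rw [← pow_mul, mul_comm n 2, pow_mul]; norm_num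
  have hx0 : ∀ n, 0 ≤ x n := fun n => by positivity
  have hsmall : ∀ (e : ℤ) (n : ℕ), n < 114 → |(e : ℝ)| * (123 / 1000) ^ n ≤ 3 → |e| < 2 ^ 350 := by
    intro e n hn he
    have h5 : |(e : ℝ)| ≤ 3 * (1000 / 123) ^ n := by
      have h6 : (0 : ℝ) < (123 / 1000) ^ n := by positivity
      have h7 : (3 : ℝ) * (1000 / 123) ^ n = 3 / (123 / 1000) ^ n := by
        rw [div_pow, div_pow]; field_simp
      rw [h7, le_div_iff₀ h6]
      exact he
    have h8 : (1000 / 123 : ℝ) ^ n ≤ (1000 / 123) ^ 113 :=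
      pow_le_pow_right₀ (by norm_num) (by omega)
    have h9 : (3 : ℝ) * (1000 / 123) ^ 113 < 2 ^ 350 := by
      rw [div_pow, ← mul_div_assoc, div_lt_iff₀ (by positivity)]
      norm_num
    have h10 : |(e : ℝ)| < 2 ^ 350 := by linarith
    exact_mod_cast h10
  have hv : Valid a g η := by
    refine ⟨hcg, hcη, h0, h1, hg0, hη0, fun n hn => haz n (by omega), fun n hn => hao n (by omega),
      ?_, ?_, ?_⟩
    · intro n hn
      apply hsmall _ n hn
      have h5 : (g n : ℝ) = ∑ p ∈ Finset.HasAntidiagonal.antidiagonal n, (η p.1 : ℝ) * (η p.2 : ℝ) := by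
        rw [← hcη n]; push_cast; rfl
      have h6 : |(g n : ℝ)| * (123 / 1000) ^ n
          ≤ ∑ p ∈ Finset.HasAntidiagonal.antidiagonal n, x p.1 * x p.2 := by
        rw [h5]
        calc |∑ p ∈ Finset.HasAntidiagonal.antidiagonal n, (η p.1 : ℝ) * (η p.2 : ℝ)| * (123 / 1000) ^ n
            ≤ (∑ p ∈ Finset.HasAntidiagonal.antidiagonal n, |(η p.1 : ℝ) * (η p.2 : ℝ)|)
              * (123 / 1000) ^ n := by
              gcongr
              exact Finset.abs_sum_le_sum_abs _ _
          _ = ∑ p ∈ Finset.HasAntidiagonal.antidiagonal n, x p.1 * x p.2 := by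
              rw [Finset.sum_mul]
              refine Finset.sum_congr rfl (fun p hp => ?_)
              rw [← Finset.HasAntidiagonal.mem_antidiagonal.1 hp, pow_add, abs_mul]
              simp only [hx]; ring
      have h7 : ∑ p ∈ Finset.HasAntidiagonal.antidiagonal n, x p.1 * x p.2
          ≤ ∑ p ∈ Finset.HasAntidiagonal.antidiagonal n, (x p.1 ^ 2 + x p.2 ^ 2) / 2 := by
        refine Finset.sum_le_sum (fun p _ => ?_)
        nlinarith [sq_nonneg (x p.1 - x p.2)]
      have h8 : ∑ p ∈ Finset.HasAntidiagonal.antidiagonal n, (x p.1 ^ 2 + x p.2 ^ 2) / 2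
          = ∑ i ∈ Finset.range (n + 1), x i ^ 2 := by
        rw [← Finset.sum_div, Finset.sum_add_distrib,
          Finset.Nat.sum_antidiagonal_eq_sum_range_succ (fun i _ => x i ^ 2) n,
          Finset.Nat.sum_antidiagonal_eq_sum_range_succ (fun _ j => x j ^ 2) n]
        have : ∑ k ∈ Finset.range n.succ, x (n - k) ^ 2 = ∑ i ∈ Finset.range n.succ, x i ^ 2 := by
          exact Finset.sum_range_reflect (fun i => x i ^ 2) (n + 1)
        rw [this]; ring
      have h9 : ∑ i ∈ Finset.range (n + 1), x i ^ 2 ≤ 20779 / 10000 := by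
        simp only [hxsq]; exact hbound (n + 1)
      linarith
    · intro n hn
      apply hsmall _ n hn
      have h9 : x n ^ 2 ≤ 20779 / 10000 := by
        have h10 := hbound (n + 1)
        rw [Finset.sum_range_succ] at h10
        have h11 : 0 ≤ ∑ i ∈ Finset.range n, (η i : ℝ) ^ 2 * (15129 / 1000000) ^ i :=
          Finset.sum_nonneg (fun i _ => by positivity)
        rw [hxsq]; linarith
      have h12 : x n ≤ 3 := by nlinarith [hx0 n]
      exact h12
    · intro n hn
      have h5 := SQ_eq η (n + 1)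
      have h6 := hbound (n + 1)
      have h7 : ((SQ η (n + 1) : ℤ) : ℝ) ≤ 20779 * 1000000 ^ n := by
        have h8 : ((SQ η (n + 1) : ℤ) : ℝ) * 1000000 ≤ (20779 * 1000000 ^ n) * 1000000 := by
          rw [h5, pow_succ]
          have h9 : (0 : ℝ) < 1000000 ^ n := by positivity
          calc (1000000 : ℝ) ^ n * 1000000 * (10000 *
                ∑ i ∈ Finset.range (n + 1), (η i : ℝ) ^ 2 * (15129 / 1000000) ^ i)
              ≤ (1000000 : ℝ) ^ n * 1000000 * (10000 * (20779 / 10000)) := by gcongr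
            _ = _ := by ring
        exact le_of_mul_le_mul_right h8 (by norm_num)
      exact_mod_cast h7
  exact no_valid hv

/-- A power series with the parities of the partition function and coefficients in `{-1,0,1}` has
a zero in the disc of radius `123/125`. -/
theorem core {a : ℕ → ℤ} (h0 : a 0 = 1) (hb : ∀ n, |a n| ≤ 1)
    (hpar : ∀ n < 201, ((a n : ℤ) : ZMod 2) = bit PAR n) :
    ∃ z : ℂ, ‖z‖ < 123 / 125 ∧ ∑' n, (a n : ℂ) * z ^ n = 0 := by
  by_contra hcon
  push Not at hcon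
  have h1 : a 1 = 1 ∨ a 1 = -1 := by
    have h2 := hpar 1 (by norm_num)
    have h3 := abs_le.1 (hb 1)
    have h4 : a 1 ≠ 0 := by
      intro h; rw [h] at h2
      revert h2; decide
    omega
  rcases h1 with h1 | h1
  · refine core' (a := fun n => (-1) ^ n * a n) (by simp [h0]) (by simp [h1]) ?_ ?_ ?_
    · intro n; rw [abs_mul, abs_pow, abs_neg, abs_one, one_pow, one_mul]; exact hb n
    · intro n hn
      have h5 : (((-1 : ℤ) ^ n * a n : ℤ) : ZMod 2) = ((a n : ℤ) : ZMod 2) := by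
        push_cast
        have : (-1 : ZMod 2) = 1 := by decide
        rw [this, one_pow, one_mul]
      rw [h5]; exact hpar n hn
    · intro z hz
      have h5 := hcon (-z) (by rwa [norm_neg])
      have h6 : (fun n => ((((-1) ^ n * a n : ℤ)) : ℂ) * z ^ n) = fun n => (a n : ℂ) * (-z) ^ n := by
        funext n
        push_cast
        rw [neg_pow z]; ring
      rw [h6]; exact h5
  · exact core' h0 h1 hb hpar hcon

end Pool.Agent.Work.MP_6f8877_nt
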