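import Mathlib
import Pool.Agent.Work.MP_6f8877_nt.PS

set_option autoImplicit false

open Filter Topology
open scoped PowerSeries.WithPiTopology

namespace Pool.Agent.Work.MP_6f8877_nt

/-- The `k`-th row, with explicit coefficients. -/
noncomputable def rowE {𝕜 : Type*} [Semiring 𝕜] (c : ℕ → 𝕜) (k : ℕ) : PowerSeries 𝕜 :=
  PowerSeries.mk fun n => if n = 0 then 1 else if k ∣ n then c (n / k) else 0

theorem row_eq_rowE {𝕜 : Type*} [CommSemiring 𝕜] [TopologicalSpace 𝕜] [T2Space 𝕜]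
    (f : ℕ → ℕ → 𝕜) (i : ℕ) :
    (1 : PowerSeries 𝕜) + ∑' j, f (i + 1) (j + 1) • (PowerSeries.X : PowerSeries 𝕜) ^ ((i + 1) * (j + 1))
      = rowE (f (i + 1)) (i + 1) := by
  ext n
  rw [map_add, (Nat.Partition.summable_genFun_term f i).map_tsum _
    (PowerSeries.WithPiTopology.continuous_coeff _ _)]
  simp only [rowE, PowerSeries.coeff_mk, map_smul, PowerSeries.coeff_X_pow, smul_eq_mul,
    mul_ite, mul_one, mul_zero, PowerSeries.coeff_one]
  by_cases hn : n = 0
  · subst hn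
    have : ∀ j : ℕ, ¬ (0 = (i + 1) * (j + 1)) := by intro j h; simp at h
    simp [this]
  · by_cases hd : (i + 1) ∣ n
    · obtain ⟨q, rfl⟩ := hd
      have hq : q ≠ 0 := by rintro rfl; simp at hn
      obtain ⟨q, rfl⟩ := Nat.exists_eq_succ_of_ne_zero hq
      have h1 : ∀ j : ℕ, ((i + 1) * q.succ = (i + 1) * (j + 1)) ↔ j = q := by
        intro j
        constructor
        · intro h
          have := Nat.eq_of_mul_eq_mul_left (Nat.succ_pos i) h
          omega
        · rintro rfl; rfl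
      simp only [h1, if_neg hn, zero_add, dvd_mul_right, if_true]
      rw [tsum_ite_eq, Nat.mul_div_cancel_left _ (Nat.succ_pos i)]
    · have : ∀ j : ℕ, ¬ (n = (i + 1) * (j + 1)) := by
        intro j h; exact hd ⟨_, h⟩
      simp [this, hn, hd]

/-- `A` converges absolutely at `z` with sum `v`. -/
def HS {𝕜 : Type*} [NormedField 𝕜] (A : PowerSeries 𝕜) (z v : 𝕜) : Prop :=
  Summable (fun n => ‖PowerSeries.coeff n A * z ^ n‖) ∧
    HasSum (fun n => PowerSeries.coeff n A * z ^ n) v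

theorem HS.mul {𝕜 : Type*} [NormedField 𝕜] [CompleteSpace 𝕜] {A B : PowerSeries 𝕜} {z v w : 𝕜}
    (hA : HS A z v) (hB : HS B z w) : HS (A * B) z (v * w) := by
  have h3 := tsum_mul_tsum_eq_tsum_sum_antidiagonal_of_summable_norm hA.1 hB.1
  have h4 := summable_norm_sum_mul_antidiagonal_of_summable_norm hA.1 hB.1
  have h5 : (fun n => ∑ kl ∈ Finset.HasAntidiagonal.antidiagonal n,
      (PowerSeries.coeff kl.1 A * z ^ kl.1) * (PowerSeries.coeff kl.2 B * z ^ kl.2))
      = fun n => PowerSeries.coeff n (A * B) * z ^ n := by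
    funext n
    rw [PowerSeries.coeff_mul, Finset.sum_mul]
    refine Finset.sum_congr rfl (fun p hp => ?_)
    rw [← Finset.HasAntidiagonal.mem_antidiagonal.1 hp, pow_add]; ring
  have h6 : Summable (fun n => ‖PowerSeries.coeff n (A * B) * z ^ n‖) := by
    have h7 : (fun n => ‖PowerSeries.coeff n (A * B) * z ^ n‖) = fun n =>
        ‖∑ kl ∈ Finset.HasAntidiagonal.antidiagonal n,
        (PowerSeries.coeff kl.1) A * z ^ kl.1 * ((PowerSeries.coeff kl.2) B * z ^ kl.2)‖ := by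
      funext n
      rw [← congrFun h5 n]
    rw [h7]; exact h4
  refine ⟨h6, ?_⟩
  rw [h5, hA.2.tsum_eq, hB.2.tsum_eq] at h3
  rw [h3]
  exact h6.of_norm.hasSum

theorem HS.one {𝕜 : Type*} [NormedField 𝕜] (z : 𝕜) : HS (1 : PowerSeries 𝕜) z 1 := by
  have : (fun n => PowerSeries.coeff n (1 : PowerSeries 𝕜) * z ^ n)
      = fun n => if n = 0 then 1 else 0 := by
    funext n
    rw [PowerSeries.coeff_one]
    split_ifs with h <;> simp [h]
  constructor
  · have h2 : (fun n => ‖PowerSeries.coeff n (1 : PowerSeries 𝕜) * z ^ n‖)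
      = fun n => if n = 0 then 1 else 0 := by
      funext n
      rw [congrFun this n]
      split_ifs <;> simp
    rw [h2]
    exact (hasSum_ite_eq 0 1).summable
  · rw [this]
    exact hasSum_ite_eq 0 1

theorem HS.prod {𝕜 : Type*} [NormedField 𝕜] [CompleteSpace 𝕜] {A : ℕ → PowerSeries 𝕜} {z : 𝕜}
    {v : ℕ → 𝕜} (h : ∀ i, HS (A i) z (v i)) (K : ℕ) :
    HS (∏ i ∈ Finset.range K, A i) z (∏ i ∈ Finset.range K, v i) := by
  induction K with
  | zero => simpa using HS.one z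
  | succ K ih => rw [Finset.prod_range_succ, Finset.prod_range_succ]; exact ih.mul (h K)

theorem HS.rowE {𝕜 : Type*} [NormedField 𝕜] [CompleteSpace 𝕜] {c : ℕ → 𝕜} (hc : ∀ j, ‖c j‖ ≤ 1)
    (i : ℕ) {z : 𝕜} (hz : ‖z‖ < 1) :
    HS (rowE c (i + 1)) z (1 + ∑' j, c (j + 1) * (z ^ (i + 1)) ^ (j + 1)) := by
  have hz' : ‖z ^ (i + 1)‖ < 1 := by
    rw [norm_pow]; exact pow_lt_one₀ (norm_nonneg z) hz (Nat.succ_ne_zero i)
  have hgeo : Summable (fun n : ℕ => ‖z‖ ^ n) := summable_geometric_of_lt_one (norm_nonneg z) hz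
  have hgeo' : Summable (fun n : ℕ => ‖z ^ (i + 1)‖ ^ n) :=
    summable_geometric_of_lt_one (norm_nonneg _) hz'
  have hco : ∀ n, ‖PowerSeries.coeff n (MP_6f8877_nt.rowE c (i + 1))‖ ≤ 1 := by
    intro n
    rw [MP_6f8877_nt.rowE, PowerSeries.coeff_mk]
    split_ifs with h1 h2
    · simp
    · exact hc _
    · simp
  have hsum : Summable (fun n => ‖PowerSeries.coeff n (MP_6f8877_nt.rowE c (i + 1)) * z ^ n‖) := by
    refine Summable.of_nonneg_of_le (fun n => norm_nonneg _) (fun n => ?_) hgeo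
    rw [norm_mul, norm_pow]
    exact mul_le_of_le_one_left (by positivity) (hco n)
  refine ⟨hsum, ?_⟩
  have hinj : Function.Injective (fun j : ℕ => (i + 1) * j) := fun a b h =>
    Nat.eq_of_mul_eq_mul_left (Nat.succ_pos i) h
  rw [← hinj.hasSum_iff]
  · have h1 : Summable (fun j : ℕ => c (j + 1) * (z ^ (i + 1)) ^ (j + 1)) := by
      refine Summable.of_norm_bounded ((summable_nat_add_iff 1).2 hgeo') (fun j => ?_)
      rw [norm_mul, norm_pow]
      exact mul_le_of_le_one_left (by positivity) (hc _)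
    rw [← hasSum_nat_add_iff' 1]
    have h2 : (fun n => ((fun n => PowerSeries.coeff n (MP_6f8877_nt.rowE c (i + 1)) * z ^ n) ∘
        fun j => (i + 1) * j) (n + 1)) = fun j : ℕ => c (j + 1) * (z ^ (i + 1)) ^ (j + 1) := by
      funext j
      simp only [Function.comp, MP_6f8877_nt.rowE, PowerSeries.coeff_mk]
      rw [if_neg (by simp), if_pos (dvd_mul_right _ _),
        Nat.mul_div_cancel_left _ (Nat.succ_pos i), pow_mul]
    rw [h2]
    have h3 : (1 + ∑' j, c (j + 1) * (z ^ (i + 1)) ^ (j + 1) - ∑ i_1 ∈ Finset.range 1,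
        ((fun n => PowerSeries.coeff n (MP_6f8877_nt.rowE c (i + 1)) * z ^ n) ∘
        fun j => (i + 1) * j) i_1) = ∑' j, c (j + 1) * (z ^ (i + 1)) ^ (j + 1) := by
      simp [MP_6f8877_nt.rowE]
    rw [h3]
    exact h1.hasSum
  · intro n hn
    simp only [MP_6f8877_nt.rowE, PowerSeries.coeff_mk]
    have h1 : ¬ (i + 1) ∣ n := by
      rintro ⟨q, rfl⟩
      exact hn ⟨q, rfl⟩
    have h2 : n ≠ 0 := by rintro rfl; exact h1 (dvd_zero _)
    simp [h1, h2]

/-- Coefficientwise majorisation. -/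
theorem maj_prod {A : ℕ → PowerSeries ℂ} {Q : ℕ → PowerSeries ℝ}
    (h : ∀ i n, ‖PowerSeries.coeff n (A i)‖ ≤ PowerSeries.coeff n (Q i)) (K : ℕ) :
    ∀ n, ‖PowerSeries.coeff n (∏ i ∈ Finset.range K, A i)‖
      ≤ PowerSeries.coeff n (∏ i ∈ Finset.range K, Q i) := by
  induction K with
  | zero =>
    intro n
    simp only [Finset.range_zero, Finset.prod_empty, PowerSeries.coeff_one]
    split_ifs <;> simp
  | succ K ih =>
    intro n
    rw [Finset.prod_range_succ, Finset.prod_range_succ, PowerSeries.coeff_mul,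
      PowerSeries.coeff_mul]
    refine (norm_sum_le _ _).trans (Finset.sum_le_sum (fun p _ => ?_))
    rw [norm_mul]
    exact mul_le_mul (ih _) (h _ _) (norm_nonneg _) ((norm_nonneg _).trans (ih _))

theorem prod_bound {s : ℝ} (hs0 : 0 ≤ s) (hs : s < 1) (K : ℕ) :
    ∏ i ∈ Finset.range K, (1 + ∑' j : ℕ, (1 : ℝ) * (s ^ (i + 1)) ^ (j + 1))
      ≤ Real.exp (∑' i : ℕ, s ^ (i + 1) / (1 - s)) := by
  have hgeo : Summable (fun n : ℕ => s ^ n) := summable_geometric_of_lt_one hs0 hs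
  have hsum : Summable (fun i : ℕ => s ^ (i + 1) / (1 - s)) :=
    ((summable_nat_add_iff 1).2 hgeo).div_const _
  have h1s : 0 < 1 - s := by linarith
  have h1 : ∀ i : ℕ, (1 + ∑' j : ℕ, (1 : ℝ) * (s ^ (i + 1)) ^ (j + 1))
      ≤ Real.exp (s ^ (i + 1) / (1 - s)) := by
    intro i
    have hsi : s ^ (i + 1) < 1 := pow_lt_one₀ hs0 hs (Nat.succ_ne_zero i)
    have hsi' : s ^ (i + 1) ≤ s := by
      rw [pow_succ]; exact mul_le_of_le_one_left hs0 (pow_le_one₀ hs0 hs.le)
    have h2 : ∑' j : ℕ, (1 : ℝ) * (s ^ (i + 1)) ^ (j + 1) = s ^ (i + 1) / (1 - s ^ (i + 1)) := by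
      have : (fun j : ℕ => (1 : ℝ) * (s ^ (i + 1)) ^ (j + 1))
          = fun j : ℕ => s ^ (i + 1) * (s ^ (i + 1)) ^ j := by
        funext j; rw [one_mul, pow_succ, mul_comm]
      rw [this, tsum_mul_left, tsum_geometric_of_lt_one (by positivity) hsi]
      rfl
    rw [h2]
    have h3 : s ^ (i + 1) / (1 - s ^ (i + 1)) ≤ s ^ (i + 1) / (1 - s) := by
      gcongr
    have := Real.add_one_le_exp (s ^ (i + 1) / (1 - s))
    linarith
  calc ∏ i ∈ Finset.range K, (1 + ∑' j : ℕ, (1 : ℝ) * (s ^ (i + 1)) ^ (j + 1))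
      ≤ ∏ i ∈ Finset.range K, Real.exp (s ^ (i + 1) / (1 - s)) := by
        refine Finset.prod_le_prod (fun i _ => ?_) (fun i _ => h1 i)
        have : 0 ≤ ∑' j : ℕ, (1 : ℝ) * (s ^ (i + 1)) ^ (j + 1) :=
          tsum_nonneg (fun j => by positivity)
        linarith
    _ = Real.exp (∑ i ∈ Finset.range K, s ^ (i + 1) / (1 - s)) := (Real.exp_sum _ _).symm
    _ ≤ _ := by
        refine Real.exp_le_exp.2 (hsum.sum_le_tsum _ (fun i _ => by positivity))

/-- The generating function is the limit of the finite products of rows. -/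
theorem tendsto_prod_rows {ε : ℕ → ℕ → ℂ} (hε : ∀ i j, ‖ε i j‖ ≤ 1) {z : ℂ} (hz : ‖z‖ < 1) :
    Tendsto (fun K => ∏ i ∈ Finset.range K,
        (1 + ∑' j, ε (i + 1) (j + 1) * (z ^ (i + 1)) ^ (j + 1))) atTop
      (𝓝 (∑' n, PowerSeries.coeff n (Nat.Partition.genFun ε) * z ^ n)) := by
  obtain ⟨s, hs1, hs2⟩ := exists_between hz
  have hs0 : 0 < s := (norm_nonneg z).trans_lt hs1
  set C := Real.exp (∑' i : ℕ, s ^ (i + 1) / (1 - s)) with hC
  have hQ : ∀ K n, PowerSeries.coeff n (∏ i ∈ Finset.range K, rowE (fun _ => (1 : ℝ)) (i + 1))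
      * s ^ n ≤ C := by
    intro K n
    have h1 := HS.prod (A := fun i => rowE (fun _ => (1 : ℝ)) (i + 1))
      (fun i => HS.rowE (c := fun _ => (1 : ℝ)) (fun _ => by simp) i
        (z := s) (by rw [Real.norm_of_nonneg hs0.le]; exact hs2)) K
    have h2 := h1.2
    have h3 : ∀ m, 0 ≤ PowerSeries.coeff m (∏ i ∈ Finset.range K,
        rowE (fun _ => (1 : ℝ)) (i + 1)) * s ^ m := by
      intro m
      have h4 := maj_prod (A := fun i => rowE (fun _ => (1 : ℂ)) (i + 1))
        (Q := fun i => rowE (fun _ => (1 : ℝ)) (i + 1)) (by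
          intro i n
          simp only [rowE, PowerSeries.coeff_mk]
          split_ifs <;> simp) K m
      have := (norm_nonneg _).trans h4
      positivity
    calc _ ≤ ∑' m, PowerSeries.coeff m (∏ i ∈ Finset.range K,
          rowE (fun _ => (1 : ℝ)) (i + 1)) * s ^ m := h2.summable.le_tsum n (fun m _ => h3 m)
      _ = _ := h2.tsum_eq
      _ ≤ C := prod_bound hs0.le hs2 K
  have hP : ∀ K n, ‖PowerSeries.coeff n (∏ i ∈ Finset.range K, rowE (ε (i + 1)) (i + 1)) * z ^ n‖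
      ≤ C * (‖z‖ / s) ^ n := by
    intro K n
    have h4 := maj_prod (A := fun i => rowE (ε (i + 1)) (i + 1))
        (Q := fun i => rowE (fun _ => (1 : ℝ)) (i + 1)) (by
          intro i n
          simp only [rowE, PowerSeries.coeff_mk]
          split_ifs
          · simp
          · exact hε _ _
          · simp) K n
    rw [norm_mul, norm_pow, div_pow]
    have h5 := hQ K n
    have h6 : 0 < s ^ n := by positivity
    calc _ ≤ PowerSeries.coeff n (∏ i ∈ Finset.range K, rowE (fun _ => (1 : ℝ)) (i + 1))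
          * ‖z‖ ^ n := by gcongr
      _ = (PowerSeries.coeff n (∏ i ∈ Finset.range K, rowE (fun _ => (1 : ℝ)) (i + 1)) * s ^ n)
          * (‖z‖ ^ n / s ^ n) := by field_simp
      _ ≤ C * (‖z‖ ^ n / s ^ n) := by gcongr
  have hlim : ∀ n, Tendsto (fun K => PowerSeries.coeff n
      (∏ i ∈ Finset.range K, rowE (ε (i + 1)) (i + 1)) * z ^ n) atTop
      (𝓝 (PowerSeries.coeff n (Nat.Partition.genFun ε) * z ^ n)) := by
    intro n
    have h1 := (Nat.Partition.hasProd_genFun ε).tendsto_prod_nat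
    have h2 := ((PowerSeries.WithPiTopology.continuous_coeff ℂ n).tendsto _).comp h1
    have h3 : (fun K => PowerSeries.coeff n (∏ i ∈ Finset.range K, rowE (ε (i + 1)) (i + 1)))
        = (PowerSeries.coeff n) ∘ (fun K => ∏ i ∈ Finset.range K, ((1 : PowerSeries ℂ)
          + ∑' j, ε (i + 1) (j + 1) • PowerSeries.X ^ ((i + 1) * (j + 1)))) := by
      funext K
      simp only [Function.comp]
      congr 1
      refine Finset.prod_congr rfl (fun i _ => ?_)
      rw [row_eq_rowE]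
    rw [← h3] at h2
    exact h2.mul_const _
  have hdct := tendsto_tsum_of_dominated_convergence (bound := fun n => C * (‖z‖ / s) ^ n)
    (f := fun K n => PowerSeries.coeff n (∏ i ∈ Finset.range K, rowE (ε (i + 1)) (i + 1)) * z ^ n)
    (g := fun n => PowerSeries.coeff n (Nat.Partition.genFun ε) * z ^ n) (𝓕 := atTop)
    ((summable_geometric_of_lt_one (by positivity) ((div_lt_one hs0).2 hs1)).mul_left C)
    hlim (Eventually.of_forall (fun K n => hP K n))
  refine hdct.congr (fun K => ?_)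
  exact (HS.prod (A := fun i => rowE (ε (i + 1)) (i + 1))
      (fun i => HS.rowE (c := ε (i + 1)) (fun j => hε _ _) i hz) K).2.tsum_eq

/-- If the generating function vanishes at `z` then one of the rows does. -/
theorem exists_row_zero {ε : ℕ → ℕ → ℂ} (hε : ∀ i j, ‖ε i j‖ ≤ 1) {z : ℂ} (hz : ‖z‖ < 1)
    (h0 : ∑' n, PowerSeries.coeff n (Nat.Partition.genFun ε) * z ^ n = 0) :
    ∃ i : ℕ, 1 + ∑' j, ε (i + 1) (j + 1) * (z ^ (i + 1)) ^ (j + 1) = 0 := by
  by_contra hne
  push Not at hne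
  have hlim := tendsto_prod_rows hε hz
  rw [h0] at hlim
  have hgeo : Summable (fun n : ℕ => ‖z‖ ^ n) := summable_geometric_of_lt_one (norm_nonneg z) hz
  have hsum : Summable (fun i : ℕ => ‖z‖ ^ (i + 1) / (1 - ‖z‖)) :=
    ((summable_nat_add_iff 1).2 hgeo).div_const _
  have h1z : 0 < 1 - ‖z‖ := by linarith
  have hsum2 : Summable (fun i : ℕ => ‖∑' j, ε (i + 1) (j + 1) * (z ^ (i + 1)) ^ (j + 1)‖) := by
    refine Summable.of_nonneg_of_le (fun i => norm_nonneg _) (fun i => ?_) hsum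
    have hsi : ‖z‖ ^ (i + 1) < 1 := pow_lt_one₀ (norm_nonneg z) hz (Nat.succ_ne_zero i)
    have hsi' : ‖z‖ ^ (i + 1) ≤ ‖z‖ := by
      rw [pow_succ]; exact mul_le_of_le_one_left (norm_nonneg z) (pow_le_one₀ (norm_nonneg z) hz.le)
    have h2 : HasSum (fun j : ℕ => (‖z‖ ^ (i + 1)) ^ (j + 1))
        (‖z‖ ^ (i + 1) / (1 - ‖z‖ ^ (i + 1))) := by
      have : (fun j : ℕ => (‖z‖ ^ (i + 1)) ^ (j + 1))
          = fun j : ℕ => ‖z‖ ^ (i + 1) * (‖z‖ ^ (i + 1)) ^ j := by
        funext j; rw [pow_succ, mul_comm]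
      rw [this, div_eq_mul_inv]
      exact (hasSum_geometric_of_lt_one (by positivity) hsi).mul_left _
    have h3 : ‖∑' j, ε (i + 1) (j + 1) * (z ^ (i + 1)) ^ (j + 1)‖
        ≤ ‖z‖ ^ (i + 1) / (1 - ‖z‖ ^ (i + 1)) := by
      refine tsum_of_norm_bounded h2 (fun j => ?_)
      rw [norm_mul, norm_pow, norm_pow]
      exact mul_le_of_le_one_left (by positivity) (hε _ _)
    refine h3.trans ?_
    gcongr
  have hm := multipliable_one_add_of_summable hsum2
  have h2 := hm.hasProd.tendsto_prod_nat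
  have h3 := tendsto_nhds_unique h2 hlim
  exact tprod_one_add_ne_zero_of_summable hne hsum2 h3

end Pool.Agent.Work.MP_6f8877_nt
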