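import Mathlib

/-!
# The Graeffe transform of integer polynomials
-/

set_option autoImplicit false

open Polynomial

namespace Pool.Agent.Work.MP_6f8877_nt.EP

/-- The Graeffe transform. -/
noncomputable def gr (A : ℤ[X]) : ℤ[X] := (contract 2 A) ^ 2 - X * (contract 2 (divX A)) ^ 2

lemma split_eo (A : ℤ[X]) :
    A = expand ℤ 2 (contract 2 A) + X * expand ℤ 2 (contract 2 (divX A)) := by
  ext n
  rw [coeff_add, coeff_expand (by norm_num), coeff_contract (by norm_num)]
  rcases Nat.eq_zero_or_pos n with rfl | hn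
  · simp
  obtain ⟨k, rfl⟩ : ∃ k, n = k + 1 := ⟨n - 1, by omega⟩
  rw [coeff_X_mul, coeff_expand (by norm_num), coeff_contract (by norm_num), coeff_divX]
  rcases Nat.even_or_odd' (k + 1) with ⟨c, hc | hc⟩
  · have h1 : 2 ∣ k + 1 := ⟨c, hc⟩
    have h2 : ¬ 2 ∣ k := by omega
    rw [if_pos h1, if_neg h2, Nat.div_mul_cancel h1, add_zero]
  · have h1 : ¬ 2 ∣ k + 1 := by omega
    have h2 : 2 ∣ k := by omega
    rw [if_neg h1, if_pos h2, Nat.div_mul_cancel h2, zero_add]

theorem ev_gr (A : ℤ[X]) (z : ℂ) : aeval (z ^ 2) (gr A) = aeval z A * aeval (-z) A := by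
  have h1 : aeval z A = aeval (z ^ 2) (contract 2 A) + z * aeval (z ^ 2) (contract 2 (divX A)) := by
    conv_lhs => rw [split_eo A]
    rw [map_add, map_mul, aeval_X, expand_aeval, expand_aeval]
  have h2 : aeval (-z) A = aeval (z ^ 2) (contract 2 A) - z * aeval (z ^ 2) (contract 2 (divX A)) := by
    conv_lhs => rw [split_eo A]
    rw [map_add, map_mul, aeval_X, expand_aeval, expand_aeval, neg_sq]
    ring
  rw [h1, h2, gr, map_sub, map_mul, map_pow, map_pow, aeval_X]
  ring

theorem gr_coeff_zero {A : ℤ[X]} (h : A.coeff 0 = 1) : (gr A).coeff 0 = 1 := by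
  rw [gr, coeff_sub, mul_coeff_zero, coeff_X_zero, zero_mul, sub_zero, sq, mul_coeff_zero,
    coeff_contract (by norm_num), zero_mul, h, one_mul]

theorem natDegree_contract_le (A : ℤ[X]) {D : ℕ} (h : A.natDegree ≤ D) :
    2 * (contract 2 A).natDegree ≤ D := by
  by_contra hcon
  push Not at hcon
  have h1 : (contract 2 A).natDegree ≠ 0 := by omega
  have h2 : (contract 2 A) ≠ 0 := by
    intro h0
    rw [h0, natDegree_zero] at h1
    exact h1 rfl
  have h3 := leadingCoeff_ne_zero.2 h2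
  rw [leadingCoeff, coeff_contract (by norm_num)] at h3
  exact h3 (coeff_eq_zero_of_natDegree_lt (by omega))

theorem gr_natDegree {A : ℤ[X]} {D : ℕ} (h : A.natDegree ≤ D) : (gr A).natDegree ≤ D := by
  have h1 := natDegree_contract_le A h
  refine (natDegree_sub_le _ _).trans (max_le ?_ ?_)
  · exact (natDegree_pow_le (n := 2)).trans h1
  · rcases Nat.eq_zero_or_pos A.natDegree with h0 | h0
    · have : divX A = 0 := by
        rw [eq_C_of_natDegree_eq_zero h0, divX_C]
      rw [this, show contract 2 (0 : ℤ[X]) = 0 by ext n; simp [coeff_contract]]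
      simp
    · have h2 : (divX A).natDegree ≤ D - 1 := by
        rw [natDegree_divX_eq_natDegree_tsub_one]
        omega
      have h3 := natDegree_contract_le (divX A) h2
      refine natDegree_mul_le.trans ?_
      rw [natDegree_X]
      have h4 : ((contract 2 (divX A)) ^ 2).natDegree ≤ D - 1 := (natDegree_pow_le (n := 2)).trans h3
      omega

theorem contract_sub' (A B : ℤ[X]) : contract 2 (A - B) = contract 2 A - contract 2 B := by
  ext n
  simp [coeff_contract]

theorem dvd_contract {A : ℤ[X]} {c : ℤ} (h : C c ∣ A) : C c ∣ contract 2 A := by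
  rw [C_dvd_iff_dvd_coeff] at h ⊢
  intro i
  rw [coeff_contract (by norm_num)]
  exact h _

theorem gr_congr {A B : ℤ[X]} {i : ℕ} (hi : 1 ≤ i) (h : C ((2 : ℤ) ^ i) ∣ A - B) :
    C ((2 : ℤ) ^ (i + 1)) ∣ gr A - gr B := by
  have h1 := dvd_contract h
  rw [contract_sub'] at h1
  have h2 : C ((2 : ℤ) ^ i) ∣ divX A - divX B := by
    rw [C_dvd_iff_dvd_coeff] at h ⊢
    intro n
    rw [coeff_sub, coeff_divX, coeff_divX, ← coeff_sub]
    exact h _
  have h3 := dvd_contract h2
  rw [contract_sub'] at h3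
  obtain ⟨e, he⟩ := h1
  obtain ⟨o, ho⟩ := h3
  obtain ⟨j, rfl⟩ : ∃ j, i = j + 1 := ⟨i - 1, by omega⟩
  have he' : contract 2 A = contract 2 B + C ((2 : ℤ) ^ (j + 1)) * e := by
    rw [← he]; ring
  have ho' : contract 2 (divX A) = contract 2 (divX B) + C ((2 : ℤ) ^ (j + 1)) * o := by
    rw [← ho]; ring
  refine ⟨contract 2 B * e + C ((2 : ℤ) ^ j) * e ^ 2 - X * (contract 2 (divX B) * o +
    C ((2 : ℤ) ^ j) * o ^ 2), ?_⟩
  rw [gr, gr, he', ho']
  simp only [map_pow, pow_succ, map_mul]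
  have h2 : (C (2 : ℤ) : ℤ[X]) = 2 := rfl
  rw [h2]
  ring

/-- Constant coefficient `1`, degree at most `D`, no zero in the open disc. -/
structure Good (D : ℕ) (A : ℤ[X]) : Prop where
  zero : A.coeff 0 = 1
  deg : A.natDegree ≤ D
  ne : ∀ z : ℂ, ‖z‖ < 1 → aeval z A ≠ 0

theorem Good.gr {D : ℕ} {A : ℤ[X]} (h : Good D A) : Good D (gr A) where
  zero := gr_coeff_zero h.zero
  deg := gr_natDegree h.deg
  ne := by
    intro w hw h0
    obtain ⟨z, rfl⟩ := IsAlgClosed.exists_pow_nat_eq w (n := 2) (by norm_num)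
    have hz : ‖z‖ < 1 := by
      rw [norm_pow] at hw
      by_contra hcon
      push Not at hcon
      have := one_le_pow₀ hcon (n := 2)
      linarith
    rw [ev_gr, mul_eq_zero] at h0
    rcases h0 with h0 | h0
    · exact h.ne z hz h0
    · exact h.ne (-z) (by rwa [norm_neg]) h0

theorem Good.iter {D : ℕ} {A : ℤ[X]} (h : Good D A) (j : ℕ) : Good D (EP.gr^[j] A) := by
  induction j with
  | zero => exact h
  | succ j ih => rw [Function.iterate_succ_apply']; exact ih.gr

/-- The coefficients of a good polynomial are bounded. -/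
theorem Good.coeff_le {D : ℕ} {A : ℤ[X]} (h : Good D A) (n : ℕ) : |A.coeff n| ≤ 2 ^ D := by
  set p : ℂ[X] := A.map (Int.castRingHom ℂ) with hp
  have hinj : Function.Injective (Int.castRingHom ℂ) := RingHom.injective_int _
  have hdeg : p.natDegree ≤ D := by
    rw [hp, natDegree_map_eq_of_injective hinj]
    exact h.deg
  have hp0 : p.coeff 0 = 1 := by rw [hp, coeff_map, h.zero]; simp
  have hpne : p ≠ 0 := by
    intro h0
    rw [h0, coeff_zero] at hp0
    exact zero_ne_one hp0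
  have hroot : ∀ a ∈ p.roots, 1 ≤ ‖a‖ := by
    intro a ha
    by_contra hcon
    push Not at hcon
    have h1 := (mem_roots hpne).1 ha
    rw [IsRoot.def, hp, eval_map] at h1
    exact h.ne a hcon h1
  have hM : p.mahlerMeasure = 1 := by
    rw [mahlerMeasure_eq_leadingCoeff_mul_prod_roots]
    have h1 : (p.roots.map (fun a => max 1 ‖a‖)) = p.roots.map (fun a => ‖a‖) :=
      Multiset.map_congr rfl fun a ha => max_eq_right (hroot a ha)
    rw [h1]
    have h2 := (IsAlgClosed.splits p).coeff_zero_eq_leadingCoeff_mul_prod_roots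
    have h3 := congrArg norm h2
    rw [hp0, norm_one, norm_mul, norm_mul, norm_pow, norm_neg, norm_one, one_pow, one_mul] at h3
    have h4 : ‖p.roots.prod‖ = (p.roots.map (fun a => ‖a‖)).prod := by
      exact map_multiset_prod (normHom (α := ℂ)) p.roots
    rw [← h4, ← h3]
  have h1 := norm_coeff_le_choose_mul_mahlerMeasure n p
  rw [hM, mul_one, hp, coeff_map] at h1
  have h2 : ((p.natDegree.choose n : ℕ) : ℝ) ≤ 2 ^ D := by
    have : p.natDegree.choose n ≤ 2 ^ D :=
      (Nat.choose_le_two_pow _ _).trans (Nat.pow_le_pow_right (by norm_num) hdeg)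
    exact_mod_cast this
  have h3 : ‖((A.coeff n : ℤ) : ℂ)‖ ≤ 2 ^ D := by
    rw [hp] at h2
    exact (by simpa using h1 : ‖((A.coeff n : ℤ) : ℂ)‖ ≤ _).trans h2
  rw [Complex.norm_intCast] at h3
  exact_mod_cast h3

theorem gr_iter_congr {A B : ℤ[X]} (h : C (2 : ℤ) ∣ A - B) (j : ℕ) :
    C ((2 : ℤ) ^ (j + 1)) ∣ gr^[j] A - gr^[j] B := by
  induction j with
  | zero => simpa using h
  | succ j ih =>
    rw [Function.iterate_succ_apply', Function.iterate_succ_apply']
    exact gr_congr (by omega) ih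

/-- Graeffe rigidity. -/
theorem gr_iter_eq {D : ℕ} {A B : ℤ[X]} (hA : Good D A) (hB : Good D B) (h : C (2 : ℤ) ∣ A - B)
    {j : ℕ} (hj : D < j) : gr^[j] A = gr^[j] B := by
  ext n
  have h1 := (C_dvd_iff_dvd_coeff _ _).1 (gr_iter_congr h j) n
  rw [coeff_sub] at h1
  have h2 := (hA.iter j).coeff_le n
  have h3 := (hB.iter j).coeff_le n
  have h4 : |(gr^[j] A).coeff n - (gr^[j] B).coeff n| < 2 ^ (j + 1) := by
    calc _ ≤ |(gr^[j] A).coeff n| + |(gr^[j] B).coeff n| := abs_sub _ _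
      _ ≤ 2 ^ D + 2 ^ D := add_le_add h2 h3
      _ = 2 ^ (D + 1) := by ring
      _ < 2 ^ (j + 1) := pow_lt_pow_right₀ (by norm_num) (by omega)
  have h5 := Int.eq_zero_of_abs_lt_dvd h1 h4
  linarith

/-- The product over the roots of unity. -/
theorem prod_prim (j : ℕ) : ∀ (A : ℤ[X]) (ω w : ℂ), IsPrimitiveRoot ω (2 ^ j) →
    ∏ b ∈ Finset.range (2 ^ j), aeval (ω ^ b * w) A = aeval (w ^ 2 ^ j) (gr^[j] A) := by
  induction j with
  | zero => intro A ω w _; simp
  | succ j ih =>
    intro A ω w hω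
    have hneg : ω ^ 2 ^ j = -1 := by
      have h1 : IsPrimitiveRoot (ω ^ 2 ^ j) 2 := hω.pow (by positivity) (by ring)
      exact h1.eq_neg_one_of_two_right
    have h2 : IsPrimitiveRoot (ω ^ 2) (2 ^ j) := hω.pow (by positivity) (by ring)
    rw [show 2 ^ (j + 1) = 2 ^ j + 2 ^ j by ring, Finset.prod_range_add, ← Finset.prod_mul_distrib,
      Function.iterate_succ_apply, show w ^ (2 ^ j + 2 ^ j) = (w ^ 2) ^ 2 ^ j by rw [← pow_mul]; congr 1; ring,
      ← ih (gr A) (ω ^ 2) (w ^ 2) h2]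
    refine Finset.prod_congr rfl fun b _ => ?_
    have e1 : (ω ^ 2) ^ b * w ^ 2 = (ω ^ b * w) ^ 2 := by ring
    have e2 : ω ^ (2 ^ j + b) * w = -(ω ^ b * w) := by rw [pow_add, hneg]; ring
    rw [e1, ev_gr, e2]

end Pool.Agent.Work.MP_6f8877_nt.EP
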