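import Pool.Agent.Work.MP_6f8877_nt.Rows2
import Pool.Agent.Work.MP_6f8877_nt.Core

/-!
# Sign choices with recurrent rows
-/

set_option autoImplicit false

open Filter Topology Metric

namespace Pool.Agent.Work.MP_6f8877_nt

/-- The coefficients of the signed product. -/
def aco (ε : ℕ → ℕ → ℤ) (m : ℕ) : ℤ :=
  ∑ p : Nat.Partition m, ∏ i ∈ p.parts.toFinset, ε i (p.parts.count i)

theorem eC_norm {ε : ℕ → ℕ → ℤ} (hε : ∀ n k, ε n k = 1 ∨ ε n k = -1) :
    ∀ i j, ‖(ε i j : ℂ)‖ ≤ 1 := by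
  intro i j
  rcases hε i j with h1 | h1 <;> rw [h1] <;> simp

theorem coeff_aco (ε : ℕ → ℕ → ℤ) (n : ℕ) :
    PowerSeries.coeff n (Nat.Partition.genFun (fun i j => (ε i j : ℂ))) = (aco ε n : ℂ) := by
  rw [Nat.Partition.coeff_genFun, aco]
  push_cast
  rfl

theorem zero_in_disc {ε : ℕ → ℕ → ℤ} (hε : ∀ n k, ε n k = 1 ∨ ε n k = -1)
    (h : ∀ m : ℕ, |aco ε m| ≤ 1) :
    ∃ k : ℕ, 1 ≤ k ∧ k ≤ 42 ∧ ∃ y : ℂ, ‖y‖ < (123 / 125) ^ k ∧
      rowf (fun j => (ε k j : ℂ)) y = 0 := by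
  have h0 : aco ε 0 = 1 := by
    rw [aco, Fintype.sum_unique]
    rfl
  obtain ⟨z, hz, hz0⟩ := core (a := aco ε) h0 h (fun n hn => coeff_parity ε hε n hn)
  have hEn := eC_norm hε
  have hz1 : ‖z‖ < 1 := hz.trans (by norm_num)
  obtain ⟨i, hi⟩ := exists_row_zero hEn hz1 (by simpa only [coeff_aco] using hz0)
  have hzi : ‖z ^ (i + 1)‖ < (123 / 125) ^ (i + 1) := by
    rw [norm_pow]
    exact pow_lt_pow_left₀ hz (norm_nonneg z) (Nat.succ_ne_zero i)
  refine ⟨i + 1, by omega, ?_, z ^ (i + 1), hzi, hi⟩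
  by_contra hlt
  push Not at hlt
  have hsmall : ‖z ^ (i + 1)‖ < 1 / 2 := by
    refine hzi.trans_le ((pow_le_pow_of_le_one (by norm_num) (by norm_num)
      (by omega : 43 ≤ i + 1)).trans ?_)
    norm_num
  set y := z ^ (i + 1) with hy
  have hy0 : 0 ≤ ‖y‖ := norm_nonneg y
  have hsum : HasSum (fun j : ℕ => ‖y‖ ^ (j + 1)) (‖y‖ / (1 - ‖y‖)) := by
    have h2 : (fun j : ℕ => ‖y‖ ^ (j + 1)) = fun j : ℕ => ‖y‖ * ‖y‖ ^ j := by
      funext j; rw [pow_succ, mul_comm]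
    rw [h2, div_eq_mul_inv]
    exact (hasSum_geometric_of_lt_one hy0 (by linarith)).mul_left _
  have hle : ‖∑' j : ℕ, (ε (i + 1) (j + 1) : ℂ) * y ^ (j + 1)‖ ≤ ‖y‖ / (1 - ‖y‖) := by
    refine tsum_of_norm_bounded hsum (fun j => ?_)
    rw [norm_mul, norm_pow]
    exact mul_le_of_le_one_left (by positivity) (hEn _ _)
  have h1 : ∑' j : ℕ, (ε (i + 1) (j + 1) : ℂ) * y ^ (j + 1) = -1 := by
    linear_combination hi
  rw [h1, norm_neg, norm_one, le_div_iff₀ (by linarith)] at hle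
  linarith

theorem geom_exp {x : ℝ} (hx : 0 < x) : (1 - Real.exp (-x))⁻¹ ≤ 1 + 1 / x := by
  have h1 : Real.exp (-x) ≤ 1 / (1 + x) := by
    rw [Real.exp_neg, ← one_div]
    refine one_div_le_one_div_of_le (by positivity) ?_
    have := Real.add_one_le_exp x
    linarith
  have h2 : x / (1 + x) ≤ 1 - Real.exp (-x) := by
    have : x / (1 + x) = 1 - 1 / (1 + x) := by field_simp; ring
    linarith
  calc (1 - Real.exp (-x))⁻¹ ≤ (x / (1 + x))⁻¹ := inv_anti₀ (by positivity) h2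
    _ = 1 + 1 / x := by field_simp; ring

/-- Bound for the generating function when the coefficients are bounded by
`A * exp (c * sqrt n)`. -/
theorem GF_le {ε : ℕ → ℕ → ℤ} (hε : ∀ n k, ε n k = 1 ∨ ε n k = -1) {A c : ℝ} (hA : 0 ≤ A)
    (hb : ∀ n : ℕ, |((aco ε n : ℤ) : ℝ)| ≤ A * Real.exp (c * Real.sqrt n)) {x : ℝ} (hx : 0 < x)
    {z : ℂ} (hz : ‖z‖ = Real.exp (-x)) :
    ‖GF (fun i j => (ε i j : ℂ)) z‖ ≤ A * Real.exp (c ^ 2 / (2 * x)) * (1 + 2 / x) := by
  have hx2 : 0 < x / 2 := by linarith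
  have h1 : HasSum (fun n : ℕ => A * Real.exp (c ^ 2 / (2 * x)) * Real.exp (-(x / 2)) ^ n)
      (A * Real.exp (c ^ 2 / (2 * x)) * (1 - Real.exp (-(x / 2)))⁻¹) :=
    (hasSum_geometric_of_lt_one (Real.exp_pos _).le
      (by rw [Real.exp_lt_one_iff]; linarith)).mul_left _
  have h2 : ‖GF (fun i j => (ε i j : ℂ)) z‖ ≤
      A * Real.exp (c ^ 2 / (2 * x)) * (1 - Real.exp (-(x / 2)))⁻¹ := by
    refine tsum_of_norm_bounded h1 fun n => ?_
    rw [coeff_aco, norm_mul, norm_pow, hz, Complex.norm_intCast]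
    have h3 : c * Real.sqrt n - x * n ≤ c ^ 2 / (2 * x) - x / 2 * n := by
      have h4 : Real.sqrt n * Real.sqrt n = n := Real.mul_self_sqrt (Nat.cast_nonneg n)
      have h5 : 0 ≤ (c - x * Real.sqrt n) ^ 2 / (2 * x) := by positivity
      have h6 : (c - x * Real.sqrt n) ^ 2 / (2 * x) =
          c ^ 2 / (2 * x) - c * Real.sqrt n + x / 2 * n := by
        rw [div_eq_iff (by positivity)]
        have h7 : c ^ 2 / (2 * x) * (2 * x) = c ^ 2 := by field_simp
        linear_combination (-1 : ℝ) * h7 + x ^ 2 * h4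
      linarith
    calc |((aco ε n : ℤ) : ℝ)| * Real.exp (-x) ^ n
        ≤ A * Real.exp (c * Real.sqrt n) * Real.exp (-x) ^ n := by
          gcongr
          exact hb n
      _ = A * Real.exp (c * Real.sqrt n - x * n) := by
          rw [← Real.exp_nat_mul, mul_assoc, ← Real.exp_add]
          congr 2
          ring
      _ ≤ A * Real.exp (c ^ 2 / (2 * x) - x / 2 * n) := by gcongr
      _ = A * Real.exp (c ^ 2 / (2 * x)) * Real.exp (-(x / 2)) ^ n := by
          rw [← Real.exp_nat_mul, mul_assoc, ← Real.exp_add]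
          congr 2
          ring
  refine h2.trans ?_
  have h3 := geom_exp hx2
  have h4 : 1 + 1 / (x / 2) = 1 + 2 / x := by field_simp
  rw [h4] at h3
  gcongr

/-- Bound for the generating function when the coefficients are bounded by `1`. -/
theorem GF_le_one {ε : ℕ → ℕ → ℤ} (hε : ∀ n k, ε n k = 1 ∨ ε n k = -1)
    (h : ∀ m : ℕ, |aco ε m| ≤ 1) {x : ℝ} (hx : 0 < x) {z : ℂ} (hz : ‖z‖ = Real.exp (-x)) :
    ‖GF (fun i j => (ε i j : ℂ)) z‖ ≤ 1 + 1 / x := by
  have h1 : HasSum (fun n : ℕ => Real.exp (-x) ^ n) (1 - Real.exp (-x))⁻¹ :=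
    hasSum_geometric_of_lt_one (Real.exp_pos _).le (by rw [Real.exp_lt_one_iff]; linarith)
  refine le_trans (tsum_of_norm_bounded h1 fun n => ?_) (geom_exp hx)
  rw [coeff_aco, norm_mul, norm_pow, hz, Complex.norm_intCast]
  have h2 : |((aco ε n : ℤ) : ℝ)| ≤ 1 := by exact_mod_cast h n
  exact mul_le_of_le_one_left (by positivity) h2

/-- In a valid sign choice rows with a zero in a smaller disc are rare. -/
theorem rare {ε : ℕ → ℕ → ℤ} (hε : ∀ n k, ε n k = 1 ∨ ε n k = -1)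
    (h : ∀ m : ℕ, |aco ε m| ≤ 1) {ρ : ℝ} (hρ0 : 0 < ρ) (hρ1 : ρ < 1) {K : ℕ} (hK : 1 ≤ K)
    {S : Finset ℕ} (hS : S ⊆ Finset.Icc 1 K)
    (hz : ∀ k ∈ S, ∃ y : ℂ, ‖y‖ ≤ ρ ∧ rowf (fun j => (ε k j : ℂ)) y = 0) :
    (S.card : ℝ) ≤ 2 / (-Real.log ρ) * Real.log (1 + 2 * K / (-Real.log ρ)) := by
  have hl : Real.log ρ < 0 := Real.log_neg hρ0 hρ1
  have hK0 : (0 : ℝ) < K := by exact_mod_cast hK
  have h1 := card_le (ε := fun i j => (ε i j : ℂ)) (eC_norm hε) hρ0 hρ1 hK hS hz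
    (M := 1 + 2 * K / (-Real.log ρ)) (fun z hz => by
      have hx : 0 < -Real.log ρ / (2 * K) := div_pos (by linarith) (by positivity)
      have h2 := GF_le_one hε h hx (z := z) (by rw [hz]; congr 1; ring)
      refine h2.trans (le_of_eq ?_)
      rw [one_div_div])
  have h3 : 0 < -Real.log ρ := by linarith
  rw [div_mul_eq_mul_div, le_div_iff₀ h3]
  linarith

theorem log_le_lin {t s : ℝ} (ht : 0 < t) (hs : 0 < s) : Real.log t ≤ s * t - 1 - Real.log s := by
  have h1 := Real.log_le_sub_one_of_pos (mul_pos hs ht)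
  rw [Real.log_mul hs.ne' ht.ne'] at h1
  linarith

/-- If the first `J` entries of rows are periodic in the row index and some row has a zero in the
unit disc then the coefficients grow exponentially in the square root of the index. -/
theorem growth {ε : ℕ → ℕ → ℤ} (hε : ∀ n k, ε n k = 1 ∨ ε n k = -1) {k₀ : ℕ} (hk₀ : 1 ≤ k₀)
    {ρ : ℝ} (hρ0 : 0 < ρ) (hρ1 : ρ < 1) {T : ℕ} (hT : 1 ≤ T)
    (hz : ∀ n : ℕ, ∃ y : ℂ, ‖y‖ ≤ ρ ∧ rowf (fun j => (ε (k₀ + T * n) j : ℂ)) y = 0) :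
    ∃ c : ℝ, 0 < c ∧ ∀ N : ℕ, ∃ m ≥ N, Real.exp (c * Real.sqrt m) ≤ |((aco ε m : ℤ) : ℝ)| := by
  set l := -Real.log ρ with hl
  have hl0 : 0 < l := by
    have := Real.log_neg hρ0 hρ1
    rw [hl]; linarith
  have hT0 : (0 : ℝ) < T := by exact_mod_cast hT
  have hsT : 0 < Real.sqrt T := Real.sqrt_pos.2 hT0
  refine ⟨l / (2 * Real.sqrt T), by positivity, ?_⟩
  set c := l / (2 * Real.sqrt T) with hc
  have hc2 : c ^ 2 = l ^ 2 / (4 * T) := by
    rw [hc, div_pow, mul_pow, Real.sq_sqrt hT0.le]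
    norm_num
  by_contra hcon
  push Not at hcon
  obtain ⟨N, hN⟩ := hcon
  -- a global bound
  obtain ⟨A, hA1, hA⟩ : ∃ A : ℝ, 1 ≤ A ∧
      ∀ n : ℕ, |((aco ε n : ℤ) : ℝ)| ≤ A * Real.exp (c * Real.sqrt n) := by
    refine ⟨1 + ∑ n ∈ Finset.range N, |((aco ε n : ℤ) : ℝ)|, ?_, fun n => ?_⟩
    · have : 0 ≤ ∑ n ∈ Finset.range N, |((aco ε n : ℤ) : ℝ)| :=
        Finset.sum_nonneg fun _ _ => abs_nonneg _
      linarith
    · have h0 : 0 ≤ ∑ n ∈ Finset.range N, |((aco ε n : ℤ) : ℝ)| :=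
        Finset.sum_nonneg fun _ _ => abs_nonneg _
      have h1 : 1 ≤ Real.exp (c * Real.sqrt n) := Real.one_le_exp (by positivity)
      rcases lt_or_ge n N with hn | hn
      · have h2 : |((aco ε n : ℤ) : ℝ)| ≤ ∑ n ∈ Finset.range N, |((aco ε n : ℤ) : ℝ)| :=
          Finset.single_le_sum (f := fun n => |((aco ε n : ℤ) : ℝ)|) (fun _ _ => abs_nonneg _)
            (Finset.mem_range.2 hn)
        nlinarith
      · have h2 := (hN n hn).le
        nlinarith
  have hmain : ∀ n : ℕ, 1 ≤ n → l / 2 * n ≤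
      Real.log A + c ^ 2 * (k₀ + T * n) / l + Real.log (1 + 4 * (k₀ + T * n) / l) := by
    intro n hn
    set K := k₀ + T * n with hKdef
    have hK : 1 ≤ K := by omega
    have hK0 : (0 : ℝ) < K := by exact_mod_cast hK
    have hKc : (K : ℝ) = k₀ + T * n := by rw [hKdef]; push_cast; ring
    have hinj : Function.Injective (fun i : ℕ => k₀ + T * i) := by
      intro a b hab
      have h1 : T * a = T * b := Nat.add_left_cancel hab
      exact Nat.eq_of_mul_eq_mul_left (by omega) h1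
    have hcard : ((Finset.range n).image (fun i : ℕ => k₀ + T * i)).card = n := by
      rw [Finset.card_image_of_injective _ hinj, Finset.card_range]
    have h1 := card_le (ε := fun i j => (ε i j : ℂ)) (eC_norm hε) hρ0 hρ1 hK
      (S := (Finset.range n).image (fun i : ℕ => k₀ + T * i)) (by
        intro k hk
        obtain ⟨i, hi, rfl⟩ := Finset.mem_image.1 hk
        have hi' := Finset.mem_range.1 hi
        rw [Finset.mem_Icc]
        refine ⟨by omega, ?_⟩
        have : T * i ≤ T * n := Nat.mul_le_mul_left _ hi'.le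
        omega) (by
        intro k hk
        obtain ⟨i, _, rfl⟩ := Finset.mem_image.1 hk
        exact hz i)
      (M := A * Real.exp (c ^ 2 * K / l) * (1 + 4 * K / l)) (fun z hz => by
        have hx : 0 < l / (2 * K) := by positivity
        have h2 := GF_le hε (by linarith) hA hx (z := z) (by
          rw [hz]; congr 1; rw [hl]; ring)
        refine h2.trans (le_of_eq ?_)
        congr 2
        · congr 1
          field_simp
        · field_simp
          ring)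
    rw [hcard, ← hl, Real.log_mul (by positivity) (by positivity),
      Real.log_mul (by positivity) (by positivity), Real.log_exp, hKc] at h1
    exact h1
  -- contradiction for large n
  set s := l ^ 2 / (32 * T) with hs
  have hs0 : 0 < s := by positivity
  obtain ⟨n, hn⟩ := exists_nat_gt ((Real.log A + l * k₀ / (4 * T) + s * (1 + 4 * k₀ / l) - 1 -
    Real.log s) * (8 / l) + 1)
  have hn1 : 1 ≤ n + 1 := by omega
  have h1 := hmain (n + 1) hn1
  have h2 : Real.log (1 + 4 * (k₀ + T * ((n + 1 : ℕ) : ℝ)) / l) ≤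
      s * (1 + 4 * (k₀ + T * ((n + 1 : ℕ) : ℝ)) / l) - 1 - Real.log s :=
    log_le_lin (by positivity) hs0
  have h3 : c ^ 2 * (k₀ + T * ((n + 1 : ℕ) : ℝ)) / l = l * k₀ / (4 * T) + l / 4 * ((n + 1 : ℕ) : ℝ) := by
    rw [hc2]
    field_simp
  have h4 : s * (1 + 4 * (k₀ + T * ((n + 1 : ℕ) : ℝ)) / l) =
      s * (1 + 4 * k₀ / l) + l / 8 * ((n + 1 : ℕ) : ℝ) := by
    rw [hs]
    field_simp
    ring
  rw [h3] at h1
  rw [h4] at h2
  set B := Real.log A + l * k₀ / (4 * T) + s * (1 + 4 * k₀ / l) - 1 - Real.log s with hB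
  have h5 : l / 8 * ((n + 1 : ℕ) : ℝ) ≤ B := by
    rw [hB]
    linarith
  have h6 : (l / 8) * (B * (8 / l) + 1) < (l / 8) * n := mul_lt_mul_of_pos_left hn (by positivity)
  have h7 : (l / 8) * (B * (8 / l) + 1) = B + l / 8 := by field_simp
  rw [h7] at h6
  push_cast at h5
  nlinarith

end Pool.Agent.Work.MP_6f8877_nt
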