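import Pool.Agent.Work.MP_6f8877_nt.EP1
import Pool.Agent.Work.MP_6f8877_nt.Rows3

/-!
# Eventually periodic rows
-/

set_option autoImplicit false

open Polynomial Finset

namespace Pool.Agent.Work.MP_6f8877_nt.EP

/-- The coefficients of a row, with the constant coefficient. -/
def c1 (c : ℕ → ℤ) (j : ℕ) : ℤ := if j = 0 then 1 else c j

/-- The differences of the coefficients. -/
def dc (c : ℕ → ℤ) (T j : ℕ) : ℤ := c1 c j - if T ≤ j then c1 c (j - T) else 0

/-- The numerator of an eventually periodic row. -/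
noncomputable def num (c : ℕ → ℤ) (T J : ℕ) : ℤ[X] :=
  ∑ j ∈ range (J + T), C (dc c T j) * X ^ j

theorem coeff_num (c : ℕ → ℤ) (T J n : ℕ) :
    (num c T J).coeff n = if n < J + T then dc c T n else 0 := by
  rw [num, finsetSum_coeff]
  simp

theorem num_natDegree (c : ℕ → ℤ) (T J : ℕ) : (num c T J).natDegree ≤ J + T := by
  refine natDegree_sum_le_of_forall_le _ _ fun j hj => ?_
  refine (natDegree_C_mul_X_pow_le _ _).trans ?_
  have := mem_range.1 hj
  omega

theorem hasSum_row {c : ℕ → ℤ} (hc : ∀ j, 1 ≤ j → c j = 1 ∨ c j = -1) {y : ℂ} (hy : ‖y‖ < 1) :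
    HasSum (fun j => (c1 c j : ℂ) * y ^ j) (rowf (fun j => (c j : ℂ)) y) := by
  have hgeo : Summable (fun j : ℕ => ‖y‖ ^ (j + 1)) :=
    (summable_nat_add_iff 1).2 (summable_geometric_of_lt_one (norm_nonneg y) hy)
  have h1 : Summable (fun j : ℕ => (c (j + 1) : ℂ) * y ^ (j + 1)) := by
    refine Summable.of_norm_bounded hgeo fun j => ?_
    rw [norm_mul, norm_pow]
    have : ‖((c (j + 1) : ℤ) : ℂ)‖ = 1 := by
      rcases hc (j + 1) (by omega) with h | h <;> rw [h] <;> simp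
    rw [this, one_mul]
  rw [← hasSum_nat_add_iff' 1]
  have h2 : (fun n => (c1 c (n + 1) : ℂ) * y ^ (n + 1)) =
      fun j : ℕ => (c (j + 1) : ℂ) * y ^ (j + 1) := by
    funext j
    simp [c1]
  rw [h2]
  have h3 : rowf (fun j => (c j : ℂ)) y - ∑ i ∈ range 1, (c1 c i : ℂ) * y ^ i =
      ∑' j : ℕ, (c (j + 1) : ℂ) * y ^ (j + 1) := by
    simp [rowf, c1]
  rw [h3]
  exact h1.hasSum

theorem num_eval {c : ℕ → ℤ} (hc : ∀ j, 1 ≤ j → c j = 1 ∨ c j = -1) {T J : ℕ} (hJ : 1 ≤ J)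
    (hper : ∀ j, J ≤ j → c (j + T) = c j) {y : ℂ} (hy : ‖y‖ < 1) :
    aeval y (num c T J) = (1 - y ^ T) * rowf (fun j => (c j : ℂ)) y := by
  have h1 := hasSum_row hc hy
  have h2 : HasSum (fun j => if T ≤ j then (c1 c (j - T) : ℂ) * y ^ j else 0)
      (y ^ T * rowf (fun j => (c j : ℂ)) y) := by
    rw [← hasSum_nat_add_iff' T]
    have e1 : (fun n => if T ≤ n + T then (c1 c (n + T - T) : ℂ) * y ^ (n + T) else 0) =
        fun n => y ^ T * ((c1 c n : ℂ) * y ^ n) := by
      funext n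
      rw [if_pos (by omega), Nat.add_sub_cancel, pow_add]
      ring
    have e2 : ∑ i ∈ range T, (if T ≤ i then (c1 c (i - T) : ℂ) * y ^ i else 0) = 0 := by
      refine sum_eq_zero fun i hi => ?_
      have := mem_range.1 hi
      rw [if_neg (by omega)]
    rw [e1, e2, sub_zero]
    exact h1.mul_left _
  have h3 := h1.sub h2
  have h4 : (fun j => (c1 c j : ℂ) * y ^ j - if T ≤ j then (c1 c (j - T) : ℂ) * y ^ j else 0) =
      fun j => (dc c T j : ℂ) * y ^ j := by
    funext j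
    simp only [dc]
    split_ifs
    · push_cast; ring
    · push_cast; ring
  rw [h4] at h3
  have h5 : HasSum (fun j => (dc c T j : ℂ) * y ^ j) (∑ j ∈ range (J + T), (dc c T j : ℂ) * y ^ j) := by
    refine hasSum_sum_of_ne_finset_zero fun j hj => ?_
    have hj' : J + T ≤ j := by
      by_contra h
      exact hj (mem_range.2 (by omega))
    have h6 : dc c T j = 0 := by
      have h7 := hper (j - T) (by omega)
      rw [Nat.sub_add_cancel (by omega)] at h7
      rw [dc, c1, c1, if_neg (by omega), if_pos (by omega), if_neg (by omega), h7, sub_self]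
    rw [h6]
    simp
  have h6 := h5.unique h3
  have h7 : aeval y (num c T J) = ∑ j ∈ range (J + T), (dc c T j : ℂ) * y ^ j := by
    rw [num, map_sum]
    refine sum_congr rfl fun j _ => ?_
    simp
  rw [h7, h6]
  ring

theorem num_congr {c : ℕ → ℤ} (hc : ∀ j, 1 ≤ j → c j = 1 ∨ c j = -1) (T J : ℕ) :
    C (2 : ℤ) ∣ num c T J - ∑ j ∈ range T, X ^ j := by
  have hodd : ∀ j, c1 c j = 1 ∨ c1 c j = -1 := by
    intro j
    unfold c1
    split_ifs with h
    · exact Or.inl rfl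
    · exact hc j (by omega)
  rw [C_dvd_iff_dvd_coeff]
  intro n
  rw [coeff_sub, coeff_num, finsetSum_coeff]
  simp only [coeff_X_pow]
  have h1 : ∑ x ∈ range T, (if n = x then (1 : ℤ) else 0) = if n < T then 1 else 0 := by
    simp
  rw [h1, dc]
  rcases lt_or_ge n T with h | h
  · rw [if_pos (by omega), if_pos h, if_neg (by omega)]
    rcases hodd n with h2 | h2 <;> rw [h2] <;> norm_num
  · rw [if_neg (by omega : ¬ n < T), sub_zero]
    split_ifs
    · rcases hodd n with h2 | h2 <;> rcases hodd (n - T) with h3 | h3 <;> rw [h2, h3] <;> norm_num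
    · exact dvd_zero _

theorem gr_one_sub_X : gr (1 - X) = 1 - X := by
  have h1 : contract 2 (1 - X : ℤ[X]) = 1 := by
    ext n
    rw [coeff_contract (by norm_num), coeff_sub, coeff_one, coeff_X, coeff_one]
    rcases Nat.eq_zero_or_pos n with rfl | hn
    · simp
    · rw [if_neg (by omega), if_neg (by omega), if_neg (by omega), sub_zero]
  have h2 : contract 2 (divX (1 - X : ℤ[X])) = -1 := by
    ext n
    rw [coeff_contract (by norm_num), coeff_divX, coeff_sub, coeff_one, coeff_X, coeff_neg,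
      coeff_one]
    rcases Nat.eq_zero_or_pos n with rfl | hn
    · simp
    · rw [if_neg (by omega), if_neg (by omega), if_neg (by omega), sub_zero, neg_zero]
  rw [gr, h1, h2]
  ring

theorem prod_one_sub (j : ℕ) {ω : ℂ} (hω : IsPrimitiveRoot ω (2 ^ j)) (w : ℂ) :
    ∏ b ∈ range (2 ^ j), (1 - ω ^ b * w) = 1 - w ^ 2 ^ j := by
  have h1 := prod_prim j (1 - X) ω w hω
  have h2 : gr^[j] (1 - X) = 1 - X := by
    induction j with
    | zero => rfl
    | succ j ih =>
      have h3 : ∀ i, gr^[i] (1 - X) = 1 - X := by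
        intro i
        induction i with
        | zero => rfl
        | succ i ih => rw [Function.iterate_succ_apply', ih, gr_one_sub_X]
      exact h3 _
  rw [h2] at h1
  simpa using h1

/-- The product of a zero free eventually periodic row over the roots of unity. -/
theorem row_prod {c : ℕ → ℤ} (hc : ∀ j, 1 ≤ j → c j = 1 ∨ c j = -1) {T J : ℕ} (hT : 1 ≤ T)
    (hper : ∀ j, J ≤ j → c (j + T) = c j)
    (hz : ∀ y : ℂ, ‖y‖ < 1 → rowf (fun j => (c j : ℂ)) y ≠ 0) :
    ∃ j₀ : ℕ, ∀ j, j₀ ≤ j → ∀ ω : ℂ, IsPrimitiveRoot ω (2 ^ j) → ∀ w : ℂ, ‖w‖ < 1 →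
      ∏ b ∈ range (2 ^ j), rowf (fun j => (c j : ℂ)) (ω ^ b * w) = (1 - w ^ 2 ^ j)⁻¹ := by
  have hper' : ∀ j, J + 1 ≤ j → c (j + T) = c j := fun j hj => hper j (by omega)
  set P := num c T (J + 1) with hP
  have hPe : ∀ y : ℂ, ‖y‖ < 1 → aeval y P = (1 - y ^ T) * rowf (fun j => (c j : ℂ)) y :=
    fun y hy => num_eval hc (by omega) hper' hy
  have hT1 : ∀ y : ℂ, ‖y‖ < 1 → 1 - y ^ T ≠ 0 := by
    intro y hy h0
    have h1 : ‖y ^ T‖ = 1 := by rw [← sub_eq_zero.1 h0, norm_one]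
    rw [norm_pow] at h1
    have := pow_lt_one₀ (norm_nonneg y) hy (by omega : T ≠ 0)
    linarith
  have h11 : ∀ y : ℂ, ‖y‖ < 1 → 1 - y ≠ 0 := by
    intro y hy h0
    rw [← sub_eq_zero.1 h0, norm_one] at hy
    exact lt_irrefl _ hy
  set D := J + T + 5 with hD
  have hA : Good D ((1 - X) * P) := by
    refine ⟨?_, ?_, fun y hy => ?_⟩
    · rw [mul_coeff_zero, hP, coeff_num, if_pos (by omega), dc, c1, if_pos rfl,
        if_neg (by omega : ¬ T ≤ 0)]
      simp
    · refine natDegree_mul_le.trans ?_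
      have h1 : (1 - X : ℤ[X]).natDegree ≤ 1 := by
        refine (natDegree_sub_le _ _).trans ?_
        simp
      have h2 : P.natDegree ≤ J + 1 + T := num_natDegree c T (J + 1)
      omega
    · rw [map_mul, hPe y hy, map_sub, map_one, aeval_X]
      exact mul_ne_zero (h11 y hy) (mul_ne_zero (hT1 y hy) (hz y hy))
  have hB : Good D (1 - X ^ T) := by
    refine ⟨?_, ?_, fun y hy => ?_⟩
    · rw [coeff_sub, coeff_X_pow, if_neg (by omega)]
      simp
    · refine (natDegree_sub_le _ _).trans ?_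
      simp
      omega
    · simpa using hT1 y hy
  have hcong : C (2 : ℤ) ∣ (1 - X) * P - (1 - X ^ T) := by
    have h1 : (1 - X : ℤ[X]) * P - (1 - X ^ T) = (1 - X) * (P - ∑ j ∈ range T, X ^ j) := by
      rw [mul_sub, mul_neg_geom_sum]
    rw [h1]
    exact (num_congr hc T (J + 1)).mul_left _
  refine ⟨D + 1, fun j hj ω hω w hw => ?_⟩
  have hbw : ∀ b : ℕ, ‖ω ^ b * w‖ < 1 := by
    intro b
    have h1 : ‖ω‖ = 1 := hω.norm'_eq_one (by positivity)
    rw [norm_mul, norm_pow, h1, one_pow, one_mul]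
    exact hw
  have h1 := prod_prim j ((1 - X) * P) ω w hω
  rw [gr_iter_eq hA hB hcong (by omega), ← prod_prim j (1 - X ^ T) ω w hω] at h1
  have h2 : ∏ b ∈ range (2 ^ j), aeval (ω ^ b * w) ((1 - X) * P) =
      (∏ b ∈ range (2 ^ j), (1 - ω ^ b * w)) * ((∏ b ∈ range (2 ^ j), (1 - (ω ^ b * w) ^ T)) *
        ∏ b ∈ range (2 ^ j), rowf (fun j => (c j : ℂ)) (ω ^ b * w)) := by
    rw [← prod_mul_distrib, ← prod_mul_distrib]
    refine prod_congr rfl fun b _ => ?_
    rw [map_mul, hPe _ (hbw b), map_sub, map_one, aeval_X]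
  have h3 : ∏ b ∈ range (2 ^ j), aeval (ω ^ b * w) (1 - X ^ T : ℤ[X]) =
      ∏ b ∈ range (2 ^ j), (1 - (ω ^ b * w) ^ T) := by
    refine prod_congr rfl fun b _ => ?_
    simp
  have h4 : ∏ b ∈ range (2 ^ j), (1 - (ω ^ b * w) ^ T) ≠ 0 :=
    prod_ne_zero_iff.2 fun b _ => hT1 _ (hbw b)
  rw [h2, h3, prod_one_sub j hω] at h1
  have h5 : (1 - w ^ 2 ^ j) * ∏ b ∈ range (2 ^ j), rowf (fun j => (c j : ℂ)) (ω ^ b * w) = 1 := by
    have h6 : (∏ b ∈ range (2 ^ j), (1 - (ω ^ b * w) ^ T)) *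
        ((1 - w ^ 2 ^ j) * ∏ b ∈ range (2 ^ j), rowf (fun j => (c j : ℂ)) (ω ^ b * w)) =
        (∏ b ∈ range (2 ^ j), (1 - (ω ^ b * w) ^ T)) * 1 := by
      rw [mul_one]
      linear_combination h1
    exact mul_left_cancel₀ h4 h6
  exact eq_inv_of_mul_eq_one_right h5

end Pool.Agent.Work.MP_6f8877_nt.EP
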