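import Pool.Agent.Work.MP_6f8877_nt.EP2

/-!
# Lower bounds for rational rows and removal of finitely many rows
-/

set_option autoImplicit false

open Polynomial Finset Filter Topology

namespace Pool.Agent.Work.MP_6f8877_nt.EP

/-- `log |F| ≤ o (1 / s)` on the circle of radius `exp (-s)`. -/
def Up (F : ℂ → ℂ) : Prop :=
  ∀ η : ℝ, 0 < η → ∃ s₀ : ℝ, 0 < s₀ ∧ ∀ s, 0 < s → s < s₀ → ∀ z : ℂ, ‖z‖ = Real.exp (-s) →
    ‖F z‖ ≤ Real.exp (η / s)

/-- polynomial lower bound near the unit circle -/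
def LowP (F : ℂ → ℂ) : Prop :=
  ∃ (c : ℝ) (D : ℕ) (s₀ : ℝ), 0 < c ∧ 0 < s₀ ∧ ∀ s, 0 < s → s < s₀ → ∀ z : ℂ,
    ‖z‖ = Real.exp (-s) → c * s ^ D ≤ ‖F z‖

theorem exp_small {c η : ℝ} (hc : 0 < c) (hη : 0 < η) (D : ℕ) :
    ∃ s₀ : ℝ, 0 < s₀ ∧ ∀ s, 0 < s → s < s₀ → Real.exp (-(η / s)) ≤ c * s ^ D := by
  have h1 : Tendsto (fun x : ℝ => x ^ D * Real.exp (-x)) atTop (𝓝 0) :=
    Real.tendsto_pow_mul_exp_neg_atTop_nhds_zero D
  have h2 := h1.eventually_lt_const (show 0 < c * η ^ D by positivity)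
  obtain ⟨X, hX⟩ := eventually_atTop.1 h2
  refine ⟨η / (max X 1), by positivity, fun s hs hs1 => ?_⟩
  have hmax : 0 < max X 1 := by positivity
  have h3 : max X 1 ≤ η / s := by
    rw [lt_div_iff₀ hmax] at hs1
    rw [le_div_iff₀ hs]
    linarith
  have h4 := (hX (η / s) ((le_max_left _ _).trans h3)).le
  rw [div_pow, div_mul_eq_mul_div, div_le_iff₀ (by positivity)] at h4
  have h5 : η ^ D * Real.exp (-(η / s)) ≤ η ^ D * (c * s ^ D) := by
    calc _ ≤ c * η ^ D * s ^ D := h4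
      _ = _ := by ring
  exact le_of_mul_le_mul_left h5 (by positivity)

theorem LowP.mul {F G : ℂ → ℂ} (hF : LowP F) (hG : LowP G) : LowP (fun z => F z * G z) := by
  obtain ⟨c, D, s₀, hc, hs₀, h⟩ := hF
  obtain ⟨c', D', s₀', hc', hs₀', h'⟩ := hG
  refine ⟨c * c', D + D', min s₀ s₀', by positivity, lt_min hs₀ hs₀', fun s hs hs1 z hz => ?_⟩
  have h1 := h s hs (hs1.trans_le (min_le_left _ _)) z hz
  have h2 := h' s hs (hs1.trans_le (min_le_right _ _)) z hz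
  rw [norm_mul, pow_add]
  calc c * c' * (s ^ D * s ^ D') = (c * s ^ D) * (c' * s ^ D') := by ring
    _ ≤ _ := mul_le_mul h1 h2 (by positivity) (norm_nonneg _)

theorem LowP.const {a : ℂ} (ha : a ≠ 0) : LowP (fun _ => a) :=
  ⟨‖a‖, 0, 1, norm_pos_iff.2 ha, one_pos, fun s _ _ z _ => by simp⟩

theorem LowP.mono {F G : ℂ → ℂ} (hF : LowP F) {C : ℝ} (hC : 0 < C)
    (h : ∀ z, ‖z‖ < 1 → ‖F z‖ ≤ C * ‖G z‖) : LowP G := by
  obtain ⟨c, D, s₀, hc, hs₀, h'⟩ := hF
  refine ⟨c / C, D, s₀, by positivity, hs₀, fun s hs hs1 z hz => ?_⟩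
  have h1 := h' s hs hs1 z hz
  have h2 := h z (by rw [hz, Real.exp_lt_one_iff]; linarith)
  rw [div_mul_eq_mul_div, div_le_iff₀ hC]
  linarith

theorem LowP.root {k : ℕ} (hk : 1 ≤ k) (α : ℂ) : LowP (fun z => z ^ k - α) := by
  have hk0 : (0 : ℝ) < k := by exact_mod_cast hk
  have hk1 : (1 : ℝ) ≤ k := by exact_mod_cast hk
  rcases lt_or_ge ‖α‖ 1 with hα | hα
  · refine ⟨(1 - ‖α‖) / 2, 0, (1 - ‖α‖) / (2 * k), by linarith,
      div_pos (by linarith) (by positivity), fun s hs hs1 z hz => ?_⟩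
    have h1 : ‖z ^ k‖ - ‖α‖ ≤ ‖z ^ k - α‖ := norm_sub_norm_le _ _
    rw [norm_pow, hz, ← Real.exp_nat_mul] at h1
    have h2 := Real.add_one_le_exp ((k : ℝ) * -s)
    rw [lt_div_iff₀ (by positivity)] at hs1
    rw [pow_zero, mul_one]
    linarith
  · refine ⟨1 / 2, 1, 1, by norm_num, one_pos, fun s hs hs1 z hz => ?_⟩
    have h1 : ‖α‖ - ‖z ^ k‖ ≤ ‖z ^ k - α‖ := by
      rw [norm_sub_rev]
      exact norm_sub_norm_le _ _
    have h2 : ‖z ^ k‖ ≤ Real.exp (-s) := by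
      rw [norm_pow, hz]
      have h3 : Real.exp (-s) ≤ 1 := Real.exp_le_one_iff.2 (by linarith)
      calc Real.exp (-s) ^ k ≤ Real.exp (-s) ^ 1 :=
            pow_le_pow_of_le_one (Real.exp_pos _).le h3 hk
        _ = _ := pow_one _
    have h3 : Real.exp (-s) ≤ 1 - s / 2 := by
      have h4 : Real.exp (-s) ≤ 1 / (1 + s) := by
        rw [Real.exp_neg, ← one_div]
        refine one_div_le_one_div_of_le (by positivity) ?_
        have := Real.add_one_le_exp s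
        linarith
      refine h4.trans ?_
      rw [div_le_iff₀ (by positivity)]
      nlinarith
    rw [pow_one]
    linarith

theorem LowP.poly {k : ℕ} (hk : 1 ≤ k) {p : ℂ[X]} (hp : p ≠ 0) : LowP (fun z => p.eval (z ^ k)) := by
  have h1 : ∀ m : Multiset ℂ, LowP (fun z => (m.map (fun a => z ^ k - a)).prod) := by
    intro m
    induction m using Multiset.induction_on with
    | empty => simpa using LowP.const one_ne_zero
    | cons a m ih => simpa using (LowP.root hk a).mul ih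
  have h2 := (LowP.const (leadingCoeff_ne_zero.2 hp)).mul (h1 p.roots)
  have h3 : (fun z : ℂ => p.eval (z ^ k)) =
      fun z => p.leadingCoeff * (p.roots.map (fun a => z ^ k - a)).prod := by
    funext z
    conv_lhs => rw [(IsAlgClosed.splits p).eq_prod_roots]
    rw [eval_mul, eval_C, eval_multiset_prod, Multiset.map_map]
    simp
  rw [h3]
  exact h2

theorem LowP.row {c : ℕ → ℤ} (hc : ∀ j, 1 ≤ j → c j = 1 ∨ c j = -1) {T J : ℕ} (hT : 1 ≤ T)
    (hper : ∀ j, J ≤ j → c (j + T) = c j) {k : ℕ} (hk : 1 ≤ k) :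
    LowP (fun z => rowf (fun j => (c j : ℂ)) (z ^ k)) := by
  have hper' : ∀ j, J + 1 ≤ j → c (j + T) = c j := fun j hj => hper j (by omega)
  set P := num c T (J + 1) with hP
  have hPe : ∀ y : ℂ, ‖y‖ < 1 → aeval y P = (1 - y ^ T) * rowf (fun j => (c j : ℂ)) y :=
    fun y hy => num_eval hc (by omega) hper' hy
  set p : ℂ[X] := P.map (Int.castRingHom ℂ) with hp
  have hp0 : p ≠ 0 := by
    intro h0
    have h1 : p.coeff 0 = 1 := by
      rw [hp, coeff_map, hP, coeff_num, if_pos (by omega), dc, c1, if_pos rfl,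
        if_neg (by omega : ¬ T ≤ 0)]
      simp
    rw [h0, coeff_zero] at h1
    exact zero_ne_one h1
  refine (LowP.poly hk hp0).mono (C := 2) (by norm_num) fun z hz => ?_
  have hz' : ‖z ^ k‖ < 1 := by
    rw [norm_pow]
    exact pow_lt_one₀ (norm_nonneg z) hz (by omega)
  have h1 : p.eval (z ^ k) = aeval (z ^ k) P := by
    rw [hp, eval_map]
    rfl
  rw [h1, hPe _ hz', norm_mul]
  refine mul_le_mul_of_nonneg_right ?_ (norm_nonneg _)
  refine (norm_sub_le _ _).trans ?_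
  rw [norm_one, norm_pow]
  have := pow_le_one₀ (norm_nonneg (z ^ k)) hz'.le (n := T)
  linarith

theorem Up.div {F G H : ℂ → ℂ} (hF : Up F) (hG : LowP G) (h : ∀ z, ‖z‖ < 1 → F z = G z * H z) :
    Up H := by
  intro η hη
  obtain ⟨s₁, hs₁, h1⟩ := hF (η / 2) (by linarith)
  obtain ⟨c, D, s₂, hc, hs₂, h2⟩ := hG
  obtain ⟨s₃, hs₃, h3⟩ := exp_small hc (by linarith : 0 < η / 2) D
  refine ⟨min s₁ (min s₂ s₃), by positivity, fun s hs hs' z hz => ?_⟩
  have e1 := h1 s hs (hs'.trans_le (min_le_left _ _)) z hz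
  have e2 := h2 s hs (hs'.trans_le ((min_le_right _ _).trans (min_le_left _ _))) z hz
  have e3 := h3 s hs (hs'.trans_le ((min_le_right _ _).trans (min_le_right _ _)))
  rw [h z (by rw [hz, Real.exp_lt_one_iff]; linarith), norm_mul] at e1
  have e4 : Real.exp (-(η / 2 / s)) * ‖H z‖ ≤ Real.exp (η / 2 / s) :=
    (mul_le_mul_of_nonneg_right (e3.trans e2) (norm_nonneg _)).trans e1
  have e5 : Real.exp (η / s) = Real.exp (η / 2 / s) * Real.exp (η / 2 / s) := by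
    rw [← Real.exp_add]
    congr 1
    ring
  rw [e5]
  rw [Real.exp_neg, inv_mul_le_iff₀ (Real.exp_pos _)] at e4
  exact e4

/-- Remove the rows with index below `n`. -/
def cutn (ε : ℕ → ℕ → ℂ) (n : ℕ) : ℕ → ℕ → ℂ := fun i j => if i < n then 0 else ε i j

theorem cutn_norm {ε : ℕ → ℕ → ℂ} (hε : ∀ i j, ‖ε i j‖ ≤ 1) (n : ℕ) :
    ∀ i j, ‖cutn ε n i j‖ ≤ 1 := by
  intro i j
  unfold cutn
  split_ifs
  · simp
  · exact hε i j

theorem GF_cutn_one {ε : ℕ → ℕ → ℂ} (hε : ∀ i j, ‖ε i j‖ ≤ 1) {z : ℂ} (hz : ‖z‖ < 1) :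
    GF (cutn ε 1) z = GF ε z := by
  have h1 := tendsto_prod_rows hε hz
  have h2 := tendsto_prod_rows (cutn_norm hε 1) hz
  refine tendsto_nhds_unique (h2.congr fun K => ?_) h1
  refine prod_congr rfl fun i _ => ?_
  simp [cutn]

theorem GF_cutn_succ {ε : ℕ → ℕ → ℂ} (hε : ∀ i j, ‖ε i j‖ ≤ 1) {n : ℕ} (hn : 1 ≤ n) {z : ℂ}
    (hz : ‖z‖ < 1) : GF (cutn ε n) z = rowf (ε n) (z ^ n) * GF (cutn ε (n + 1)) z := by
  have h1 := GF_factor (cutn_norm hε n) hn hz
  have h2 : cutn ε n n = ε n := by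
    funext j
    simp [cutn]
  have h3 : cut (cutn ε n) n = cutn ε (n + 1) := by
    funext i j
    unfold cut cutn
    split_ifs <;> first | rfl | omega
  rw [h2, h3] at h1
  exact h1

theorem Up.cutn {ε : ℕ → ℕ → ℂ} (hε : ∀ i j, ‖ε i j‖ ≤ 1)
    (hrow : ∀ k, 1 ≤ k → LowP (fun z => rowf (ε k) (z ^ k))) (h : Up (GF ε)) (n : ℕ) :
    Up (GF (cutn ε (n + 1))) := by
  induction n with
  | zero =>
    intro η hη
    obtain ⟨s₀, hs₀, h1⟩ := h η hη
    refine ⟨s₀, hs₀, fun s hs hs' z hz => ?_⟩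
    rw [GF_cutn_one hε (by rw [hz, Real.exp_lt_one_iff]; linarith)]
    exact h1 s hs hs' z hz
  | succ n ih =>
    exact ih.div (hrow (n + 1) (by omega)) fun z hz => GF_cutn_succ hε (by omega) hz

/-- Subexponential coefficients give a subexponential generating function. -/
theorem up_of_coeff {ε : ℕ → ℕ → ℤ} (hε : ∀ n k, ε n k = 1 ∨ ε n k = -1)
    (h : ∀ c : ℝ, 0 < c → ∃ N : ℕ, ∀ m, N ≤ m →
      |((aco ε m : ℤ) : ℝ)| < Real.exp (c * Real.sqrt m)) :
    Up (GF (fun i j => (ε i j : ℂ))) := by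
  intro η hη
  obtain ⟨N, hN⟩ := h (Real.sqrt η) (Real.sqrt_pos.2 hη)
  obtain ⟨A, hA1, hA⟩ : ∃ A : ℝ, 1 ≤ A ∧
      ∀ n : ℕ, |((aco ε n : ℤ) : ℝ)| ≤ A * Real.exp (Real.sqrt η * Real.sqrt n) := by
    refine ⟨1 + ∑ n ∈ Finset.range N, |((aco ε n : ℤ) : ℝ)|, ?_, fun n => ?_⟩
    · have : 0 ≤ ∑ n ∈ Finset.range N, |((aco ε n : ℤ) : ℝ)| :=
        Finset.sum_nonneg fun _ _ => abs_nonneg _
      linarith
    · have h0 : 0 ≤ ∑ n ∈ Finset.range N, |((aco ε n : ℤ) : ℝ)| :=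
        Finset.sum_nonneg fun _ _ => abs_nonneg _
      have h1 : 1 ≤ Real.exp (Real.sqrt η * Real.sqrt n) := Real.one_le_exp (by positivity)
      rcases lt_or_ge n N with hn | hn
      · have h2 : |((aco ε n : ℤ) : ℝ)| ≤ ∑ n ∈ Finset.range N, |((aco ε n : ℤ) : ℝ)| :=
          Finset.single_le_sum (f := fun n => |((aco ε n : ℤ) : ℝ)|) (fun _ _ => abs_nonneg _)
            (Finset.mem_range.2 hn)
        nlinarith
      · have h2 := (hN n hn).le
        nlinarith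
  obtain ⟨s₀, hs₀, h1⟩ := exp_small (c := 1 / (3 * A)) (η := η / 2) (by positivity)
    (by linarith) 1
  refine ⟨min s₀ 1, by positivity, fun s hs hs' z hz => ?_⟩
  have h2 := GF_le hε (by linarith : 0 ≤ A) hA hs hz
  rw [Real.sq_sqrt hη.le] at h2
  refine h2.trans ?_
  have h3 := h1 s hs (hs'.trans_le (min_le_left _ _))
  have hs1 : s < 1 := hs'.trans_le (min_le_right _ _)
  rw [pow_one, Real.exp_neg, inv_le_iff_one_le_mul₀ (Real.exp_pos _)] at h3
  have h4 : 1 + 2 / s ≤ 3 / s := by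
    have : 1 ≤ 1 / s := by rw [le_div_iff₀ hs]; linarith
    have h5 : 3 / s = 1 / s + 2 / s := by ring
    linarith
  have h5 : A * (1 + 2 / s) ≤ Real.exp (η / 2 / s) := by
    have h6 : A * (3 / s) ≤ Real.exp (η / 2 / s) := by
      have h7 : 1 / (3 * A) * s * Real.exp (η / 2 / s) = Real.exp (η / 2 / s) / (3 * A / s) := by
        field_simp
      rw [h7, le_div_iff₀ (by positivity), one_mul] at h3
      calc A * (3 / s) = 3 * A / s := by ring
        _ ≤ _ := h3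
    exact (mul_le_mul_of_nonneg_left h4 (by linarith)).trans h6
  have h6 : Real.exp (η / s) = Real.exp (η / (2 * s)) * Real.exp (η / 2 / s) := by
    rw [← Real.exp_add]
    congr 1
    field_simp
    ring
  rw [h6]
  calc A * Real.exp (η / (2 * s)) * (1 + 2 / s) = Real.exp (η / (2 * s)) * (A * (1 + 2 / s)) := by
        ring
    _ ≤ _ := mul_le_mul_of_nonneg_left h5 (Real.exp_pos _).le

end Pool.Agent.Work.MP_6f8877_nt.EP
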