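import Pool.Agent.Work.MP_6f8877_nt.EP3

/-!
# Averages over roots of unity of order a power of two
-/

set_option autoImplicit false

open Finset Filter Topology

namespace Pool.Agent.Work.MP_6f8877_nt.EP

/-- the standard root of unity of order `2 ^ L` -/
noncomputable def ze (L : ℕ) : ℂ := Complex.exp (2 * Real.pi * Complex.I / ((2 ^ L : ℕ) : ℂ))

theorem ze_prim (L : ℕ) : IsPrimitiveRoot (ze L) (2 ^ L) :=
  Complex.isPrimitiveRoot_exp _ (by positivity)

theorem ze_pow (L d : ℕ) : ze (L + d) ^ 2 ^ d = ze L := by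
  rw [ze, ze, ← Complex.exp_nat_mul]
  congr 1
  push_cast
  rw [pow_add]
  field_simp

theorem norm_ze (L : ℕ) : ‖ze L‖ = 1 := (ze_prim L).norm'_eq_one (by positivity)

/-- the radius `exp (- 1 / (N 2 ^ L))` -/
noncomputable def rad (L N : ℕ) : ℝ := Real.exp (-(1 / ((N : ℝ) * 2 ^ L)))

theorem rad_pos (L N : ℕ) : 0 < rad L N := Real.exp_pos _

theorem rad_lt {L N : ℕ} (hN : 1 ≤ N) : rad L N < 1 := by
  have : (0 : ℝ) < N := by exact_mod_cast hN
  rw [rad, Real.exp_lt_one_iff, neg_lt_zero]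
  positivity

theorem rad_pow (L d N : ℕ) : rad (L + d) N ^ 2 ^ d = rad L N := by
  rw [rad, rad, ← Real.exp_nat_mul]
  congr 1
  push_cast
  rw [pow_add]
  rcases Nat.eq_zero_or_pos N with rfl | hN
  · simp
  · have : (0 : ℝ) < N := by exact_mod_cast hN
    field_simp

theorem rad_shift (L d N : ℕ) : rad L (2 ^ d * N) = rad (L + d) N := by
  rw [rad, rad]
  congr 3
  push_cast
  rw [pow_add]
  ring

/-- the points of the average -/
noncomputable def pt (L N a : ℕ) : ℂ := ze L ^ a * (rad L N : ℂ)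

theorem norm_pt (L N a : ℕ) : ‖pt L N a‖ = rad L N := by
  rw [pt, norm_mul, norm_pow, norm_ze, one_pow, one_mul, Complex.norm_real,
    Real.norm_of_nonneg (rad_pos L N).le]

theorem norm_pt_lt {L N : ℕ} (hN : 1 ≤ N) (a : ℕ) : ‖pt L N a‖ < 1 := by
  rw [norm_pt]
  exact rad_lt hN

theorem pt_mul (L d N a : ℕ) : pt (L + d) N (2 ^ d * a) = pt L (2 ^ d * N) a := by
  rw [pt, pt, pow_mul, ze_pow, rad_shift]

theorem pt_pow (L d N a : ℕ) : pt (L + d) N a ^ 2 ^ d = ze L ^ a * (rad L N : ℂ) := by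
  rw [pt, mul_pow, ← pow_mul, mul_comm a, pow_mul, ze_pow]
  congr 1
  rw [← rad_pow L d N]
  push_cast
  rfl

theorem sum_periodic {g : ℕ → ℝ} {n : ℕ} (h : ∀ a, g (n + a) = g a) (m : ℕ) :
    ∑ a ∈ range (n * m), g a = m * ∑ a ∈ range n, g a := by
  have h' : ∀ q a, g (n * q + a) = g a := by
    intro q
    induction q with
    | zero => intro a; simp
    | succ q ih =>
      intro a
      rw [mul_add, mul_one, add_assoc, ih, h]
  induction m with
  | zero => simp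
  | succ m ih =>
    rw [mul_add, mul_one, sum_range_add, ih]
    have h1 : ∑ x ∈ range n, g (n * m + x) = ∑ x ∈ range n, g x :=
      sum_congr rfl fun x _ => h' m x
    rw [h1]
    push_cast
    ring

/-- the average of `log |f_k (z ^ k)|` -/
noncomputable def cc (f : ℕ → ℂ → ℂ) (L k N : ℕ) : ℝ :=
  (∑ a ∈ range (2 ^ L), Real.log ‖f k (pt L N a ^ k)‖) / 2 ^ L

/-- the average of `log |F z|` -/
noncomputable def mm (F : ℂ → ℂ) (L N : ℕ) : ℝ :=
  (∑ a ∈ range (2 ^ L), Real.log ‖F (pt L N a)‖) / 2 ^ L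

/-- the value for the rows `1 / (1 - y)` -/
noncomputable def lam (k N : ℕ) : ℝ := -Real.log (1 - Real.exp (-((k : ℝ) / N)))

theorem lam_nonneg {k N : ℕ} (hk : 1 ≤ k) (hN : 1 ≤ N) : 0 ≤ lam k N := by
  have h1 : (0 : ℝ) < k := by exact_mod_cast hk
  have h2 : (0 : ℝ) < N := by exact_mod_cast hN
  have h3 : Real.exp (-((k : ℝ) / N)) < 1 := by
    rw [Real.exp_lt_one_iff, neg_lt_zero]
    positivity
  have h4 := Real.exp_pos (-((k : ℝ) / N))
  rw [lam, neg_nonneg]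
  exact Real.log_nonpos (by linarith) (by linarith)

/-- a positive constant -/
noncomputable def lam1 : ℝ := -Real.log (1 - Real.exp (-1))

theorem lam1_pos : 0 < lam1 := by
  have h3 : Real.exp (-1) < 1 := by
    rw [Real.exp_lt_one_iff]
    norm_num
  have h4 := Real.exp_pos (-1)
  rw [lam1, neg_pos]
  exact Real.log_neg (by linarith) (by linarith)

theorem lam1_le {k N : ℕ} (hk : 1 ≤ k) (hkN : k ≤ N) : lam1 ≤ lam k N := by
  have h1 : (0 : ℝ) < k := by exact_mod_cast hk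
  have h2 : (0 : ℝ) < N := by exact_mod_cast (hk.trans hkN)
  have h5 : (k : ℝ) / N ≤ 1 := by
    rw [div_le_one h2]
    exact_mod_cast hkN
  have h3 : Real.exp (-((k : ℝ) / N)) < 1 := by
    rw [Real.exp_lt_one_iff, neg_lt_zero]
    positivity
  rw [lam, lam1, neg_le_neg_iff]
  refine Real.log_le_log (by linarith) ?_
  have : Real.exp (-1) ≤ Real.exp (-((k : ℝ) / N)) := Real.exp_le_exp.2 (by linarith)
  linarith

/-- the product formula of row `g` at the levels `≥ J` -/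
def PF (J : ℕ) (g : ℂ → ℂ) : Prop :=
  ∀ j, J ≤ j → ∀ ω : ℂ, IsPrimitiveRoot ω (2 ^ j) → ∀ w : ℂ, ‖w‖ < 1 →
    ∏ b ∈ range (2 ^ j), g (ω ^ b * w) = (1 - w ^ 2 ^ j)⁻¹

theorem cc_univ {f : ℕ → ℂ → ℂ} {J L i k' N : ℕ} (hN : 1 ≤ N) (hk' : Odd k')
    (hf : PF J (f (2 ^ i * k'))) (hne : ∀ y, ‖y‖ < 1 → f (2 ^ i * k') y ≠ 0) (hi : i + J ≤ L) :
    cc f L (2 ^ i * k') N = 2 ^ i / 2 ^ L * lam k' N := by
  have hk0 : 0 < k' := hk'.pos
  have hN0 : (0 : ℝ) < N := by exact_mod_cast hN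
  set k := 2 ^ i * k' with hk
  set ω := ze L ^ k with hω
  obtain ⟨j, hj⟩ : ∃ j, L = i + j := ⟨L - i, by omega⟩
  have hprim : IsPrimitiveRoot ω (2 ^ j) := by
    have h1 : IsPrimitiveRoot (ze L ^ 2 ^ i) (2 ^ j) :=
      (ze_prim L).pow (by positivity) (by rw [hj, pow_add])
    rw [hω, hk, pow_mul]
    exact h1.pow_of_coprime k' (Nat.Coprime.pow_right j (Nat.coprime_two_right.2 hk'))
  set w : ℂ := ((rad L N ^ k : ℝ) : ℂ) with hw
  have hpt : ∀ a, pt L N a ^ k = ω ^ a * w := by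
    intro a
    rw [pt, mul_pow, hω, hw, ← pow_mul, ← pow_mul, mul_comm a]
    push_cast
    rfl
  have hrk : rad L N ^ k < 1 := pow_lt_one₀ (rad_pos L N).le (rad_lt hN) (by positivity)
  have hwn : ‖w‖ < 1 := by
    rw [hw, Complex.norm_real, Real.norm_of_nonneg (by positivity [rad_pos L N])]
    exact hrk
  have hwb : ∀ a, ‖ω ^ a * w‖ < 1 := by
    intro a
    rw [← hpt, norm_pow]
    exact pow_lt_one₀ (norm_nonneg _) (norm_pt_lt hN a) (by positivity)
  have hper : ∀ a, Real.log ‖f k (pt L N (2 ^ j + a) ^ k)‖ = Real.log ‖f k (pt L N a ^ k)‖ := by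
    intro a
    rw [hpt, hpt, pow_add, hprim.pow_eq_one, one_mul]
  have h1 : ∑ a ∈ range (2 ^ L), Real.log ‖f k (pt L N a ^ k)‖ =
      2 ^ i * ∑ a ∈ range (2 ^ j), Real.log ‖f k (pt L N a ^ k)‖ := by
    rw [show 2 ^ L = 2 ^ j * 2 ^ i by rw [hj, pow_add, mul_comm], sum_periodic hper]
    push_cast
    rfl
  have h2 : ∑ a ∈ range (2 ^ j), Real.log ‖f k (pt L N a ^ k)‖ = lam k' N := by
    rw [← Real.log_prod (fun a _ => by
      rw [hpt]
      exact norm_ne_zero_iff.2 (hne _ (hwb a)))]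
    have h3 : ∏ a ∈ range (2 ^ j), ‖f k (pt L N a ^ k)‖ = ‖(1 - w ^ 2 ^ j)⁻¹‖ := by
      rw [← hf j (by omega) ω hprim w hwn, norm_prod]
      refine prod_congr rfl fun a _ => ?_
      rw [hpt]
    have h4 : w ^ 2 ^ j = ((Real.exp (-((k' : ℝ) / N)) : ℝ) : ℂ) := by
      rw [hw, ← Complex.ofReal_pow]
      congr 1
      rw [← pow_mul, rad, ← Real.exp_nat_mul]
      congr 1
      rw [hk, hj]
      push_cast
      rw [pow_add]
      field_simp
    have h5 : Real.exp (-((k' : ℝ) / N)) < 1 := by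
      have : (0 : ℝ) < k' := by exact_mod_cast hk0
      rw [Real.exp_lt_one_iff, neg_lt_zero]
      positivity
    rw [h3, h4, norm_inv, Real.log_inv, lam]
    congr 2
    rw [← Complex.ofReal_one, ← Complex.ofReal_sub, Complex.norm_real,
      Real.norm_of_nonneg (by linarith)]
  rw [cc, h1, h2]
  ring

theorem cc_direct {f : ℕ → ℂ → ℂ} {L d κ N : ℕ} (hf : f (2 ^ d * κ) = f κ) :
    cc f (L + d) (2 ^ d * κ) N = cc f L κ N := by
  have h0 : ∀ a, pt (L + d) N a ^ (2 ^ d * κ) = pt L N a ^ κ := by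
    intro a
    rw [pow_mul, pt_pow]
    rfl
  have hper : ∀ a, Real.log ‖f κ (pt L N (2 ^ L + a) ^ κ)‖ = Real.log ‖f κ (pt L N a ^ κ)‖ := by
    intro a
    rw [pt, pt, pow_add, (ze_prim L).pow_eq_one, one_mul]
  have h1 : ∑ a ∈ range (2 ^ (L + d)), Real.log ‖f (2 ^ d * κ) (pt (L + d) N a ^ (2 ^ d * κ))‖ =
      2 ^ d * ∑ a ∈ range (2 ^ L), Real.log ‖f κ (pt L N a ^ κ)‖ := by
    rw [pow_add, hf]
    have h2 := sum_periodic (g := fun a => Real.log ‖f κ (pt L N a ^ κ)‖) (n := 2 ^ L) hper (2 ^ d)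
    push_cast at h2
    rw [← h2]
    exact sum_congr rfl fun a _ => by rw [h0]
  rw [cc, cc, h1, pow_add]
  have : (0 : ℝ) < 2 ^ d := by positivity
  field_simp

/-- a row equal to `1` -/
theorem cc_one {f : ℕ → ℂ → ℂ} {L k N : ℕ} (hf : ∀ y, f k y = 1) : cc f L k N = 0 := by
  simp [cc, hf]

end Pool.Agent.Work.MP_6f8877_nt.EP
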