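import Pool.Agent.Work.MP_6f8877_nt.EP4

/-!
# The contradiction
-/

set_option autoImplicit false

open Finset Filter Topology

namespace Pool.Agent.Work.MP_6f8877_nt.EP

/-- Arrays of zero free rows, periodic in the row index, without rows of index below `k₀`. -/
structure Arr (E : ℕ → ℕ → ℂ) (k₀ M J : ℕ) : Prop where
  norm : ∀ i j, ‖E i j‖ ≤ 1
  ne : ∀ k y, ‖y‖ < 1 → rowf (E k) y ≠ 0
  low : ∀ k, k < k₀ → ∀ y, rowf (E k) y = 1
  pf : ∀ k, k₀ ≤ k → PF J (rowf (E k))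
  per : ∀ k, k₀ ≤ k → rowf (E (k + M)) = rowf (E k)
  kpos : 1 ≤ k₀
  Mpos : 1 ≤ M

variable {E : ℕ → ℕ → ℂ} {k₀ M J : ℕ}

theorem Arr.GF_ne (h : Arr E k₀ M J) {z : ℂ} (hz : ‖z‖ < 1) : GF E z ≠ 0 := by
  intro h0
  obtain ⟨i, hi⟩ := exists_row_zero h.norm hz h0
  exact h.ne (i + 1) (z ^ (i + 1)) (by
    rw [norm_pow]
    exact pow_lt_one₀ (norm_nonneg z) hz (Nat.succ_ne_zero i)) hi

theorem Arr.tendsto_log (h : Arr E k₀ M J) {z : ℂ} (hz : ‖z‖ < 1) :
    Tendsto (fun K => ∑ k ∈ range K, Real.log ‖rowf (E k) (z ^ k)‖) atTop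
      (𝓝 (Real.log ‖GF E z‖)) := by
  have h1 := ((tendsto_prod_rows h.norm hz).norm).log (norm_ne_zero_iff.2 (h.GF_ne hz))
  rw [← tendsto_add_atTop_iff_nat 1]
  refine h1.congr fun K => ?_
  rw [sum_range_succ', h.low 0 h.kpos, norm_one, Real.log_one, add_zero, norm_prod, Real.log_prod]
  · rfl
  · intro i _
    refine norm_ne_zero_iff.2 (h.ne (i + 1) (z ^ (i + 1)) ?_)
    rw [norm_pow]
    exact pow_lt_one₀ (norm_nonneg z) hz (Nat.succ_ne_zero i)

theorem Arr.tendsto_cc (h : Arr E k₀ M J) (L : ℕ) {N : ℕ} (hN : 1 ≤ N) :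
    Tendsto (fun K => ∑ k ∈ range K, cc (fun k => rowf (E k)) L k N) atTop
      (𝓝 (mm (GF E) L N)) := by
  have h1 : Tendsto (fun K => (∑ a ∈ range (2 ^ L), ∑ k ∈ range K,
      Real.log ‖rowf (E k) (pt L N a ^ k)‖) / 2 ^ L) atTop (𝓝 (mm (GF E) L N)) :=
    (tendsto_finsetSum _ fun a _ => h.tendsto_log (norm_pt_lt hN a)).div_const _
  refine h1.congr fun K => ?_
  rw [sum_comm, sum_div]
  rfl

theorem Arr.per_mul (h : Arr E k₀ M J) (q : ℕ) : ∀ k, k₀ ≤ k → rowf (E (k + M * q)) = rowf (E k) := by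
  induction q with
  | zero => intro k _; simp
  | succ q ih =>
    intro k hk
    rw [mul_add, mul_one, ← add_assoc, h.per _ (by omega), ih k hk]

theorem Arr.cc_nonneg (h : Arr E k₀ M J) {L i k' N : ℕ} (hN : 1 ≤ N) (hk' : Odd k')
    (hi : i + J ≤ L) : 0 ≤ cc (fun k => rowf (E k)) L (2 ^ i * k') N := by
  rcases lt_or_ge (2 ^ i * k') k₀ with hlt | hge
  · rw [cc_one (h.low _ hlt)]
  · rw [cc_univ hN hk' (h.pf _ hge) (h.ne _) hi]
    have := lam_nonneg (k := k') (N := N) hk'.pos hN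
    positivity

/-- The first inequality. -/
theorem Arr.key1 (h : Arr E k₀ M J) : ∃ d L : ℕ, 1 ≤ d ∧ ∀ N T : ℕ, 1 ≤ N → 2 * T ≤ N → k₀ ≤ T →
    mm (GF E) L N + ((T : ℝ) - k₀) * (lam1 / 2 ^ (L + d)) ≤ mm (GF E) (L + d) N := by
  obtain ⟨a, m, hm, hM⟩ := Nat.exists_eq_two_pow_mul_odd (n := M) (by have := h.Mpos; omega)
  set d := Nat.totient m with hd
  have hd1 : 1 ≤ d := Nat.totient_pos.2 hm.pos
  have hmd : m ∣ 2 ^ d - 1 := by
    have h1 := Nat.ModEq.pow_totient (Nat.coprime_two_left.2 hm)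
    exact (Nat.modEq_iff_dvd' Nat.one_le_two_pow).1 h1.symm
  set L := a + J + k₀ with hL
  refine ⟨d, L, hd1, fun N T hN hT hkT => ?_⟩
  set f : ℕ → ℂ → ℂ := fun k => rowf (E k) with hf
  have hk₀ := h.kpos
  -- multiples of `2 ^ d`
  have hmul : ∀ κ, cc f L κ N ≤ cc f (L + d) (2 ^ d * κ) N := by
    intro κ
    rcases lt_or_ge κ k₀ with hlt | hge
    · rw [cc_one (f := f) (h.low κ hlt)]
      rcases Nat.eq_zero_or_pos κ with rfl | hκ
      · rw [mul_zero, cc_one (f := f) (h.low 0 hk₀)]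
      · obtain ⟨i, κ', hκ', hκe⟩ := Nat.exists_eq_two_pow_mul_odd (n := κ) (by omega)
        have hi : i < k₀ := by
          have h1 : i < 2 ^ i := Nat.lt_two_pow_self
          have h2 : 2 ^ i ≤ κ := by
            rw [hκe]
            exact Nat.le_mul_of_pos_right _ hκ'.pos
          omega
        rw [hκe, ← mul_assoc, ← pow_add]
        exact h.cc_nonneg hN hκ' (by omega)
    · obtain ⟨i, κ', hκ', hκe⟩ := Nat.exists_eq_two_pow_mul_odd (n := κ) (by omega)
      rcases le_or_gt (i + J) L with hi | hi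
      · have hge' : k₀ ≤ 2 ^ (d + i) * κ' := by
          have h1 : κ ≤ 2 ^ (d + i) * κ' := by
            rw [pow_add, mul_assoc, ← hκe]
            exact Nat.le_mul_of_pos_left _ (by positivity)
          omega
        have e1 : cc f L (2 ^ i * κ') N = 2 ^ i / 2 ^ L * lam κ' N :=
          cc_univ hN hκ' (h.pf _ (by omega)) (h.ne _) hi
        have e2 : cc f (L + d) (2 ^ (d + i) * κ') N = 2 ^ (d + i) / 2 ^ (L + d) * lam κ' N :=
          cc_univ hN hκ' (h.pf _ hge') (h.ne _) (by omega)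
        rw [hκe, ← mul_assoc, ← pow_add, e1, e2]
        refine le_of_eq ?_
        congr 1
        have e3 : (2 : ℝ) ^ (d + i) = 2 ^ d * 2 ^ i := pow_add _ _ _
        have e4 : (2 : ℝ) ^ (L + d) = 2 ^ L * 2 ^ d := pow_add _ _ _
        rw [e3, e4]
        have e5 : (2 : ℝ) ^ L ≠ 0 := by positivity
        have e6 : (2 : ℝ) ^ d ≠ 0 := by positivity
        rw [div_eq_div_iff e5 (mul_ne_zero e5 e6)]
        ring
      · refine le_of_eq (cc_direct ?_).symm
        have hdiv : M ∣ (2 ^ d - 1) * κ := by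
          rw [hM, mul_comm (2 ^ d - 1)]
          refine mul_dvd_mul ?_ hmd
          rw [hκe]
          exact Dvd.dvd.mul_right (pow_dvd_pow 2 (by omega)) _
        obtain ⟨q, hq⟩ := hdiv
        have h1 : 2 ^ d * κ = κ + M * q := by
          rw [← hq, Nat.sub_mul, one_mul]
          have : κ ≤ 2 ^ d * κ := Nat.le_mul_of_pos_left _ (by positivity)
          omega
        show rowf (E (2 ^ d * κ)) = rowf (E κ)
        rw [h1]
        exact h.per_mul q κ hge
  -- non multiples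
  have hnon : ∀ k, ¬ 2 ^ d ∣ k → 0 ≤ cc f (L + d) k N := by
    intro k hk
    have hk0 : k ≠ 0 := by
      rintro rfl
      exact hk (dvd_zero _)
    obtain ⟨i, k', hk', hke⟩ := Nat.exists_eq_two_pow_mul_odd hk0
    have hi : i < d := by
      by_contra hcon
      push Not at hcon
      exact hk (by rw [hke]; exact Dvd.dvd.mul_right (pow_dvd_pow 2 hcon) _)
    rw [hke]
    exact h.cc_nonneg hN hk' (by omega)
  -- odd rows
  have hodd : ∀ t, k₀ ≤ t → t < T → lam1 / 2 ^ (L + d) ≤ cc f (L + d) (2 * t + 1) N := by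
    intro t ht htT
    have e1 : cc f (L + d) (2 ^ 0 * (2 * t + 1)) N = 2 ^ 0 / 2 ^ (L + d) * lam (2 * t + 1) N :=
      cc_univ hN ⟨t, rfl⟩ (h.pf _ (by omega)) (h.ne _) (by omega)
    rw [pow_zero, one_mul] at e1
    rw [e1, pow_zero, div_mul_eq_mul_div, one_mul]
    exact div_le_div_of_nonneg_right (lam1_le (by omega) (by omega)) (by positivity)
  have hfin : ∀ K, 2 * T ≤ K → ∑ κ ∈ range K, cc f L κ N + ((T : ℝ) - k₀) * (lam1 / 2 ^ (L + d)) ≤
      ∑ k ∈ range (2 ^ d * K), cc f (L + d) k N := by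
    intro K hK
    set I := (range K).image (fun κ => 2 ^ d * κ) with hI
    set S := (Ico k₀ T).image (fun t => 2 * t + 1) with hS
    have hinjI : Set.InjOn (fun κ => 2 ^ d * κ) (range K : Set ℕ) := by
      intro x _ y _ hxy
      exact Nat.eq_of_mul_eq_mul_left (by positivity) hxy
    have hinjS : Set.InjOn (fun t => 2 * t + 1) (Ico k₀ T : Set ℕ) := by
      intro x _ y _ hxy
      simp only at hxy
      omega
    have hdisj : Disjoint I S := by
      rw [disjoint_left]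
      intro k hk hk'
      obtain ⟨κ, _, rfl⟩ := mem_image.1 hk
      obtain ⟨t, _, ht⟩ := mem_image.1 hk'
      obtain ⟨d', hd'⟩ : ∃ d', d = d' + 1 := ⟨d - 1, by omega⟩
      simp only [hd', pow_succ] at ht
      have : 2 * t + 1 = 2 * (2 ^ d' * κ) := by rw [ht]; ring
      omega
    have hKd : K ≤ 2 ^ d * K := Nat.le_mul_of_pos_left _ (by positivity)
    have hsub : I ∪ S ⊆ range (2 ^ d * K) := by
      intro k hk
      rcases mem_union.1 hk with hk | hk
      · obtain ⟨κ, hκ, rfl⟩ := mem_image.1 hk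
        exact mem_range.2 (Nat.mul_lt_mul_of_pos_left (mem_range.1 hκ) (by positivity))
      · obtain ⟨t, ht, rfl⟩ := mem_image.1 hk
        have := mem_Ico.1 ht
        exact mem_range.2 (by omega)
    have h1 : ∑ k ∈ I ∪ S, cc f (L + d) k N ≤ ∑ k ∈ range (2 ^ d * K), cc f (L + d) k N := by
      refine sum_le_sum_of_subset_of_nonneg hsub fun k hk hk' => hnon k ?_
      rintro ⟨q, rfl⟩
      refine hk' (mem_union_left _ (mem_image.2 ⟨q, mem_range.2 ?_, rfl⟩))
      exact Nat.lt_of_mul_lt_mul_left (mem_range.1 hk)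
    refine le_trans ?_ h1
    rw [sum_union hdisj, sum_image hinjI, sum_image hinjS]
    refine add_le_add (sum_le_sum fun κ _ => hmul κ) ?_
    have h2 : ∑ _t ∈ Ico k₀ T, lam1 / 2 ^ (L + d) ≤
        ∑ t ∈ Ico k₀ T, cc f (L + d) (2 * t + 1) N := by
      refine sum_le_sum fun t ht => ?_
      have := mem_Ico.1 ht
      exact hodd t this.1 this.2
    refine le_trans (le_of_eq ?_) h2
    rw [sum_const, Nat.card_Ico, nsmul_eq_mul, Nat.cast_sub hkT]
  have hlim1 := (h.tendsto_cc L hN).add_const (((T : ℝ) - k₀) * (lam1 / 2 ^ (L + d)))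
  have hlim2 : Tendsto (fun K => ∑ k ∈ range (2 ^ d * K), cc f (L + d) k N) atTop
      (𝓝 (mm (GF E) (L + d) N)) := by
    refine (h.tendsto_cc (L + d) hN).comp ?_
    exact tendsto_id.const_mul_atTop' (by positivity)
  exact le_of_tendsto_of_tendsto hlim1 hlim2
    (eventually_atTop.2 ⟨2 * T, fun K hK => hfin K hK⟩)

/-- The second inequality. -/
theorem key2 (F : ℂ → ℂ) (L d N : ℕ) {S : ℝ} (hS : ∀ a, Real.log ‖F (pt (L + d) N a)‖ ≤ S) :
    2 ^ d * mm F (L + d) N ≤ mm F L (2 ^ d * N) + (2 ^ d - 1) * S := by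
  set u : ℕ → ℝ := fun a => Real.log ‖F (pt (L + d) N a)‖ with hu
  set I := (range (2 ^ L)).image (fun b => 2 ^ d * b) with hI
  have hinj : Set.InjOn (fun b => 2 ^ d * b) (range (2 ^ L) : Set ℕ) := by
    intro x _ y _ hxy
    exact Nat.eq_of_mul_eq_mul_left (by positivity) hxy
  have hsub : I ⊆ range (2 ^ (L + d)) := by
    intro k hk
    obtain ⟨b, hb, rfl⟩ := mem_image.1 hk
    refine mem_range.2 ?_
    rw [pow_add, mul_comm (2 ^ L)]
    exact Nat.mul_lt_mul_of_pos_left (mem_range.1 hb) (by positivity)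
  have h1 : ∑ a ∈ range (2 ^ (L + d)), u a =
      ∑ a ∈ range (2 ^ (L + d)) \ I, u a + ∑ a ∈ I, u a := (sum_sdiff hsub).symm
  have h2 : ∑ a ∈ I, u a = 2 ^ L * mm F L (2 ^ d * N) := by
    rw [hI, sum_image hinj, mm]
    have e : ∀ b, u (2 ^ d * b) = Real.log ‖F (pt L (2 ^ d * N) b)‖ := by
      intro b
      rw [hu]
      simp only [pt_mul]
    simp only [e]
    field_simp
  have h3 : ∑ a ∈ range (2 ^ (L + d)) \ I, u a ≤ (2 ^ (L + d) - 2 ^ L) * S := by
    refine (sum_le_sum fun a _ => hS a).trans (le_of_eq ?_)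
    rw [sum_const, card_sdiff_of_subset hsub, card_range, hI, card_image_of_injOn hinj, card_range,
      nsmul_eq_mul, Nat.cast_sub (Nat.pow_le_pow_right (by norm_num) (by omega))]
    push_cast
    rfl
  have h4 : 2 ^ d * mm F (L + d) N = (∑ a ∈ range (2 ^ (L + d)), u a) / 2 ^ L := by
    have e4 : (2 : ℝ) ^ (L + d) = 2 ^ L * 2 ^ d := pow_add _ _ _
    have e5 : (2 : ℝ) ^ L ≠ 0 := by positivity
    have e6 : (2 : ℝ) ^ d ≠ 0 := by positivity
    rw [mm, e4, ← hu]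
    rw [mul_div_assoc', div_eq_div_iff (mul_ne_zero e5 e6) e5]
    ring
  rw [h4, div_le_iff₀ (by positivity), h1, h2]
  have h5 : ((2 : ℝ) ^ (L + d) - 2 ^ L) * S = (2 ^ d - 1) * S * 2 ^ L := by
    rw [pow_add]
    ring
  rw [h5] at h3
  nlinarith

/-- There is no array with subexponential generating function. -/
theorem Arr.contra (h : Arr E k₀ M J) (hup : Up (GF E)) : False := by
  obtain ⟨d, L, hd, hkey⟩ := h.key1
  set c₀ : ℝ := lam1 / 2 ^ (L + d) / 4 with hc₀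
  have hc₀pos : 0 < c₀ := by
    have := lam1_pos
    positivity
  set η : ℝ := c₀ / (2 * 2 ^ d * 2 ^ L) with hη
  have hηpos : 0 < η := by positivity
  obtain ⟨s₀, hs₀, hs⟩ := hup η hηpos
  -- bound of `log |F|` at the points
  have hlog : ∀ n : ℕ, 1 ≤ n → 1 / s₀ < n → ∀ z : ℂ, ‖z‖ = rad L n →
      Real.log ‖GF E z‖ ≤ η * n * 2 ^ L := by
    intro n hn hn' z hz
    have hn0 : (0 : ℝ) < n := by exact_mod_cast hn
    have hs1 : 1 / ((n : ℝ) * 2 ^ L) < s₀ := by
      rw [div_lt_iff₀ hs₀] at hn'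
      rw [div_lt_iff₀ (by positivity)]
      have h1 : (1 : ℝ) ≤ 2 ^ L := one_le_pow₀ (by norm_num)
      nlinarith
    have h1 := hs (1 / ((n : ℝ) * 2 ^ L)) (by positivity) hs1 z (by rw [hz]; rfl)
    have hz1 : ‖z‖ < 1 := by rw [hz]; exact rad_lt hn
    have h2 : Real.log ‖GF E z‖ ≤ η / (1 / ((n : ℝ) * 2 ^ L)) := by
      rw [← Real.log_exp (η / (1 / ((n : ℝ) * 2 ^ L)))]
      exact Real.log_le_log (norm_pos_iff.2 (h.GF_ne hz1)) h1
    rw [div_div_eq_mul_div, div_one, ← mul_assoc] at h2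
    exact h2
  -- upper bound of the averages
  have hupper : ∀ n : ℕ, 1 ≤ n → 1 / s₀ < n → mm (GF E) L n / n ≤ η * 2 ^ L := by
    intro n hn hn'
    have hn0 : (0 : ℝ) < n := by exact_mod_cast hn
    rw [div_le_iff₀ hn0, mm, div_le_iff₀ (by positivity)]
    have h1 : ∑ a ∈ range (2 ^ L), Real.log ‖GF E (pt L n a)‖ ≤
        ∑ _a ∈ range (2 ^ L), η * n * 2 ^ L :=
      sum_le_sum fun a _ => hlog n hn hn' _ (norm_pt L n a)
    refine h1.trans (le_of_eq ?_)
    rw [sum_const, card_range, nsmul_eq_mul]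
    push_cast
    ring
  -- the recursion
  have hrec : ∀ N : ℕ, 4 * k₀ + 8 ≤ N → 1 / s₀ < N →
      mm (GF E) L N / N + c₀ / 2 ≤ mm (GF E) L (2 ^ d * N) / ((2 ^ d * N : ℕ) : ℝ) := by
    intro N hN hN'
    have hN0 : (0 : ℝ) < N := by
      have : 0 < N := by omega
      exact_mod_cast this
    have hdN : N ≤ 2 ^ d * N := Nat.le_mul_of_pos_left _ (by positivity)
    have hdN' : (N : ℝ) ≤ ((2 ^ d * N : ℕ) : ℝ) := by exact_mod_cast hdN
    have h1 := hkey N (N / 2) (by omega) (by omega) (by omega)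
    have h2 := key2 (GF E) L d N (S := η * ((2 ^ d * N : ℕ) : ℝ) * 2 ^ L) fun a =>
      hlog (2 ^ d * N) (by omega) (by linarith) _ (by rw [norm_pt, rad_shift])
    have h3 : (N : ℝ) / 4 ≤ ((N / 2 : ℕ) : ℝ) - k₀ := by
      have h4 : (N : ℝ) ≤ 2 * ((N / 2 : ℕ) : ℝ) + 1 := by
        have : N ≤ 2 * (N / 2) + 1 := by omega
        exact_mod_cast this
      have h5 : (4 * (k₀ : ℝ) + 8) ≤ N := by exact_mod_cast hN
      linarith
    have h4 : mm (GF E) L N + N * c₀ ≤ mm (GF E) (L + d) N := by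
      refine le_trans ?_ h1
      have h5 : (N : ℝ) * c₀ = (N : ℝ) / 4 * (lam1 / 2 ^ (L + d)) := by
        rw [hc₀]; ring
      rw [h5]
      have h6 : 0 ≤ lam1 / 2 ^ (L + d) := by
        have := lam1_pos
        positivity
      nlinarith [mul_le_mul_of_nonneg_right h3 h6]
    have h2d : (1 : ℝ) ≤ 2 ^ d := one_le_pow₀ (by norm_num)
    have hcast : ((2 ^ d * N : ℕ) : ℝ) = 2 ^ d * N := by push_cast; ring
    rw [hcast] at h2 ⊢
    rw [le_div_iff₀ (by positivity)]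
    have h5 : (mm (GF E) L N / N + c₀ / 2) * (2 ^ d * N) =
        2 ^ d * mm (GF E) L N + 2 ^ d * (N * c₀) / 2 := by
      field_simp
    rw [h5]
    have h6 : (2 ^ d - 1) * (η * (2 ^ d * N) * 2 ^ L) ≤ 2 ^ d * (N * c₀) / 2 := by
      have h7 : η * 2 ^ d * 2 ^ L = c₀ / 2 := by
        rw [hη]
        field_simp
      have h8 : (2 ^ d - 1) * (η * (2 ^ d * N) * 2 ^ L) = (2 ^ d - 1) * (N * (η * 2 ^ d * 2 ^ L)) := by
        ring
      rw [h8, h7]
      have h9 : 0 < (N : ℝ) * c₀ := by positivity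
      nlinarith
    have h7 : 2 ^ d * (mm (GF E) L N + N * c₀) ≤ 2 ^ d * mm (GF E) (L + d) N :=
      mul_le_mul_of_nonneg_left h4 (by positivity)
    nlinarith
  -- iteration
  obtain ⟨N₀, hN₀⟩ := exists_nat_gt (1 / s₀)
  set N₁ := N₀ + (4 * k₀ + 8) with hN₁
  have hN₁r : 1 / s₀ < (N₁ : ℝ) := by
    rw [hN₁]
    push_cast
    have : (0 : ℝ) ≤ k₀ := Nat.cast_nonneg _
    linarith
  have hiter : ∀ t : ℕ, N₁ ≤ 2 ^ (d * t) * N₁ ∧
      mm (GF E) L N₁ / N₁ + t * (c₀ / 2) ≤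
        mm (GF E) L (2 ^ (d * t) * N₁) / ((2 ^ (d * t) * N₁ : ℕ) : ℝ) := by
    intro t
    refine ⟨Nat.le_mul_of_pos_left _ (by positivity), ?_⟩
    induction t with
    | zero => simp
    | succ t ih =>
      have hle : N₁ ≤ 2 ^ (d * t) * N₁ := Nat.le_mul_of_pos_left _ (by positivity)
      have hle' : (N₁ : ℝ) ≤ ((2 ^ (d * t) * N₁ : ℕ) : ℝ) := by exact_mod_cast hle
      have h1 := hrec (2 ^ (d * t) * N₁) (by omega) (by linarith)
      have h2 : 2 ^ d * (2 ^ (d * t) * N₁) = 2 ^ (d * (t + 1)) * N₁ := by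
        rw [← mul_assoc, ← pow_add]
        congr 2
        ring
      rw [h2] at h1
      push_cast at ih h1 ⊢
      linarith
  obtain ⟨t, ht⟩ := exists_nat_gt ((η * 2 ^ L - mm (GF E) L N₁ / N₁) / (c₀ / 2))
  rw [div_lt_iff₀ (by positivity)] at ht
  obtain ⟨hle, h1⟩ := hiter t
  have hle' : (N₁ : ℝ) ≤ ((2 ^ (d * t) * N₁ : ℕ) : ℝ) := by exact_mod_cast hle
  have h2 := hupper (2 ^ (d * t) * N₁) (by omega) (by linarith)
  linarith

end Pool.Agent.Work.MP_6f8877_nt.EP
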