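import Pool.Agent.Work.MP_6f8877_nt.Prod
import Pool.Agent.Work.MP_6f8877_nt.L2

/-!
# A sign choice with small coefficients, part 1: the signs and the closed form of the rows
-/

set_option autoImplicit false

open Filter Topology

namespace Pool.Agent.Work.MP_6f8877_nt

/-- The scales `1, 4, 64, 16384, ...`. -/
def NN (i : ℕ) : ℕ := 4 ^ (2 ^ i - 1)

/-- Exponents of the scales: `NN i = 2 ^ aa i`. -/
def aa (i : ℕ) : ℕ := 2 * (2 ^ i - 1)

theorem NN_eq (i : ℕ) : NN i = 2 ^ aa i := by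
  rw [NN, aa, pow_mul]; norm_num

theorem aa_zero : aa 0 = 0 := rfl

theorem aa_succ (i : ℕ) : aa (i + 1) = 2 * aa i + 2 := by
  have h : 1 ≤ 2 ^ i := Nat.one_le_two_pow
  unfold aa
  rw [pow_succ]
  omega

theorem aa_lt {i j : ℕ} (h : i < j) : aa i < aa j := by
  induction j, h using Nat.le_induction with
  | base => rw [aa_succ]; omega
  | succ j _ ih => rw [aa_succ]; omega

theorem NN_pos (i : ℕ) : 0 < NN i := by unfold NN; positivity

theorem NN_lt {i j : ℕ} (h : i < j) : NN i < NN j := by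
  rw [NN_eq, NN_eq]
  exact Nat.pow_lt_pow_right (by norm_num) (aa_lt h)

theorem two_NN_dvd {i j : ℕ} (h : i < j) : NN i * 2 ∣ NN j := by
  rw [NN_eq, NN_eq, ← pow_succ]
  exact Nat.pow_dvd_pow 2 (aa_lt h)

/-- The signs with finitely many scales. -/
def sgI (I j : ℕ) : ℤ := ∏ i ∈ Finset.range I, (-1) ^ (j / NN i)

theorem sgI_succ (I j : ℕ) : sgI (I + 1) j = sgI I j * (-1) ^ (j / NN I) := by
  rw [sgI, sgI, Finset.prod_range_succ]

theorem sgI_zero (I : ℕ) : sgI I 0 = 1 := by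
  simp [sgI]

theorem sgI_one_or (I j : ℕ) : sgI I j = 1 ∨ sgI I j = -1 := by
  induction I with
  | zero => left; simp [sgI]
  | succ I ih =>
    rw [sgI_succ]
    rcases ih with h | h <;> rcases neg_one_pow_eq_or ℤ (j / NN I) with h' | h' <;>
      rw [h, h'] <;> simp

theorem sgI_norm (I j : ℕ) : ‖(sgI I j : ℂ)‖ ≤ 1 := by
  rcases sgI_one_or I j with h | h <;> rw [h] <;> simp

theorem sgI_add (I j : ℕ) : sgI I (j + NN I) = sgI I j := by
  unfold sgI
  refine Finset.prod_congr rfl fun i hi => ?_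
  obtain ⟨q, hq⟩ := two_NN_dvd (Finset.mem_range.1 hi)
  rw [hq, mul_assoc, Nat.add_mul_div_left _ _ (NN_pos i), pow_add, pow_mul]
  norm_num

theorem sgI_stable {I j : ℕ} (h : j < NN I) (K : ℕ) : sgI (I + K) j = sgI I j := by
  induction K with
  | zero => rfl
  | succ K ih =>
    rw [← add_assoc, sgI_succ, ih, Nat.div_eq_of_lt, pow_zero, mul_one]
    exact h.trans_le (by
      rcases Nat.eq_zero_or_pos K with rfl | hK
      · exact le_rfl
      · exact (NN_lt (by omega)).le)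

theorem lt_NN (j : ℕ) : j < NN j := by
  have h : j < 2 ^ j := Nat.lt_two_pow_self
  unfold NN
  have h2 : 2 ^ j - 1 < 4 ^ (2 ^ j - 1) := Nat.lt_pow_self (by norm_num)
  omega

/-- The signs. -/
def sg (j : ℕ) : ℤ := sgI j j

theorem sg_eq {I j : ℕ} (h : j < NN I) : sg j = sgI I j := by
  unfold sg
  rw [← sgI_stable (lt_NN j) I, ← sgI_stable h j, add_comm]

/-- The closed form of a row. -/
noncomputable def Sr (I : ℕ) (y : ℂ) : ℂ :=
  (1 - y)⁻¹ * ∏ i ∈ Finset.range I, ((1 - y ^ NN i) / (1 + y ^ NN i))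

theorem one_add_ne {w : ℂ} (h : ‖w‖ < 1) : 1 + w ≠ 0 := by
  intro h0
  have : w = -1 := by linear_combination h0
  rw [this] at h
  simp at h

theorem one_sub_ne {w : ℂ} (h : ‖w‖ < 1) : 1 - w ≠ 0 := by
  intro h0
  have : w = 1 := by linear_combination -h0
  rw [this] at h
  simp at h

theorem norm_pow_lt {y : ℂ} (hy : ‖y‖ < 1) {n : ℕ} (hn : 0 < n) : ‖y ^ n‖ < 1 := by
  rw [norm_pow]
  exact pow_lt_one₀ (norm_nonneg y) hy hn.ne'

theorem summable_sgI (I : ℕ) {y : ℂ} (hy : ‖y‖ < 1) :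
    Summable (fun j => (sgI I j : ℂ) * y ^ j) := by
  refine Summable.of_norm_bounded (summable_geometric_of_lt_one (norm_nonneg y) hy) fun j => ?_
  rw [norm_mul, norm_pow]
  exact mul_le_of_le_one_left (by positivity) (sgI_norm I j)

theorem tsum_sgI (I : ℕ) {y : ℂ} (hy : ‖y‖ < 1) :
    ∑' j, (sgI I j : ℂ) * y ^ j = Sr I y := by
  induction I with
  | zero =>
    simp only [sgI, Sr, Finset.range_zero, Finset.prod_empty, Int.cast_one, one_mul, mul_one]
    exact tsum_geometric_of_norm_lt_one hy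
  | succ I ih =>
    have hN := NN_pos I
    have h1 := (summable_sgI I hy).sum_add_tsum_nat_add (NN I)
    have h2 := (summable_sgI (I + 1) hy).sum_add_tsum_nat_add (NN I)
    have e1 : ∑' j, (sgI I (j + NN I) : ℂ) * y ^ (j + NN I) =
        y ^ NN I * ∑' j, (sgI I j : ℂ) * y ^ j := by
      rw [← tsum_mul_left]
      refine tsum_congr fun j => ?_
      rw [sgI_add, pow_add]
      ring
    have e2 : ∑' j, (sgI (I + 1) (j + NN I) : ℂ) * y ^ (j + NN I) =
        -(y ^ NN I * ∑' j, (sgI (I + 1) j : ℂ) * y ^ j) := by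
      rw [← tsum_mul_left, ← tsum_neg]
      refine tsum_congr fun j => ?_
      rw [sgI_succ, sgI_succ, sgI_add, Nat.add_div_right _ hN, pow_succ, pow_add]
      push_cast
      ring
    have e3 : ∑ j ∈ Finset.range (NN I), (sgI (I + 1) j : ℂ) * y ^ j =
        ∑ j ∈ Finset.range (NN I), (sgI I j : ℂ) * y ^ j := by
      refine Finset.sum_congr rfl fun j hj => ?_
      rw [sgI_succ, Nat.div_eq_of_lt (Finset.mem_range.1 hj), pow_zero, mul_one]
    rw [e1, ih] at h1
    rw [e2, e3] at h2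
    have h3 : 1 + y ^ NN I ≠ 0 := one_add_ne (norm_pow_lt hy hN)
    have h4 : Sr (I + 1) y = Sr I y * ((1 - y ^ NN I) / (1 + y ^ NN I)) := by
      rw [Sr, Sr, Finset.prod_range_succ, mul_assoc]
    rw [h4, mul_div_assoc', eq_div_iff h3]
    linear_combination h1 - h2

/-- The row in the form used for the infinite product. -/
theorem row_sgI (I : ℕ) {y : ℂ} (hy : ‖y‖ < 1) :
    1 + ∑' j, (sgI I (j + 1) : ℂ) * y ^ (j + 1) = Sr I y := by
  rw [← tsum_sgI I hy, (summable_sgI I hy).tsum_eq_zero_add]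
  simp [sgI_zero]

end Pool.Agent.Work.MP_6f8877_nt
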