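import Pool.Agent.Work.MP_6f8877_nt.Grow1

/-!
# Part 2: Poisson kernels
-/

set_option autoImplicit false

open Filter Topology

namespace Pool.Agent.Work.MP_6f8877_nt

/-- Half of the Poisson kernel. -/
noncomputable def Pk (y : ℂ) : ℝ := (1 - ‖y‖ ^ 2) / (2 * ‖1 - y‖ ^ 2)

theorem norm_one_sub_pos {y : ℂ} (hy : ‖y‖ < 1) : 0 < ‖1 - y‖ := norm_pos_iff.2 (one_sub_ne hy)

theorem norm_one_add_pos {y : ℂ} (hy : ‖y‖ < 1) : 0 < ‖1 + y‖ := norm_pos_iff.2 (one_add_ne hy)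

theorem Pk_nonneg {y : ℂ} (hy : ‖y‖ < 1) : 0 ≤ Pk y := by
  unfold Pk
  have h : ‖y‖ ^ 2 < 1 := pow_lt_one₀ (norm_nonneg y) hy (by norm_num)
  have h2 : 0 ≤ 1 - ‖y‖ ^ 2 := by linarith
  positivity

theorem re_X {y : ℂ} (hy : ‖y‖ < 1) : (y / (1 - y)).re = Pk y - 1 / 2 := by
  have h1 : y / (1 - y) = (1 + y) / (2 * (1 - y)) - 1 / 2 := by
    have := one_sub_ne hy
    field_simp
    ring
  have h2 : ((1 + y) / (2 * (1 - y))).re = Pk y := by
    unfold Pk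
    rw [Complex.div_re, ← Complex.normSq_eq_norm_sq, ← Complex.normSq_eq_norm_sq]
    have h3 : 0 < Complex.normSq (1 - y) := Complex.normSq_pos.2 (one_sub_ne hy)
    rw [map_mul]
    have h4 : Complex.normSq 2 = 4 := by norm_num [Complex.normSq_apply]
    rw [h4]
    simp only [Complex.normSq_apply, Complex.add_re, Complex.one_re, Complex.add_im,
      Complex.one_im, Complex.mul_re, Complex.mul_im, Complex.sub_re, Complex.sub_im,
      Complex.re_ofNat, Complex.im_ofNat] at h3 ⊢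
    field_simp
    ring
  rw [h1, Complex.sub_re, h2]
  norm_num

/-- The doubling inequality. -/
theorem Pk_le {y : ℂ} (hy : ‖y‖ < 1) : Pk y ≤ 2 * Pk (y ^ 2) := by
  unfold Pk
  have h1 := norm_one_sub_pos hy
  have h2 := norm_one_add_pos hy
  have h3 : ‖1 - y ^ 2‖ = ‖1 - y‖ * ‖1 + y‖ := by
    rw [← norm_mul]; congr 1; ring
  have h4 : ‖1 + y‖ ≤ 1 + ‖y‖ := (norm_add_le _ _).trans (by rw [norm_one])
  have h5 : ‖1 + y‖ ^ 2 ≤ 2 * (1 + ‖y‖ ^ 2) := by
    nlinarith [sq_nonneg (1 - ‖y‖), norm_nonneg y]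
  have h6 : ‖y‖ ^ 2 < 1 := pow_lt_one₀ (norm_nonneg y) hy (by norm_num)
  rw [h3, norm_pow, ← mul_div_assoc, div_le_div_iff₀ (by positivity) (by positivity)]
  have h7 : (1 - ‖y‖ ^ 2) * (2 * (‖1 - y‖ * ‖1 + y‖) ^ 2) =
      (2 * (1 - ‖y‖ ^ 2) * ‖1 - y‖ ^ 2) * ‖1 + y‖ ^ 2 := by ring
  have h8 : 2 * (1 - (‖y‖ ^ 2) ^ 2) * (2 * ‖1 - y‖ ^ 2) =
      (2 * (1 - ‖y‖ ^ 2) * ‖1 - y‖ ^ 2) * (2 * (1 + ‖y‖ ^ 2)) := by ring
  rw [h7, h8]
  refine mul_le_mul_of_nonneg_left h5 ?_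
  have : 0 ≤ 1 - ‖y‖ ^ 2 := by linarith
  positivity

theorem Pk_small {w : ℂ} (hw : ‖w‖ ≤ 1 / 2) : Pk w ≤ 3 / 2 := by
  unfold Pk
  have h1 : 1 - ‖w‖ ≤ ‖1 - w‖ := by
    have := norm_sub_norm_le (1 : ℂ) w
    rwa [norm_one] at this
  have h2 : 0 < 1 - ‖w‖ := by linarith
  rw [div_le_iff₀ (by have := h2.trans_le h1; positivity)]
  have h3 : (1 - ‖w‖) ^ 2 ≤ ‖1 - w‖ ^ 2 := pow_le_pow_left₀ h2.le h1 2
  nlinarith [norm_nonneg w]

/-- The sequence of kernels along the dyadic powers. -/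
noncomputable def qs (y : ℂ) (j : ℕ) : ℝ := Pk (y ^ 2 ^ j)

theorem qs_nonneg {y : ℂ} (hy : ‖y‖ < 1) (j : ℕ) : 0 ≤ qs y j :=
  Pk_nonneg (norm_pow_lt hy (by positivity))

theorem qs_le {y : ℂ} (hy : ‖y‖ < 1) (j : ℕ) : qs y j ≤ 2 * qs y (j + 1) := by
  have h := Pk_le (norm_pow_lt hy (n := 2 ^ j) (by positivity))
  unfold qs
  rwa [pow_succ, pow_mul]

theorem qs_le' {y : ℂ} (hy : ‖y‖ < 1) (j d : ℕ) : qs y j ≤ 2 ^ d * qs y (j + d) := by
  induction d with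
  | zero => simp
  | succ d ih =>
    have h := qs_le hy (j + d)
    calc qs y j ≤ 2 ^ d * qs y (j + d) := ih
      _ ≤ 2 ^ d * (2 * qs y (j + d + 1)) := by gcongr
      _ = 2 ^ (d + 1) * qs y (j + (d + 1)) := by rw [pow_succ, add_assoc]; ring

theorem geom4 (L : ℕ) : ∑ l ∈ Finset.range L, (1 / 4 : ℝ) ^ l ≤ 4 / 3 := by
  have h : ∀ L, ∑ l ∈ Finset.range L, (1 / 4 : ℝ) ^ l = 4 / 3 * (1 - (1 / 4) ^ L) := by
    intro L
    induction L with
    | zero => simp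
    | succ L ih => rw [Finset.sum_range_succ, ih, pow_succ]; ring
  rw [h]
  have : (0 : ℝ) ≤ (1 / 4) ^ L := by positivity
  linarith

/-- The comparison of the poles of the partition function with the zeros of the theta
functions. -/
theorem sum_qs_le {y : ℂ} (hy : ‖y‖ < 1) (I : ℕ) :
    ∑ j ∈ Finset.range (aa I + 1), (1 / 2 : ℝ) ^ j * qs y j ≤
      2 * ∑ i ∈ Finset.range (I + 1), qs y (aa i) := by
  induction I with
  | zero =>
    have := qs_nonneg hy 0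
    simp only [aa_zero, zero_add, Finset.sum_range_one, pow_zero, one_mul]
    linarith
  | succ I ih =>
    rw [Finset.sum_range_succ _ (I + 1), aa_succ,
      show 2 * aa I + 2 + 1 = (aa I + 1) + (aa I + 2) by ring, Finset.sum_range_add]
    have h1 : ∑ x ∈ Finset.range (aa I + 2), (1 / 2 : ℝ) ^ (aa I + 1 + x) *
        qs y (aa I + 1 + x) ≤ 2 * qs y (2 * aa I + 2) := by
      calc ∑ x ∈ Finset.range (aa I + 2), (1 / 2 : ℝ) ^ (aa I + 1 + x) * qs y (aa I + 1 + x)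
          ≤ ∑ x ∈ Finset.range (aa I + 2), (1 / 4 : ℝ) ^ x * qs y (2 * aa I + 2) := by
            refine Finset.sum_le_sum fun x hx => ?_
            have hx' : x ≤ aa I + 1 := by
              have := Finset.mem_range.1 hx
              omega
            obtain ⟨d, hd⟩ := Nat.exists_eq_add_of_le hx'
            have h2 := qs_le' hy (aa I + 1 + x) d
            have h3 : aa I + 1 + x + d = 2 * aa I + 2 := by omega
            rw [h3] at h2
            calc (1 / 2 : ℝ) ^ (aa I + 1 + x) * qs y (aa I + 1 + x)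
                ≤ (1 / 2 : ℝ) ^ (aa I + 1 + x) * (2 ^ d * qs y (2 * aa I + 2)) := by gcongr
              _ = (1 / 4 : ℝ) ^ x * qs y (2 * aa I + 2) := by
                have h4 : (1 / 2 : ℝ) ^ (aa I + 1 + x) * 2 ^ d = (1 / 4 : ℝ) ^ x := by
                  rw [hd, show x + d + x = d + (x + x) by ring, pow_add, pow_add,
                    ← mul_pow]
                  have h5 : (1 / 2 : ℝ) ^ d * ((1 / 2 * (1 / 2)) ^ x) * 2 ^ d =
                      (1 / 2 * 2) ^ d * (1 / 4) ^ x := by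
                    rw [mul_pow (1 / 2 : ℝ) 2 d]
                    norm_num
                    ring
                  rw [h5]
                  norm_num
                rw [← mul_assoc, h4]
        _ = (∑ x ∈ Finset.range (aa I + 2), (1 / 4 : ℝ) ^ x) * qs y (2 * aa I + 2) := by
            rw [Finset.sum_mul]
        _ ≤ 4 / 3 * qs y (2 * aa I + 2) :=
            mul_le_mul_of_nonneg_right (geom4 _) (qs_nonneg hy _)
        _ ≤ 2 * qs y (2 * aa I + 2) := by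
            have := qs_nonneg hy (2 * aa I + 2)
            linarith
    linarith

/-- The combination of kernels. -/
noncomputable def Psi (I : ℕ) (y : ℂ) : ℝ :=
  ∑ j ∈ Finset.range (aa I), (1 / 2 : ℝ) ^ j * (y ^ 2 ^ j / (1 - y ^ 2 ^ j)).re -
    2 * ∑ i ∈ Finset.range I, (y ^ NN i / (1 - y ^ NN i)).re

theorem re_X_abs {w : ℂ} (hw : ‖w‖ ≤ 1 / 2) : |(w / (1 - w)).re| ≤ 2 * ‖w‖ := by
  have h1 : 1 - ‖w‖ ≤ ‖1 - w‖ := by
    have := norm_sub_norm_le (1 : ℂ) w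
    rwa [norm_one] at this
  refine (Complex.abs_re_le_norm _).trans ?_
  rw [norm_div, div_le_iff₀ (by linarith)]
  nlinarith [norm_nonneg w]

theorem half_sum (J : ℕ) : ∑ j ∈ Finset.range J, (1 / 2 : ℝ) ^ j = 2 - 2 * (1 / 2) ^ J := by
  induction J with
  | zero => simp
  | succ J ih => rw [Finset.sum_range_succ, ih, pow_succ]; ring

theorem Psi_le_big {y : ℂ} (hy : ‖y‖ < 1) {I : ℕ} (hI : ‖y‖ ^ NN I ≤ 1 / 2) :
    Psi I y ≤ I + 3 := by
  have h1 : Psi I y = (∑ j ∈ Finset.range (aa I), (1 / 2 : ℝ) ^ j * qs y j -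
      2 * ∑ i ∈ Finset.range I, qs y (aa i)) - (1 / 2) * (2 - 2 * (1 / 2) ^ aa I) + I := by
    unfold Psi
    have e1 : ∀ j, (y ^ 2 ^ j / (1 - y ^ 2 ^ j)).re = qs y j - 1 / 2 := fun j =>
      re_X (norm_pow_lt hy (by positivity))
    have e2 : ∀ i, (y ^ NN i / (1 - y ^ NN i)).re = qs y (aa i) - 1 / 2 := fun i => by
      rw [re_X (norm_pow_lt hy (NN_pos i)), NN_eq]; rfl
    simp only [e1, e2, mul_sub, Finset.sum_sub_distrib, Finset.sum_const, Finset.card_range,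
      ← Finset.sum_mul]
    rw [half_sum]
    simp only [nsmul_eq_mul]
    ring
  have h2 := sum_qs_le hy I
  rw [Finset.sum_range_succ, Finset.sum_range_succ _ I] at h2
  have h3 : 0 ≤ (1 / 2 : ℝ) ^ aa I * qs y (aa I) := mul_nonneg (by positivity) (qs_nonneg hy _)
  have h4 : qs y (aa I) ≤ 3 / 2 := by
    unfold qs
    rw [← NN_eq]
    exact Pk_small (by rw [norm_pow]; exact hI)
  have h5 : (0 : ℝ) ≤ (1 / 2) ^ aa I := by positivity
  have h6 : (1 / 2 : ℝ) ^ aa I ≤ 1 := pow_le_one₀ (by norm_num) (by norm_num)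
  rw [h1]
  linarith

theorem Psi_le_small {y : ℂ} (hy : ‖y‖ ≤ 1 / 2) (I : ℕ) : Psi I y ≤ 4 * (I + 1) * ‖y‖ := by
  have hk : ∀ k, 0 < k → ‖y ^ k‖ ≤ ‖y‖ := fun k hk => by
    rw [norm_pow]
    calc ‖y‖ ^ k ≤ ‖y‖ ^ 1 := pow_le_pow_of_le_one (norm_nonneg y) (by linarith) hk
      _ = ‖y‖ := pow_one _
  have hX : ∀ k, 0 < k → |(y ^ k / (1 - y ^ k)).re| ≤ 2 * ‖y‖ := fun k h => by
    refine (re_X_abs ((hk k h).trans hy)).trans ?_
    have := hk k h
    linarith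
  have h1 : ∑ j ∈ Finset.range (aa I), (1 / 2 : ℝ) ^ j * (y ^ 2 ^ j / (1 - y ^ 2 ^ j)).re ≤
      2 * (2 * ‖y‖) := by
    calc _ ≤ ∑ j ∈ Finset.range (aa I), (1 / 2 : ℝ) ^ j * (2 * ‖y‖) :=
          Finset.sum_le_sum fun j _ =>
            mul_le_mul_of_nonneg_left ((le_abs_self _).trans (hX _ (by positivity)))
              (by positivity)
      _ = (∑ j ∈ Finset.range (aa I), (1 / 2 : ℝ) ^ j) * (2 * ‖y‖) := by rw [Finset.sum_mul]
      _ ≤ 2 * (2 * ‖y‖) := by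
          rw [half_sum]
          have : (0 : ℝ) ≤ (1 / 2) ^ aa I := by positivity
          nlinarith [norm_nonneg y]
  have h2 : -(∑ i ∈ Finset.range I, (y ^ NN i / (1 - y ^ NN i)).re) ≤ I * (2 * ‖y‖) := by
    rw [← Finset.sum_neg_distrib]
    calc _ ≤ ∑ i ∈ Finset.range I, (2 * ‖y‖) :=
          Finset.sum_le_sum fun i _ => (neg_le_abs _).trans (hX _ (NN_pos i))
      _ = I * (2 * ‖y‖) := by rw [Finset.sum_const, Finset.card_range, nsmul_eq_mul]
  unfold Psi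
  linarith

theorem Psi_le {y : ℂ} (hy : ‖y‖ < 1) {I : ℕ} (hI : ‖y‖ ^ NN I ≤ 1 / 2) :
    Psi I y ≤ (4 * I + 6) * ‖y‖ := by
  rcases le_or_gt ‖y‖ (1 / 2) with h | h
  · refine (Psi_le_small h I).trans ?_
    nlinarith [norm_nonneg y]
  · refine (Psi_le_big hy hI).trans ?_
    have : (0 : ℝ) ≤ I := Nat.cast_nonneg I
    nlinarith

end Pool.Agent.Work.MP_6f8877_nt
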