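import Pool.Agent.Work.MP_6f8877_nt.Grow2

/-!
# Part 3: the logarithm of the product
-/

set_option autoImplicit false

open Filter Topology

namespace Pool.Agent.Work.MP_6f8877_nt

/-- The logarithm of the pole factor. -/
noncomputable def RR (y : ℂ) : ℝ := -Real.log ‖1 - y‖

/-- The real part of the inverse hyperbolic tangent. -/
noncomputable def lr (y : ℂ) : ℝ := (Real.log ‖1 + y‖ - Real.log ‖1 - y‖) / 2

theorem RR_step {y : ℂ} (hy : ‖y‖ < 1) : RR y = lr y + 1 / 2 * RR (y ^ 2) := by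
  unfold RR lr
  have h3 : ‖1 - y ^ 2‖ = ‖1 - y‖ * ‖1 + y‖ := by
    rw [← norm_mul]; congr 1; ring
  rw [h3, Real.log_mul (norm_one_sub_pos hy).ne' (norm_one_add_pos hy).ne']
  ring

theorem RR_tele {y : ℂ} (hy : ‖y‖ < 1) (J : ℕ) :
    RR y = ∑ j ∈ Finset.range J, (1 / 2 : ℝ) ^ j * lr (y ^ 2 ^ j) +
      (1 / 2) ^ J * RR (y ^ 2 ^ J) := by
  induction J with
  | zero => simp
  | succ J ih =>
    have h := RR_step (norm_pow_lt hy (n := 2 ^ J) (by positivity))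
    rw [Finset.sum_range_succ, pow_succ (2 : ℕ) J, pow_mul, pow_succ (1 / 2 : ℝ) J]
    rw [h] at ih
    rw [ih]
    ring

/-- The main part of the logarithm of a row. -/
noncomputable def LL (I : ℕ) (y : ℂ) : ℝ :=
  ∑ j ∈ Finset.range (aa I), (1 / 2 : ℝ) ^ j * lr (y ^ 2 ^ j) -
    2 * ∑ i ∈ Finset.range I, lr (y ^ NN i)

theorem norm_Sr {y : ℂ} (hy : ‖y‖ < 1) (I : ℕ) :
    ‖Sr I y‖ = Real.exp (LL I y + (1 / 2) ^ aa I * RR (y ^ NN I)) := by
  have h1 : ‖Sr I y‖ = Real.exp (RR y - 2 * ∑ i ∈ Finset.range I, lr (y ^ NN i)) := by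
    induction I with
    | zero =>
      simp only [Sr, RR, Finset.range_zero, Finset.prod_empty, Finset.sum_empty, mul_one,
        mul_zero, sub_zero, norm_inv]
      rw [Real.exp_neg, Real.exp_log (norm_one_sub_pos hy)]
    | succ I ih =>
      have h4 : Sr (I + 1) y = Sr I y * ((1 - y ^ NN I) / (1 + y ^ NN I)) := by
        rw [Sr, Sr, Finset.prod_range_succ, mul_assoc]
      have hw := norm_pow_lt hy (NN_pos I)
      rw [h4, norm_mul, ih, Finset.sum_range_succ, mul_add, ← sub_sub, sub_eq_add_neg _ (2 * lr _),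
        Real.exp_add]
      congr 1
      have h5 : -(2 * lr (y ^ NN I)) = Real.log ‖1 - y ^ NN I‖ - Real.log ‖1 + y ^ NN I‖ := by
        unfold lr; ring
      rw [h5, Real.exp_sub, Real.exp_log (norm_one_sub_pos hw), Real.exp_log (norm_one_add_pos hw),
        norm_div]
  rw [h1, RR_tele hy (aa I), LL, NN_eq]
  congr 1
  ring

theorem RR_le {w : ℂ} (hw : ‖w‖ ≤ 1 / 2) : RR w ≤ 2 * ‖w‖ := by
  have h1 : 1 - ‖w‖ ≤ ‖1 - w‖ := by
    have := norm_sub_norm_le (1 : ℂ) w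
    rwa [norm_one] at this
  have h2 : 0 < 1 - ‖w‖ := by linarith
  have h3 := Real.one_sub_inv_le_log_of_pos (h2.trans_le h1)
  unfold RR
  have h4 : ‖1 - w‖⁻¹ ≤ (1 - ‖w‖)⁻¹ := inv_anti₀ h2 h1
  have h5 : (1 - ‖w‖)⁻¹ ≤ 1 + 2 * ‖w‖ := by
    rw [inv_le_comm₀ h2 (by have := norm_nonneg w; linarith), inv_eq_one_div, div_le_iff₀
      (by have := norm_nonneg w; linarith)]
    nlinarith [norm_nonneg w]
  linarith

/-- Coefficients of the inverse hyperbolic tangent. -/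
noncomputable def atc (n : ℕ) : ℝ := (1 - (-1) ^ n) / (2 * n)

theorem atc_nonneg (n : ℕ) : 0 ≤ atc n := by
  unfold atc
  rcases neg_one_pow_eq_or ℝ n with h | h <;> rw [h]
  · simp
  · positivity

theorem atc_zero : atc 0 = 0 := by simp [atc]

theorem atc_le (n : ℕ) : atc n ≤ 1 := by
  rcases Nat.eq_zero_or_pos n with rfl | hn
  · simp [atc]
  · unfold atc
    have h1 : (1 : ℝ) ≤ n := by exact_mod_cast hn
    rw [div_le_one (by positivity)]
    rcases neg_one_pow_eq_or ℝ n with h | h <;> rw [h] <;> linarith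

theorem hasSum_lr {y : ℂ} (hy : ‖y‖ < 1) : HasSum (fun n => atc n * (y ^ n).re) (lr y) := by
  have h1 := Complex.hasSum_re (Complex.hasSum_taylorSeries_neg_log hy)
  have h2 := Complex.hasSum_re (Complex.hasSum_taylorSeries_neg_log (z := -y)
    (by rwa [norm_neg]))
  have h3 := (h1.sub h2).div_const 2
  have h4 : ((-Complex.log (1 - y)).re - (-Complex.log (1 - -y)).re) / 2 = lr y := by
    rw [Complex.neg_re, Complex.neg_re, Complex.log_re, Complex.log_re, sub_neg_eq_add, lr]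
    ring_nf
  rw [h4] at h3
  have e : (fun n : ℕ => atc n * (y ^ n).re) =
      fun n : ℕ => ((y ^ n / (n : ℂ)).re - ((-y) ^ n / (n : ℂ)).re) / 2 := ?_
  · rw [e]
    exact h3
  funext n
  have h5 : (y ^ n / (n : ℂ)).re = (y ^ n).re / n := by
    rw [← Complex.ofReal_natCast, Complex.div_ofReal_re]
  have h6 : ((-y) ^ n / (n : ℂ)).re = (-1) ^ n * (y ^ n).re / n := by
    rw [← Complex.ofReal_natCast, Complex.div_ofReal_re, neg_pow]
    rcases Nat.even_or_odd n with h | h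
    · rw [h.neg_one_pow, h.neg_one_pow, one_mul, one_mul]
    · rw [h.neg_one_pow, h.neg_one_pow, neg_one_mul, neg_one_mul, Complex.neg_re]
  rw [h5, h6, atc]
  rcases Nat.eq_zero_or_pos n with rfl | hn
  · simp
  · have : (n : ℝ) ≠ 0 := by positivity
    field_simp

theorem hasSum_X {w : ℂ} (hw : ‖w‖ < 1) :
    HasSum (fun k : ℕ => (w ^ (k + 1)).re) (w / (1 - w)).re := by
  have h1 := Complex.hasSum_re ((hasSum_geometric_of_norm_lt_one hw).mul_left w)
  rw [← div_eq_mul_inv] at h1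
  convert h1 using 1
  funext k
  rw [pow_succ, mul_comm]

/-- The exchange of summations. -/
theorem swap_sum {z : ℂ} (hz : ‖z‖ < 1) :
    ∃ S, HasSum (fun k : ℕ => lr (z ^ (k + 1))) S ∧
      HasSum (fun n => atc n * (z ^ n / (1 - z ^ n)).re) S := by
  have hgeo : Summable (fun n : ℕ => ‖z‖ ^ n) := summable_geometric_of_lt_one (norm_nonneg z) hz
  set f : ℕ × ℕ → ℝ := fun p => atc p.2 * ((z ^ (p.1 + 1)) ^ p.2).re with hf
  have hfs : Summable f := by
    refine Summable.of_norm_bounded (hgeo.mul_of_nonneg hgeo (fun n => by positivity)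
      (fun n => by positivity)) ?_
    rintro ⟨k, n⟩
    simp only [hf]
    rw [norm_mul, Real.norm_of_nonneg (atc_nonneg n)]
    rcases Nat.eq_zero_or_pos n with rfl | hn
    · rw [atc_zero, zero_mul]; positivity
    have h1 : ‖((z ^ (k + 1)) ^ n).re‖ ≤ ‖z‖ ^ k * ‖z‖ ^ n := by
      refine (Complex.abs_re_le_norm _).trans ?_
      rw [norm_pow, norm_pow, ← pow_mul, ← pow_add]
      refine pow_le_pow_of_le_one (norm_nonneg z) hz.le ?_
      nlinarith
    calc atc n * ‖((z ^ (k + 1)) ^ n).re‖ ≤ 1 * (‖z‖ ^ k * ‖z‖ ^ n) :=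
          mul_le_mul (atc_le n) h1 (norm_nonneg _) zero_le_one
      _ = _ := one_mul _
  refine ⟨∑' p, f p, ?_, ?_⟩
  · exact hfs.hasSum.prod_fiberwise fun k => hasSum_lr (norm_pow_lt hz (Nat.succ_pos k))
  · have h2 : HasSum (f ∘ Prod.swap) (∑' p, f p) :=
      (Equiv.prodComm ℕ ℕ).hasSum_iff.2 hfs.hasSum
    refine h2.prod_fiberwise fun n => ?_
    simp only [Function.comp, hf, Prod.swap]
    rcases Nat.eq_zero_or_pos n with rfl | hn
    · simp only [atc_zero, zero_mul]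
      exact hasSum_zero
    have h3 := (hasSum_X (norm_pow_lt hz hn)).mul_left (atc n)
    have e : (fun k : ℕ => atc n * ((z ^ (k + 1)) ^ n).re) =
        fun k : ℕ => atc n * ((z ^ n) ^ (k + 1)).re := by
      funext k
      rw [← pow_mul, ← pow_mul, mul_comm n]
    rw [e]
    exact h3

theorem LL_sum {z : ℂ} (hz : ‖z‖ < 1) (I : ℕ) :
    ∃ S, HasSum (fun k : ℕ => LL I (z ^ (k + 1))) S ∧ HasSum (fun n => atc n * Psi I (z ^ n)) S := by
  have h1 : ∀ m : ℕ, ∃ S, 0 < m → HasSum (fun k : ℕ => lr ((z ^ (k + 1)) ^ m)) S ∧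
      HasSum (fun n => atc n * ((z ^ n) ^ m / (1 - (z ^ n) ^ m)).re) S := by
    intro m
    rcases Nat.eq_zero_or_pos m with rfl | hm
    · exact ⟨0, fun h => absurd h (lt_irrefl 0)⟩
    · obtain ⟨S, h1, h2⟩ := swap_sum (norm_pow_lt hz hm)
      refine ⟨S, fun _ => ⟨?_, ?_⟩⟩
      · simpa only [← pow_mul, mul_comm m] using h1
      · simpa only [← pow_mul, mul_comm m] using h2
  choose S hS using h1
  refine ⟨∑ j ∈ Finset.range (aa I), (1 / 2 : ℝ) ^ j * S (2 ^ j) -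
    2 * ∑ i ∈ Finset.range I, S (NN i), ?_, ?_⟩
  · unfold LL
    refine HasSum.sub (hasSum_sum fun j _ => ?_) (HasSum.mul_left 2 (hasSum_sum fun i _ => ?_))
    · exact (hS (2 ^ j) (by positivity)).1.mul_left _
    · exact (hS (NN i) (NN_pos i)).1
  · have h2 : HasSum (fun n => ∑ j ∈ Finset.range (aa I), (1 / 2 : ℝ) ^ j *
        (atc n * ((z ^ n) ^ 2 ^ j / (1 - (z ^ n) ^ 2 ^ j)).re) -
        2 * ∑ i ∈ Finset.range I, atc n * ((z ^ n) ^ NN i / (1 - (z ^ n) ^ NN i)).re)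
        (∑ j ∈ Finset.range (aa I), (1 / 2 : ℝ) ^ j * S (2 ^ j) -
          2 * ∑ i ∈ Finset.range I, S (NN i)) := by
      refine HasSum.sub (hasSum_sum fun j _ => ?_) (HasSum.mul_left 2 (hasSum_sum fun i _ => ?_))
      · exact (hS (2 ^ j) (by positivity)).2.mul_left _
      · exact (hS (NN i) (NN_pos i)).2
    convert h2 using 1
    funext n
    rw [Psi, mul_sub, Finset.mul_sum, Finset.mul_sum, Finset.mul_sum, Finset.mul_sum]
    congr 1
    · refine Finset.sum_congr rfl fun j _ => ?_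
      ring
    · refine Finset.sum_congr rfl fun j _ => ?_
      ring

theorem LL_sum_le {z : ℂ} (hz : ‖z‖ < 1) {I : ℕ} (hI : ‖z‖ ^ NN I ≤ 1 / 2) :
    ∃ S, HasSum (fun k : ℕ => LL I (z ^ (k + 1))) S ∧ S ≤ (4 * I + 6) * lr (‖z‖ : ℂ) := by
  obtain ⟨S, h1, h2⟩ := LL_sum hz I
  refine ⟨S, h1, ?_⟩
  have h3 := (hasSum_lr (y := (‖z‖ : ℂ)) (by simpa using hz)).mul_left (4 * I + 6 : ℝ)
  refine hasSum_le (fun n => ?_) h2 h3
  rcases Nat.eq_zero_or_pos n with rfl | hn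
  · simp [atc_zero]
  have h4 : Psi I (z ^ n) ≤ (4 * I + 6) * ‖z ^ n‖ := by
    refine Psi_le (norm_pow_lt hz hn) ?_
    rw [norm_pow, ← pow_mul, mul_comm, pow_mul]
    calc (‖z‖ ^ NN I) ^ n ≤ (‖z‖ ^ NN I) ^ 1 :=
          pow_le_pow_of_le_one (by positivity) (by linarith) hn
      _ ≤ 1 / 2 := by rwa [pow_one]
  have h5 : (((‖z‖ : ℂ)) ^ n).re = ‖z ^ n‖ := by
    rw [← Complex.ofReal_pow, Complex.ofReal_re, norm_pow]
  rw [h5]
  calc atc n * Psi I (z ^ n) ≤ atc n * ((4 * I + 6) * ‖z ^ n‖) :=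
        mul_le_mul_of_nonneg_left h4 (atc_nonneg n)
    _ = _ := by ring

theorem tail_le {z : ℂ} {N : ℕ} (hN : ‖z‖ ^ N ≤ 1 / 2) (K : ℕ) :
    ∑ k ∈ Finset.range K, RR ((z ^ (k + 1)) ^ N) ≤ 2 := by
  have h1 : ∀ k, RR ((z ^ (k + 1)) ^ N) ≤ (1 / 2) ^ k := by
    intro k
    have h2 : ‖(z ^ (k + 1)) ^ N‖ ≤ (1 / 2) ^ (k + 1) := by
      rw [← pow_mul, mul_comm, pow_mul, norm_pow, norm_pow]
      exact pow_le_pow_left₀ (by positivity) hN _
    have h3 : (1 / 2 : ℝ) ^ (k + 1) ≤ 1 / 2 := by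
      rw [pow_succ]
      have : (1 / 2 : ℝ) ^ k ≤ 1 := pow_le_one₀ (by norm_num) (by norm_num)
      linarith
    refine (RR_le (h2.trans h3)).trans ?_
    rw [pow_succ (1 / 2 : ℝ)] at h2
    linarith
  calc _ ≤ ∑ k ∈ Finset.range K, (1 / 2 : ℝ) ^ k := Finset.sum_le_sum fun k _ => h1 k
    _ ≤ 2 := by
      rw [half_sum]
      have : (0 : ℝ) ≤ (1 / 2) ^ K := by positivity
      linarith

/-- The bound for the generating function. -/
theorem norm_F_le {I : ℕ} {z : ℂ} (hz : ‖z‖ < 1) (hI : ‖z‖ ^ NN I ≤ 1 / 2) :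
    ‖∑' n, PowerSeries.coeff n (Nat.Partition.genFun (fun _ j => (sgI I j : ℂ))) * z ^ n‖ ≤
      Real.exp ((4 * I + 6) * lr (‖z‖ : ℂ) + 2) := by
  obtain ⟨S, h1, h2⟩ := LL_sum_le hz hI
  have h3 := (tendsto_prod_rows (ε := fun _ j => (sgI I j : ℂ)) (fun _ j => sgI_norm I j) hz).norm
  have h4 : Tendsto (fun K => Real.exp (∑ k ∈ Finset.range K, LL I (z ^ (k + 1)) + 2)) atTop
      (𝓝 (Real.exp (S + 2))) :=
    (Real.continuous_exp.tendsto _).comp (h1.tendsto_sum_nat.add_const 2)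
  refine (le_of_tendsto_of_tendsto' h3 h4 fun K => ?_).trans (Real.exp_le_exp.2 (by linarith))
  rw [norm_prod]
  have h5 : ∀ k ∈ Finset.range K, ‖1 + ∑' j, (sgI I (j + 1) : ℂ) * (z ^ (k + 1)) ^ (j + 1)‖ =
      Real.exp (LL I (z ^ (k + 1)) + (1 / 2) ^ aa I * RR ((z ^ (k + 1)) ^ NN I)) := by
    intro k _
    rw [row_sgI I (norm_pow_lt hz (Nat.succ_pos k)), norm_Sr (norm_pow_lt hz (Nat.succ_pos k))]
  rw [Finset.prod_congr rfl h5, ← Real.exp_sum, Finset.sum_add_distrib, ← Finset.mul_sum]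
  refine Real.exp_le_exp.2 ?_
  have h6 := tail_le hI K
  have h7 : (1 / 2 : ℝ) ^ aa I ≤ 1 := pow_le_one₀ (by norm_num) (by norm_num)
  have h8 : (0 : ℝ) < (1 / 2) ^ aa I := by positivity
  have h9 : (1 / 2 : ℝ) ^ aa I * ∑ k ∈ Finset.range K, RR ((z ^ (k + 1)) ^ NN I) ≤ 2 := by
    calc _ ≤ (1 / 2 : ℝ) ^ aa I * 2 := mul_le_mul_of_nonneg_left h6 h8.le
      _ ≤ 2 := by linarith
  linarith

end Pool.Agent.Work.MP_6f8877_nt
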