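import Pool.Agent.Work.MP_6f8877_nt.Grow3

/-!
# Part 4: the coefficients
-/

set_option autoImplicit false

open Filter Topology
open scoped PowerSeries.WithPiTopology

namespace Pool.Agent.Work.MP_6f8877_nt

/-- Absolute convergence of the generating function in the unit disc. -/
theorem summable_genFun {ε : ℕ → ℕ → ℂ} (hε : ∀ i j, ‖ε i j‖ ≤ 1) {z : ℂ} (hz : ‖z‖ < 1) :
    Summable (fun n => PowerSeries.coeff n (Nat.Partition.genFun ε) * z ^ n) := by
  obtain ⟨s, hs1, hs2⟩ := exists_between hz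
  have hs0 : 0 < s := (norm_nonneg z).trans_lt hs1
  set C := Real.exp (∑' i : ℕ, s ^ (i + 1) / (1 - s)) with hC
  have hQ : ∀ K n, PowerSeries.coeff n (∏ i ∈ Finset.range K, rowE (fun _ => (1 : ℝ)) (i + 1))
      * s ^ n ≤ C := by
    intro K n
    have h1 := HS.prod (A := fun i => rowE (fun _ => (1 : ℝ)) (i + 1))
      (fun i => HS.rowE (c := fun _ => (1 : ℝ)) (fun _ => by simp) i
        (z := s) (by rw [Real.norm_of_nonneg hs0.le]; exact hs2)) K
    have h2 := h1.2
    have h3 : ∀ m, 0 ≤ PowerSeries.coeff m (∏ i ∈ Finset.range K,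
        rowE (fun _ => (1 : ℝ)) (i + 1)) * s ^ m := by
      intro m
      have h4 := maj_prod (A := fun i => rowE (fun _ => (1 : ℂ)) (i + 1))
        (Q := fun i => rowE (fun _ => (1 : ℝ)) (i + 1)) (by
          intro i n
          simp only [rowE, PowerSeries.coeff_mk]
          split_ifs <;> simp) K m
      have := (norm_nonneg _).trans h4
      positivity
    calc _ ≤ ∑' m, PowerSeries.coeff m (∏ i ∈ Finset.range K,
          rowE (fun _ => (1 : ℝ)) (i + 1)) * s ^ m := h2.summable.le_tsum n (fun m _ => h3 m)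
      _ = _ := h2.tsum_eq
      _ ≤ C := prod_bound hs0.le hs2 K
  have hP : ∀ K n, ‖PowerSeries.coeff n (∏ i ∈ Finset.range K, rowE (ε (i + 1)) (i + 1)) * z ^ n‖
      ≤ C * (‖z‖ / s) ^ n := by
    intro K n
    have h4 := maj_prod (A := fun i => rowE (ε (i + 1)) (i + 1))
        (Q := fun i => rowE (fun _ => (1 : ℝ)) (i + 1)) (by
          intro i n
          simp only [rowE, PowerSeries.coeff_mk]
          split_ifs
          · simp
          · exact hε _ _
          · simp) K n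
    rw [norm_mul, norm_pow, div_pow]
    have h5 := hQ K n
    have h6 : 0 < s ^ n := by positivity
    calc _ ≤ PowerSeries.coeff n (∏ i ∈ Finset.range K, rowE (fun _ => (1 : ℝ)) (i + 1))
          * ‖z‖ ^ n := by gcongr
      _ = (PowerSeries.coeff n (∏ i ∈ Finset.range K, rowE (fun _ => (1 : ℝ)) (i + 1)) * s ^ n)
          * (‖z‖ ^ n / s ^ n) := by field_simp
      _ ≤ C * (‖z‖ ^ n / s ^ n) := by gcongr
  have hlim : ∀ n, Tendsto (fun K => PowerSeries.coeff n
      (∏ i ∈ Finset.range K, rowE (ε (i + 1)) (i + 1)) * z ^ n) atTop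
      (𝓝 (PowerSeries.coeff n (Nat.Partition.genFun ε) * z ^ n)) := by
    intro n
    have h1 := (Nat.Partition.hasProd_genFun ε).tendsto_prod_nat
    have h2 := ((PowerSeries.WithPiTopology.continuous_coeff ℂ n).tendsto _).comp h1
    have h3 : (fun K => PowerSeries.coeff n (∏ i ∈ Finset.range K, rowE (ε (i + 1)) (i + 1)))
        = (PowerSeries.coeff n) ∘ (fun K => ∏ i ∈ Finset.range K, ((1 : PowerSeries ℂ)
          + ∑' j, ε (i + 1) (j + 1) • PowerSeries.X ^ ((i + 1) * (j + 1)))) := by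
      funext K
      simp only [Function.comp]
      congr 1
      refine Finset.prod_congr rfl (fun i _ => ?_)
      rw [row_eq_rowE]
    rw [← h3] at h2
    exact h2.mul_const _
  refine Summable.of_norm_bounded (g := fun n => C * (‖z‖ / s) ^ n)
    ((summable_geometric_of_lt_one (by positivity) ((div_lt_one hs0).2 hs1)).mul_left C)
    fun n => ?_
  exact le_of_tendsto (hlim n).norm (Eventually.of_forall fun K => hP K n)

theorem lr_ratio {n : ℕ} (hn : 1 ≤ n) :
    lr (((n : ℝ) / (n + 1) : ℝ) : ℂ) = Real.log (2 * n + 1) / 2 := by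
  have h0 : (0 : ℝ) < n := by exact_mod_cast hn
  have h1 : ‖(1 : ℂ) + (((n : ℝ) / (n + 1) : ℝ) : ℂ)‖ = (2 * n + 1) / (n + 1) := by
    have : (1 : ℂ) + (((n : ℝ) / (n + 1) : ℝ) : ℂ) = (((2 * n + 1) / (n + 1) : ℝ) : ℂ) := by
      have h2 : (1 : ℝ) + (n : ℝ) / (n + 1) = (2 * n + 1) / (n + 1) := by field_simp; ring
      rw [← h2]
      push_cast
      ring
    rw [this, Complex.norm_real, Real.norm_of_nonneg (by positivity)]
  have h2 : ‖(1 : ℂ) - (((n : ℝ) / (n + 1) : ℝ) : ℂ)‖ = 1 / (n + 1) := by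
    have : (1 : ℂ) - (((n : ℝ) / (n + 1) : ℝ) : ℂ) = ((1 / (n + 1) : ℝ) : ℂ) := by
      have h2 : (1 : ℝ) - (n : ℝ) / (n + 1) = 1 / (n + 1) := by field_simp; ring
      rw [← h2]
      push_cast
      ring
    rw [this, Complex.norm_real, Real.norm_of_nonneg (by positivity)]
  rw [lr, h1, h2, ← Real.log_div (by positivity) (by positivity)]
  congr 2
  field_simp

theorem coeff_le {I n : ℕ} (hn : 1 ≤ n) (hI : n ≤ NN I) :
    ‖PowerSeries.coeff n (Nat.Partition.genFun (fun _ j => (sgI I j : ℂ)))‖ ≤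
      Real.exp 3 * (2 * n + 1) ^ (2 * I + 3) := by
  have h0 : (0 : ℝ) < n := by exact_mod_cast hn
  set r : ℝ := (n : ℝ) / (n + 1) with hr
  have hr0 : 0 < r := by positivity
  have hr1 : r < 1 := by rw [hr, div_lt_one (by positivity)]; linarith
  have hinv : r⁻¹ = 1 + 1 / n := by rw [hr]; field_simp
  have hr2 : r ^ n ≤ 1 / 2 := by
    have h1 := one_add_mul_le_pow (a := 1 / (n : ℝ)) (by
      have : (0 : ℝ) < 1 / n := by positivity
      linarith) n
    have h2 : (n : ℝ) * (1 / n) = 1 := by field_simp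
    rw [h2, ← hinv, inv_pow] at h1
    have h3 : 0 < r ^ n := by positivity
    rw [le_inv_comm₀ (by norm_num) h3] at h1
    norm_num at h1
    linarith
  have hr3 : Real.exp (-1) ≤ r ^ n := by
    have h1 : (1 + 1 / (n : ℝ)) ^ n ≤ Real.exp 1 := by
      have h2 : 1 + 1 / (n : ℝ) ≤ Real.exp (1 / n) := by
        have := Real.add_one_le_exp (1 / (n : ℝ))
        linarith
      calc (1 + 1 / (n : ℝ)) ^ n ≤ Real.exp (1 / n) ^ n := by gcongr
        _ = Real.exp 1 := by
          rw [← Real.exp_nat_mul]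
          congr 1
          field_simp
    rw [← hinv, inv_pow] at h1
    rw [Real.exp_neg]
    exact inv_le_of_inv_le₀ (by positivity) h1
  set F : ℂ → ℂ := fun z =>
    ∑' n, PowerSeries.coeff n (Nat.Partition.genFun (fun _ j => (sgI I j : ℂ))) * z ^ n with hF
  have hrep : Rep F (Nat.Partition.genFun (fun _ j => (sgI I j : ℂ))) 1 := fun z hz =>
    (summable_genFun (fun _ j => sgI_norm I j) hz).hasSum
  set M : ℝ := Real.exp 2 * (2 * n + 1) ^ (2 * I + 3) with hM
  have hMpos : 0 < M := by positivity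
  have hFM : ∀ z : ℂ, ‖z‖ = r → ‖F z‖ ≤ M := by
    intro z hz
    have h1 : ‖z‖ ^ NN I ≤ 1 / 2 := by
      rw [hz]
      exact (pow_le_pow_of_le_one hr0.le hr1.le hI).trans hr2
    refine (norm_F_le (by rw [hz]; exact hr1) h1).trans (le_of_eq ?_)
    rw [hz, hr, lr_ratio hn, hM, Real.exp_add, mul_comm]
    congr 1
    rw [show (4 * (I : ℝ) + 6) * (Real.log (2 * n + 1) / 2) =
      ((2 * I + 3 : ℕ) : ℝ) * Real.log (2 * n + 1) by push_cast; ring, Real.exp_nat_mul,
      Real.exp_log (by positivity)]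
  have hpar := hrep.parseval hr0.le hr1
  have h5 := le_hasSum hpar n (fun m _ => by positivity)
  have hcont : ContinuousOn (fun z : ℂ => ‖F z‖ ^ 2) (Metric.sphere 0 |r|) := by
    refine (ContinuousOn.norm ?_).pow 2
    refine (hrep.differentiableOn one_pos).continuousOn.mono ?_
    intro z hz
    rw [mem_sphere_zero_iff_norm, abs_of_pos hr0] at hz
    rw [mem_ball_zero_iff, hz]
    exact hr1
  have h6 : Real.circleAverage (fun z => ‖F z‖ ^ 2) 0 r ≤ M ^ 2 := by
    refine Real.circleAverage_mono_on_of_le_circle hcont.circleIntegrable' ?_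
    intro z hz
    rw [mem_sphere_zero_iff_norm, abs_of_pos hr0] at hz
    exact pow_le_pow_left₀ (norm_nonneg _) (hFM z hz) 2
  set A : ℝ := ‖PowerSeries.coeff n (Nat.Partition.genFun (fun _ j => (sgI I j : ℂ)))‖ with hA
  have hA0 : 0 ≤ A := norm_nonneg _
  have h7 : (A * r ^ n) ^ 2 ≤ M ^ 2 := by
    calc (A * r ^ n) ^ 2 = A ^ 2 * (r ^ 2) ^ n := by
          rw [mul_pow, ← pow_mul, ← pow_mul, mul_comm n 2]
      _ ≤ M ^ 2 := h5.trans h6
  have h8 : A * r ^ n ≤ M := by
    exact le_of_sq_le_sq h7 hMpos.le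
  have h9 : A * Real.exp (-1) ≤ M := (mul_le_mul_of_nonneg_left hr3 hA0).trans h8
  calc A = (A * Real.exp (-1)) * Real.exp 1 := by
        rw [mul_assoc, ← Real.exp_add]
        norm_num
    _ ≤ M * Real.exp 1 := mul_le_mul_of_nonneg_right h9 (Real.exp_pos 1).le
    _ = Real.exp 3 * (2 * n + 1) ^ (2 * I + 3) := by
        rw [hM, mul_right_comm, ← Real.exp_add]
        norm_num

theorem count_le {n : ℕ} (p : Nat.Partition n) (i : ℕ) : p.parts.count i ≤ n := by
  have h1 : p.parts.card • 1 ≤ p.parts.sum :=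
    Multiset.card_nsmul_le_sum fun x hx => p.parts_pos hx
  have h2 := p.parts_sum
  have h3 := Multiset.count_le_card i p.parts
  rw [smul_eq_mul, mul_one, h2] at h1
  exact h3.trans h1

/-- The coefficients of the signed generating function. -/
theorem bound_explicit {I n : ℕ} (hn : 1 ≤ n) (hI : n < NN I) :
    |((∑ p : Nat.Partition n, ∏ i ∈ p.parts.toFinset, sg (p.parts.count i) : ℤ) : ℝ)| ≤
      Real.exp 3 * (2 * n + 1) ^ (2 * I + 3) := by
  have h1 := coeff_le hn hI.le
  have h2 : PowerSeries.coeff n (Nat.Partition.genFun (fun _ j => (sgI I j : ℂ))) =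
      (((∑ p : Nat.Partition n, ∏ i ∈ p.parts.toFinset, sg (p.parts.count i) : ℤ) : ℝ) : ℂ) := by
    rw [Nat.Partition.coeff_genFun]
    push_cast
    refine Finset.sum_congr rfl fun p _ => ?_
    rw [Finsupp.prod]
    refine Finset.prod_congr (by ext; simp) fun i _ => ?_
    rw [sg_eq ((count_le p i).trans_lt hI)]
    rfl
  rw [h2, Complex.norm_real, Real.norm_eq_abs] at h1
  exact h1

theorem log_three_ge : 1 ≤ Real.log 3 := by
  rw [Real.le_log_iff_exp_le (by norm_num)]
  have := Real.exp_one_lt_d9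
  linarith

theorem exists_scale {n : ℕ} (hn : 3 ≤ n) :
    ∃ I : ℕ, n < NN I ∧ (I : ℝ) ≤ 2 + 3 / 2 * Real.log (Real.log n) := by
  have hex : ∃ I, n < NN I := ⟨n, lt_NN n⟩
  classical
  obtain ⟨J, hJ⟩ : ∃ J, Nat.find hex = J + 1 := by
    refine Nat.exists_eq_succ_of_ne_zero fun h0 => ?_
    have h1 := Nat.find_spec hex
    rw [h0] at h1
    have h2 : NN 0 = 1 := by norm_num [NN]
    omega
  have h1 : n < NN (J + 1) := hJ ▸ Nat.find_spec hex
  have h2 : NN J ≤ n := by
    have := Nat.find_min hex (m := J) (by omega)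
    omega
  refine ⟨J + 1, h1, ?_⟩
  have hn' : (3 : ℝ) ≤ n := by exact_mod_cast hn
  have hlog : 1 ≤ Real.log n := log_three_ge.trans (Real.log_le_log (by norm_num) hn')
  have h3 : ((2 : ℝ) ^ J - 1) * Real.log 4 ≤ Real.log n := by
    have h4 : ((4 : ℝ) ^ (2 ^ J - 1)) ≤ n := by exact_mod_cast h2
    have h5 := Real.log_le_log (by positivity) h4
    rw [Real.log_pow] at h5
    have h6 : ((2 ^ J - 1 : ℕ) : ℝ) = (2 : ℝ) ^ J - 1 := by
      rw [Nat.cast_sub Nat.one_le_two_pow]
      push_cast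
      ring
    rwa [h6] at h5
  have h4 : 1 ≤ Real.log 4 := log_three_ge.trans (Real.log_le_log (by norm_num) (by norm_num))
  have h5 : (1 : ℝ) ≤ 2 ^ J := one_le_pow₀ (by norm_num)
  have h6 : (2 : ℝ) ^ J ≤ 2 * Real.log n := by nlinarith
  have h7 : (J : ℝ) * Real.log 2 ≤ Real.log 2 + Real.log (Real.log n) := by
    have h8 := Real.log_le_log (by positivity) h6
    rwa [Real.log_pow, Real.log_mul (by norm_num) (by positivity)] at h8
  have h8 := Real.log_two_gt_d9
  have h9 : 0 ≤ Real.log (Real.log n) := Real.log_nonneg hlog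
  push_cast
  have h10 : ((J : ℝ) - 1) * Real.log 2 ≤ Real.log (Real.log n) := by linarith
  have h11 : (J : ℝ) - 1 ≤ 3 / 2 * Real.log (Real.log n) := by
    rcases le_or_gt ((J : ℝ) - 1) 0 with h | h
    · exact h.trans (by positivity)
    · nlinarith
  linarith

theorem bound_loglog {n : ℕ} (hn : 3 ≤ n) :
    |((∑ p : Nat.Partition n, ∏ i ∈ p.parts.toFinset, sg (p.parts.count i) : ℤ) : ℝ)| ≤
      (n : ℝ) ^ (17 + 6 * Real.log (Real.log n)) := by
  obtain ⟨I, hI, hI2⟩ := exists_scale hn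
  have h1 := bound_explicit (by omega) hI
  have hn' : (3 : ℝ) ≤ n := by exact_mod_cast hn
  refine h1.trans ?_
  have h2 : Real.exp 3 ≤ (n : ℝ) ^ (3 : ℝ) := by
    have h3 : Real.exp 3 = Real.exp 1 ^ 3 := by
      rw [← Real.exp_nat_mul]; norm_num
    rw [h3, show (3 : ℝ) = ((3 : ℕ) : ℝ) by norm_num, Real.rpow_natCast]
    refine pow_le_pow_left₀ (Real.exp_pos 1).le ?_ 3
    have := Real.exp_one_lt_d9
    linarith
  have h3 : (2 * (n : ℝ) + 1) ^ (2 * I + 3) ≤ (n : ℝ) ^ (14 + 6 * Real.log (Real.log n)) := by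
    calc (2 * (n : ℝ) + 1) ^ (2 * I + 3) ≤ ((n : ℝ) ^ 2) ^ (2 * I + 3) := by
          gcongr
          nlinarith
      _ = (n : ℝ) ^ ((2 * (2 * I + 3) : ℕ) : ℝ) := by
          rw [Real.rpow_natCast, ← pow_mul]
      _ ≤ _ := by
          refine Real.rpow_le_rpow_of_exponent_le (by linarith) ?_
          push_cast
          linarith
  calc Real.exp 3 * (2 * (n : ℝ) + 1) ^ (2 * I + 3)
      ≤ (n : ℝ) ^ (3 : ℝ) * (n : ℝ) ^ (14 + 6 * Real.log (Real.log n)) := by gcongr
    _ = _ := by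
      rw [← Real.rpow_add (by linarith)]
      congr 1
      ring

end Pool.Agent.Work.MP_6f8877_nt
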