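import Pool.Agent.Work.MP_6f8877_nt.Grow4

/-!
# Rows with zeros inside the unit disc are rare
-/

set_option autoImplicit false

open Filter Topology Metric

namespace Pool.Agent.Work.MP_6f8877_nt

/-- The function of a row. -/
noncomputable def rowf (c : ℕ → ℂ) (y : ℂ) : ℂ := 1 + ∑' j, c (j + 1) * y ^ (j + 1)

theorem rowf_rep {c : ℕ → ℂ} (hc : ∀ j, ‖c j‖ ≤ 1) : Rep (rowf c) (rowE c 1) 1 := by
  intro z hz
  have h := (HS.rowE hc 0 hz).2
  simp only [zero_add, pow_one] at h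
  exact h

theorem rowf_diff {c : ℕ → ℂ} (hc : ∀ j, ‖c j‖ ≤ 1) : DifferentiableOn ℂ (rowf c) (ball 0 1) :=
  (rowf_rep hc).differentiableOn one_pos

theorem rowf_zero (c : ℕ → ℂ) : rowf c 0 = 1 := by
  simp [rowf]

/-- The generating function. -/
noncomputable def GF (ε : ℕ → ℕ → ℂ) (z : ℂ) : ℂ :=
  ∑' n, PowerSeries.coeff n (Nat.Partition.genFun ε) * z ^ n

theorem GF_rep {ε : ℕ → ℕ → ℂ} (hε : ∀ i j, ‖ε i j‖ ≤ 1) :
    Rep (GF ε) (Nat.Partition.genFun ε) 1 := fun _ hz => (summable_genFun hε hz).hasSum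

theorem GF_zero {ε : ℕ → ℕ → ℂ} (hε : ∀ i j, ‖ε i j‖ ≤ 1) : GF ε 0 = 1 := by
  rw [(GF_rep hε).apply_zero one_pos, Nat.Partition.coeff_genFun, Fintype.sum_unique]
  rfl

/-- Remove one row. -/
def cut (ε : ℕ → ℕ → ℂ) (k : ℕ) : ℕ → ℕ → ℂ := fun i j => if i = k then 0 else ε i j

theorem cut_norm {ε : ℕ → ℕ → ℂ} (hε : ∀ i j, ‖ε i j‖ ≤ 1) (k : ℕ) :
    ∀ i j, ‖cut ε k i j‖ ≤ 1 := by
  intro i j
  unfold cut
  split_ifs
  · simp
  · exact hε i j

theorem GF_factor {ε : ℕ → ℕ → ℂ} (hε : ∀ i j, ‖ε i j‖ ≤ 1) {k : ℕ} (hk : 1 ≤ k) {z : ℂ}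
    (hz : ‖z‖ < 1) : GF ε z = rowf (ε k) (z ^ k) * GF (cut ε k) z := by
  have h1 := tendsto_prod_rows hε hz
  have h2 := (tendsto_prod_rows (cut_norm hε k) hz).const_mul (rowf (ε k) (z ^ k))
  refine tendsto_nhds_unique h1 (h2.congr' ?_)
  filter_upwards [eventually_ge_atTop k] with K hK
  have hmem : k - 1 ∈ Finset.range K := Finset.mem_range.2 (by omega)
  rw [← Finset.mul_prod_erase _ _ hmem, ← Finset.mul_prod_erase _ _ hmem]
  have h3 : (1 + ∑' j, cut ε k (k - 1 + 1) (j + 1) * (z ^ (k - 1 + 1)) ^ (j + 1)) = 1 := by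
    rw [Nat.sub_add_cancel hk]
    simp [cut]
  rw [h3, one_mul]
  congr 1
  · rw [Nat.sub_add_cancel hk, rowf]
  · refine Finset.prod_congr rfl fun i hi => ?_
    have hne : i + 1 ≠ k := by
      have := (Finset.mem_erase.1 hi).1
      omega
    simp [cut, hne]

theorem exists_Phi {r : ℝ} (hr0 : 0 < r) (hr1 : r < 1) (y : ℕ → ℂ) (S : Finset ℕ) :
    ∀ {ε : ℕ → ℕ → ℂ}, (∀ i j, ‖ε i j‖ ≤ 1) → (∀ k ∈ S, 1 ≤ k) → (∀ k ∈ S, ‖y k‖ < 1) →
      (∀ k ∈ S, rowf (ε k) (y k) = 0) →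
      ∃ Φ : ℂ → ℂ, DifferentiableOn ℂ Φ (ball 0 1) ∧ (∀ z, ‖z‖ = r → ‖Φ z‖ = ‖GF ε z‖) ∧
        ‖Φ 0‖ = ∏ k ∈ S, r ^ k / ‖y k‖ := by
  induction S using Finset.induction_on with
  | empty =>
    intro ε hε _ _ _
    refine ⟨GF ε, (GF_rep hε).differentiableOn one_pos, fun z _ => rfl, ?_⟩
    rw [GF_zero hε]
    simp
  | insert k S hkS ih =>
    intro ε hε h1 hy h0
    obtain ⟨Φ, hd, hn, hz⟩ := ih (ε := cut ε k) (cut_norm hε k)
      (fun i hi => h1 i (Finset.mem_insert_of_mem hi))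
      (fun i hi => hy i (Finset.mem_insert_of_mem hi)) (fun i hi => by
        have hne : i ≠ k := fun h => hkS (h ▸ hi)
        have h2 : cut ε k i = ε i := by
          funext j
          simp [cut, hne]
        rw [h2]
        exact h0 i (Finset.mem_insert_of_mem hi))
    have hk1 := h1 k (Finset.mem_insert_self k S)
    have hyk := hy k (Finset.mem_insert_self k S)
    have h0k := h0 k (Finset.mem_insert_self k S)
    set f := rowf (ε k) with hf
    set g := dslope f (y k) with hg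
    have hfg : ∀ w, f w = (w - y k) * g w := by
      intro w
      have := sub_smul_dslope f (y k) w
      rw [h0k, sub_zero, smul_eq_mul] at this
      exact this.symm
    have hgd : DifferentiableOn ℂ g (ball 0 1) := by
      refine (Complex.differentiableOn_dslope ?_).2 (rowf_diff (hε k))
      exact isOpen_ball.mem_nhds (by simpa using hyk)
    have hpow : DifferentiableOn ℂ (fun z : ℂ => z ^ k) (ball 0 1) :=
      (differentiable_id.pow k).differentiableOn
    have hmaps : Set.MapsTo (fun z : ℂ => z ^ k) (ball 0 1) (ball 0 1) := by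
      intro z hz
      rw [mem_ball_zero_iff] at hz ⊢
      rw [norm_pow]
      exact pow_lt_one₀ (norm_nonneg z) hz (by omega)
    have hy0 : y k ≠ 0 := by
      intro h
      rw [h, hf, rowf_zero] at h0k
      exact one_ne_zero h0k
    refine ⟨fun z => ((r : ℂ) ^ (2 * k) - (starRingEnd ℂ) (y k) * z ^ k) / (r : ℂ) ^ k *
      g (z ^ k) * Φ z, ?_, ?_, ?_⟩
    · refine DifferentiableOn.mul (DifferentiableOn.mul ?_ (hgd.comp hpow hmaps)) hd
      exact ((differentiableOn_const _).sub ((differentiableOn_const _).mul hpow)).div_const _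
    · intro z hzr
      have hz1 : ‖z‖ < 1 := by rw [hzr]; exact hr1
      have hrc : (r : ℂ) ≠ 0 := by exact_mod_cast hr0.ne'
      rw [GF_factor hε hk1 hz1, ← hf, hfg, norm_mul, norm_mul, norm_mul, norm_mul, hn z hzr]
      congr 2
      rw [norm_div, norm_pow, Complex.norm_real, Real.norm_of_nonneg hr0.le,
        div_eq_iff (by positivity)]
      have h4 : (r : ℂ) ^ (2 * k) = z ^ k * (starRingEnd ℂ) (z ^ k) := by
        rw [Complex.mul_conj, Complex.normSq_eq_norm_sq, norm_pow, hzr]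
        push_cast
        ring
      rw [h4, mul_comm ((starRingEnd ℂ) (y k)), ← mul_sub, ← map_sub, norm_mul,
        Complex.norm_conj, norm_pow, hzr, mul_comm]
    · have h5 : g 0 = -(y k)⁻¹ := by
        have h6 := hfg 0
        rw [hf, rowf_zero, zero_sub] at h6
        field_simp
        linear_combination h6
      have hk0 : k ≠ 0 := by omega
      rw [Finset.prod_insert hkS, ← hz]
      simp only [zero_pow hk0, mul_zero, sub_zero, h5, norm_mul, norm_neg, norm_inv, norm_div,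
        norm_pow, Complex.norm_real, Real.norm_of_nonneg hr0.le]
      congr 1
      rw [div_eq_mul_inv, two_mul, pow_add]
      field_simp

/-- A Jensen type inequality for the rows. -/
theorem prod_le {ε : ℕ → ℕ → ℂ} (hε : ∀ i j, ‖ε i j‖ ≤ 1) {r : ℝ} (hr0 : 0 < r) (hr1 : r < 1)
    {y : ℕ → ℂ} {S : Finset ℕ} (h1 : ∀ k ∈ S, 1 ≤ k) (hy : ∀ k ∈ S, ‖y k‖ < 1)
    (h0 : ∀ k ∈ S, rowf (ε k) (y k) = 0) {M : ℝ} (hM : ∀ z, ‖z‖ = r → ‖GF ε z‖ ≤ M) :
    ∏ k ∈ S, r ^ k / ‖y k‖ ≤ M := by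
  obtain ⟨Φ, hd, hn, hz⟩ := exists_Phi hr0 hr1 y S hε h1 hy h0
  rw [← hz]
  have hsub : closedBall (0 : ℂ) r ⊆ ball 0 1 := closedBall_subset_ball hr1
  refine Complex.norm_le_of_forall_mem_frontier_norm_le (U := ball 0 r) isBounded_ball
    ⟨hd.mono (ball_subset_ball hr1.le), ?_⟩ (fun z hz => ?_) ?_
  · rw [closure_ball _ hr0.ne']
    exact hd.continuousOn.mono hsub
  · rw [frontier_ball _ hr0.ne', mem_sphere_zero_iff_norm] at hz
    rw [hn z hz]
    exact hM z hz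
  · rw [closure_ball _ hr0.ne']
    simp [hr0.le]

end Pool.Agent.Work.MP_6f8877_nt
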