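import Pool.Agent.Work.MP_6f8877_nt.Rows1

/-!
# Counting rows with zeros; stability of zeros
-/

set_option autoImplicit false

open Filter Topology Metric

namespace Pool.Agent.Work.MP_6f8877_nt

/-- The number of rows with a zero of modulus at most `ρ`. -/
theorem card_le {ε : ℕ → ℕ → ℂ} (hε : ∀ i j, ‖ε i j‖ ≤ 1) {ρ : ℝ} (hρ0 : 0 < ρ) (hρ1 : ρ < 1)
    {K : ℕ} (hK : 1 ≤ K) {S : Finset ℕ} (hS : S ⊆ Finset.Icc 1 K)
    (hz : ∀ k ∈ S, ∃ y : ℂ, ‖y‖ ≤ ρ ∧ rowf (ε k) y = 0) {M : ℝ}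
    (hM : ∀ z : ℂ, ‖z‖ = Real.exp (Real.log ρ / (2 * K)) → ‖GF ε z‖ ≤ M) :
    (-Real.log ρ) / 2 * S.card ≤ Real.log M := by
  have hl : Real.log ρ < 0 := Real.log_neg hρ0 hρ1
  have hK0 : (0 : ℝ) < K := by exact_mod_cast hK
  set r := Real.exp (Real.log ρ / (2 * K)) with hr
  have hr1 : r < 1 := by
    rw [hr, Real.exp_lt_one_iff]
    exact div_neg_of_neg_of_pos hl (by positivity)
  have h1 : ∀ k, ∃ y : ℂ, k ∈ S → ‖y‖ ≤ ρ ∧ rowf (ε k) y = 0 := by
    intro k
    by_cases hk : k ∈ S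
    · obtain ⟨y, hy⟩ := hz k hk
      exact ⟨y, fun _ => hy⟩
    · exact ⟨0, fun h => absurd h hk⟩
  choose y hy using h1
  have h2 := prod_le hε (Real.exp_pos _) hr1 (y := y) (S := S)
    (fun k hk => (Finset.mem_Icc.1 (hS hk)).1) (fun k hk => (hy k hk).1.trans_lt hρ1)
    (fun k hk => (hy k hk).2) hM
  have h3 : ∀ k ∈ S, Real.exp (-Real.log ρ / 2) ≤ r ^ k / ‖y k‖ := by
    intro k hk
    have hy0 : 0 < ‖y k‖ := by
      rw [norm_pos_iff]
      intro h
      have := (hy k hk).2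
      rw [h, rowf_zero] at this
      exact one_ne_zero this
    rw [le_div_iff₀ hy0]
    have h4 : Real.exp (Real.log ρ / 2) ≤ r ^ k := by
      rw [hr, ← Real.exp_nat_mul]
      refine Real.exp_le_exp.2 ?_
      have hkK : (k : ℝ) ≤ K := by exact_mod_cast (Finset.mem_Icc.1 (hS hk)).2
      have : (k : ℝ) * (Real.log ρ / (2 * K)) = (k / K) * (Real.log ρ / 2) := by
        field_simp
      rw [this]
      have h5 : (k : ℝ) / K ≤ 1 := (div_le_one hK0).2 hkK
      nlinarith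
    calc Real.exp (-Real.log ρ / 2) * ‖y k‖ ≤ Real.exp (-Real.log ρ / 2) * ρ := by
          gcongr
          exact (hy k hk).1
      _ = Real.exp (Real.log ρ / 2) := by
          conv_lhs => rw [← Real.exp_log hρ0]
          rw [Real.log_exp, ← Real.exp_add]
          congr 1
          ring
      _ ≤ r ^ k := h4
  have h4 : Real.exp (-Real.log ρ / 2) ^ S.card ≤ M := by
    rw [← Finset.prod_const]
    exact (Finset.prod_le_prod (fun _ _ => (Real.exp_pos _).le) h3).trans h2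
  have h5 := Real.log_le_log (by positivity) h4
  rw [Real.log_pow, Real.log_exp] at h5
  linarith

/-- Zeros of rows are stable. -/
theorem open_row {c : ℕ → ℂ} (hc : ∀ j, ‖c j‖ ≤ 1) {y₀ : ℂ} {ρ : ℝ} (hy₀ : ‖y₀‖ < ρ)
    (hρ : ρ < 1) (h0 : rowf c y₀ = 0) :
    ∃ J : ℕ, ∀ c' : ℕ → ℂ, (∀ j, ‖c' j‖ ≤ 1) → (∀ j, 1 ≤ j → j ≤ J → c' j = c j) →
      ∃ y : ℂ, ‖y‖ ≤ ρ ∧ rowf c' y = 0 := by
  have hρ0 : 0 ≤ ρ := (norm_nonneg _).trans hy₀.le
  have hy1 : y₀ ∈ ball (0 : ℂ) 1 := by rw [mem_ball_zero_iff]; linarith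
  have han : AnalyticOnNhd ℂ (rowf c) (ball 0 1) := (rowf_diff hc).analyticOnNhd isOpen_ball
  -- isolated zero
  have hne : ∀ᶠ z in 𝓝[≠] y₀, rowf c z ≠ 0 := by
    rcases (han y₀ hy1).eventually_eq_zero_or_eventually_ne_zero with h | h
    · exfalso
      have h1 := han.eqOn_zero_of_preconnected_of_eventuallyEq_zero
        (convex_ball (0 : ℂ) 1).isPreconnected hy1 h
      have h2 := h1 (mem_ball_self one_pos)
      rw [rowf_zero] at h2
      exact one_ne_zero h2
    · exact h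
  rw [eventually_nhdsWithin_iff, Metric.eventually_nhds_iff] at hne
  obtain ⟨δ', hδ', hne⟩ := hne
  set δ := min (δ' / 2) (ρ - ‖y₀‖) with hδ
  have hδ0 : 0 < δ := lt_min (by linarith) (by linarith)
  have hδ1 : δ < δ' := (min_le_left _ _).trans_lt (by linarith)
  have hδ2 : ‖y₀‖ + δ ≤ ρ := by
    have := min_le_right (δ' / 2) (ρ - ‖y₀‖)
    linarith
  have hsub : closedBall y₀ δ ⊆ closedBall 0 ρ := by
    intro z hz
    rw [mem_closedBall_zero_iff]
    rw [mem_closedBall, dist_eq_norm] at hz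
    calc ‖z‖ = ‖(z - y₀) + y₀‖ := by ring_nf
      _ ≤ ‖z - y₀‖ + ‖y₀‖ := norm_add_le _ _
      _ ≤ ρ := by linarith
  have hsub1 : closedBall (0 : ℂ) ρ ⊆ ball 0 1 := closedBall_subset_ball hρ
  have hcomp : IsCompact (sphere y₀ δ) := isCompact_sphere y₀ δ
  have hnon : (sphere y₀ δ).Nonempty := NormedSpace.sphere_nonempty.2 hδ0.le
  have hcont : ContinuousOn (fun z => ‖rowf c z‖) (sphere y₀ δ) :=
    ((rowf_diff hc).continuousOn.mono
      (sphere_subset_closedBall.trans (hsub.trans hsub1))).norm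
  obtain ⟨zm, hzm, hmin⟩ := hcomp.exists_isMinOn hnon hcont
  set η := ‖rowf c zm‖ with hη
  have hη0 : 0 < η := by
    rw [hη, norm_pos_iff]
    rw [mem_sphere] at hzm
    refine hne (by rw [hzm]; exact hδ1) ?_
    intro h
    rw [Set.mem_singleton_iff.1 h, dist_self] at hzm
    exact hδ0.ne hzm
  have hmin' : ∀ z ∈ sphere y₀ δ, η ≤ ‖rowf c z‖ := fun z hz => hmin hz
  set s := Real.sqrt ρ with hs
  have hs0 : 0 ≤ s := Real.sqrt_nonneg ρ
  have hs1 : s < 1 := by
    rw [hs, Real.sqrt_lt' one_pos]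
    simpa using hρ
  have hss : ρ = s * s := (Real.mul_self_sqrt hρ0).symm
  obtain ⟨J, hJ⟩ : ∃ J : ℕ, 2 * s ^ J / (1 - s) < η / 2 := by
    have h1 : Tendsto (fun J : ℕ => 2 * s ^ J / (1 - s)) atTop (𝓝 (2 * 0 / (1 - s))) :=
      ((tendsto_pow_atTop_nhds_zero_of_lt_one hs0 hs1).const_mul 2).div_const _
    simp only [mul_zero, zero_div] at h1
    exact (h1.eventually_lt_const (half_pos hη0)).exists
  refine ⟨J, fun c' hc' hcc => ?_⟩
  have hdiff : ∀ z : ℂ, ‖z‖ ≤ ρ → ‖rowf c' z - rowf c z‖ < η / 2 := by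
    intro z hz
    refine lt_of_le_of_lt ?_ hJ
    have hz1 : ‖z‖ < 1 := by linarith
    have hgeo : Summable (fun j : ℕ => ‖z‖ ^ (j + 1)) :=
      (summable_nat_add_iff 1).2 (summable_geometric_of_lt_one (norm_nonneg z) hz1)
    have hs1' : ∀ {d : ℕ → ℂ}, (∀ j, ‖d j‖ ≤ 1) → Summable (fun j => d (j + 1) * z ^ (j + 1)) := by
      intro d hd
      refine Summable.of_norm_bounded hgeo fun j => ?_
      rw [norm_mul, norm_pow]
      exact mul_le_of_le_one_left (by positivity) (hd _)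
    have h1 : rowf c' z - rowf c z = ∑' j, (c' (j + 1) - c (j + 1)) * z ^ (j + 1) := by
      unfold rowf
      rw [add_sub_add_left_eq_sub, ← (hs1' hc').tsum_sub (hs1' hc)]
      refine tsum_congr fun j => ?_
      ring
    rw [h1]
    have hsum : HasSum (fun j : ℕ => 2 * s ^ J * s ^ j) (2 * s ^ J / (1 - s)) := by
      rw [div_eq_mul_inv]
      exact (hasSum_geometric_of_lt_one hs0 hs1).mul_left _
    refine tsum_of_norm_bounded hsum fun j => ?_
    rcases le_or_gt (j + 1) J with hj | hj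
    · rw [hcc (j + 1) (by omega) hj, sub_self, zero_mul, norm_zero]
      positivity
    · have h2 : ‖c' (j + 1) - c (j + 1)‖ ≤ 2 :=
        (norm_sub_le _ _).trans (by linarith [hc' (j + 1), hc (j + 1)])
      have h3 : ‖z‖ ^ (j + 1) ≤ s ^ J * s ^ j := by
        calc ‖z‖ ^ (j + 1) ≤ ρ ^ (j + 1) := pow_le_pow_left₀ (norm_nonneg z) hz _
          _ = s ^ (j + 1) * s ^ (j + 1) := by rw [hss, mul_pow]
          _ ≤ s ^ J * s ^ j :=
            mul_le_mul (pow_le_pow_of_le_one hs0 hs1.le hj.le)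
              (pow_le_pow_of_le_one hs0 hs1.le (Nat.le_succ j)) (by positivity) (by positivity)
      rw [norm_mul, norm_pow, mul_assoc]
      exact mul_le_mul h2 h3 (by positivity) (by norm_num)
  by_contra hno
  push Not at hno
  have hnz : ∀ z ∈ closedBall y₀ δ, rowf c' z ≠ 0 := fun z hz =>
    hno z (by simpa using hsub hz)
  have hdc : DiffContOnCl ℂ (fun z => (rowf c' z)⁻¹) (ball y₀ δ) := by
    have h1 : DifferentiableOn ℂ (fun z => (rowf c' z)⁻¹) (closedBall y₀ δ) := by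
      refine DifferentiableOn.inv ?_ hnz
      exact (rowf_diff hc').mono (hsub.trans hsub1)
    refine ⟨h1.mono ball_subset_closedBall, ?_⟩
    rw [closure_ball _ hδ0.ne']
    exact h1.continuousOn
  have hbd : ∀ z ∈ frontier (ball y₀ δ), ‖(rowf c' z)⁻¹‖ ≤ 2 / η := by
    intro z hz
    rw [frontier_ball _ hδ0.ne'] at hz
    have h1 := hmin' z hz
    have h2 := hdiff z (by simpa using hsub (sphere_subset_closedBall hz))
    have h3 : η / 2 ≤ ‖rowf c' z‖ := by
      have h4 : ‖rowf c z‖ ≤ ‖rowf c' z‖ + ‖rowf c' z - rowf c z‖ := by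
        have := norm_sub_le (rowf c' z) (rowf c' z - rowf c z)
        rwa [sub_sub_cancel] at this
      linarith
    rw [norm_inv, inv_le_comm₀ (by linarith) (by positivity), inv_div]
    exact h3
  have hfin := Complex.norm_le_of_forall_mem_frontier_norm_le isBounded_ball hdc hbd
    (z := y₀) (subset_closure (mem_ball_self hδ0))
  have h5 := hdiff y₀ hy₀.le
  rw [h0, sub_zero] at h5
  have h6 : 0 < ‖rowf c' y₀‖ := norm_pos_iff.2 (hnz y₀ (mem_closedBall_self hδ0.le))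
  rw [norm_inv, inv_le_comm₀ h6 (by positivity), inv_div] at hfin
  linarith

end Pool.Agent.Work.MP_6f8877_nt
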